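import Pool.Agent.Helper7.Bridge3

set_option autoImplicit false

/-!
Complex conjugation for the Betti structure and the sign of the polarisation on the eigenspaces
of an action of a number field.
-/

open scoped ComplexConjugate

namespace Pool.Agent.Helper7

open Module NumberField Pool.Agent.GPC

section cnj

variable {κ : Type} [Fintype κ] [DecidableEq κ] {ϖ : ℂ} (P : PData κ ϖ)

/-- complex conjugation for the Betti structure -/
noncomputable def cB (v : κ → ℂ) : κ → ℂ := ∑ i, conj (P.bB.repr v i) • P.bB i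

lemma cB_add (u v : κ → ℂ) : cB P (u + v) = cB P u + cB P v := by
  unfold cB
  rw [← Finset.sum_add_distrib]
  refine Finset.sum_congr rfl fun i _ => ?_
  rw [map_add, Finsupp.add_apply, map_add, add_smul]

lemma cB_smul (c : ℂ) (v : κ → ℂ) : cB P (c • v) = conj c • cB P v := by
  unfold cB
  rw [Finset.smul_sum]
  refine Finset.sum_congr rfl fun i _ => ?_
  rw [map_smul, Finsupp.smul_apply, smul_eq_mul, map_mul, smul_smul]

lemma cB_zero : cB P 0 = 0 := by
  have := cB_smul P 0 0
  rw [zero_smul, map_zero, zero_smul] at this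
  exact this

lemma cB_neg (v : κ → ℂ) : cB P (-v) = - cB P v := by
  have := cB_smul P (-1) v
  rw [neg_one_smul, map_neg, map_one, neg_one_smul] at this
  exact this

lemma cB_sub (u v : κ → ℂ) : cB P (u - v) = cB P u - cB P v := by
  rw [sub_eq_add_neg, cB_add, cB_neg, ← sub_eq_add_neg]

lemma cB_sum {J : Type*} (s : Finset J) (f : J → κ → ℂ) :
    cB P (∑ j ∈ s, f j) = ∑ j ∈ s, cB P (f j) := by
  classical
  induction s using Finset.induction_on with
  | empty => rw [Finset.sum_empty, Finset.sum_empty, cB_zero]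
  | insert a s ha ih => rw [Finset.sum_insert ha, Finset.sum_insert ha, cB_add, ih]

lemma cB_of_mem (v : κ → ℂ) (hv : v ∈ P.Q) : cB P v = v := by
  unfold cB
  conv_rhs => rw [← P.bB.sum_repr v]
  refine Finset.sum_congr rfl fun i _ => ?_
  obtain ⟨q, hq⟩ := P.repr_rat v hv i
  rw [hq, map_ratCast]

lemma cB_basis (i : P.ι) : cB P (P.bB i) = P.bB i := cB_of_mem P _ (P.basis_mem i)

lemma cB_cB (v : κ → ℂ) : cB P (cB P v) = v := by
  conv_lhs => rw [show cB P v = ∑ i, conj (P.bB.repr v i) • P.bB i from rfl]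
  rw [cB_sum]
  conv_rhs => rw [← P.bB.sum_repr v]
  refine Finset.sum_congr rfl fun i _ => ?_
  rw [cB_smul, cB_basis, Complex.conj_conj]

lemma cB_comm (f : Module.End ℂ (κ → ℂ)) (hf : ∀ v ∈ P.Q, f v ∈ P.Q) (v : κ → ℂ) :
    cB P (f v) = f (cB P v) := by
  have e : cB P v = ∑ i, conj (P.bB.repr v i) • P.bB i := rfl
  conv_lhs => rw [← P.bB.sum_repr v]
  rw [map_sum, cB_sum, e, map_sum]
  refine Finset.sum_congr rfl fun i _ => ?_
  have := cB_smul P (P.bB.repr v i) (f (P.bB i))
  rw [cB_of_mem P _ (hf _ (P.basis_mem i))] at this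
  rw [map_smul, map_smul]
  exact this

variable {K : Type} [Field K] [NumberField K] (ρ : K →+* Module.End ℂ (κ → ℂ))
  (hρQ : ∀ x, ∀ v ∈ P.Q, ρ x v ∈ P.Q)

include hρQ in
lemma cB_proj (σ : K →+* ℂ) (v : κ → ℂ) :
    cB P (proj ρ σ v) = proj ρ (ComplexEmbedding.conjugate σ) (cB P v) := by
  have hp : ∀ (τ : K →+* ℂ) (w : κ → ℂ), proj ρ τ w = ∑ b, τ (dbas K b) • ρ (bas K b) w := by
    intro τ w
    rw [proj, LinearMap.sum_apply]
    rfl
  rw [hp, hp, cB_sum]
  refine Finset.sum_congr rfl fun b _ => ?_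
  rw [cB_smul, cB_comm P _ (hρQ _), ComplexEmbedding.conjugate_coe_eq]

end cnj

section cnjB

variable {κ : Type} [Fintype κ] [DecidableEq κ] (P : PData κ (2 * Real.pi * Complex.I))

lemma psi_cB (u v : κ → ℂ) : P.ψ (cB P u) (cB P v) = - conj (P.ψ u v) := by
  have h : ∀ i j : P.ι, conj (P.ψ (P.bB i) (P.bB j)) = - P.ψ (P.bB i) (P.bB j) := by
    intro i j
    obtain ⟨q, hq⟩ := P.hψQ (P.bB i) (Submodule.subset_span ⟨i, rfl⟩) (P.bB j)
      (Submodule.subset_span ⟨j, rfl⟩)
    rw [hq, map_mul, map_mul, map_mul, map_ratCast, Complex.conj_I, Complex.conj_ofReal,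
      map_ofNat]
    ring
  have h1 : P.ψ u v = ∑ i, ∑ j, P.bB.repr u i * P.bB.repr v j * P.ψ (P.bB i) (P.bB j) := by
    conv_lhs => rw [← P.bB.sum_repr u, ← P.bB.sum_repr v]
    rw [map_sum P.ψ, LinearMap.sum_apply]
    refine Finset.sum_congr rfl fun i _ => ?_
    rw [map_sum]
    refine Finset.sum_congr rfl fun j _ => ?_
    rw [map_smul, map_smul, LinearMap.smul_apply, smul_eq_mul, smul_eq_mul]
    ring
  rw [h1, map_sum, ← Finset.sum_neg_distrib]
  unfold cB
  rw [map_sum P.ψ, LinearMap.sum_apply]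
  refine Finset.sum_congr rfl fun i _ => ?_
  rw [map_sum, map_sum, ← Finset.sum_neg_distrib]
  refine Finset.sum_congr rfl fun j _ => ?_
  rw [map_smul, map_smul, LinearMap.smul_apply, smul_eq_mul, smul_eq_mul, map_mul, map_mul, h]
  ring

end cnjB

section av

variable (A : AbVar)

/-- real points are periods -/
lemma eq_period (v : A.H1) (hv : cB (pData A) v = v) : v = A.period (A.zz v) := by
  apply real_span_betti
  have h1 : v = ∑ i, (pData A).bB.repr v i • (pData A).bB i := ((pData A).bB.sum_repr v).symm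
  have h2 : ∀ i, conj ((pData A).bB.repr v i) = (pData A).bB.repr v i := by
    intro i
    have h3 : (pData A).bB.repr (cB (pData A) v) i = conj ((pData A).bB.repr v i) := by
      unfold cB
      rw [map_sum, Finsupp.finsetSum_apply, Finset.sum_eq_single i]
      · rw [map_smul, Finsupp.smul_apply, Basis.repr_self, Finsupp.single_eq_same, smul_eq_mul,
          mul_one]
      · intro j _ hj
        rw [map_smul, Finsupp.smul_apply, Basis.repr_self, Finsupp.single_eq_of_ne hj.symm,
          smul_zero]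
      · intro h; exact absurd (Finset.mem_univ i) h
    rw [← h3, hv]
  rw [h1]
  refine Submodule.sum_mem _ fun i _ => ?_
  have h3 : (pData A).bB.repr v i = (((pData A).bB.repr v i).re : ℂ) :=
    (Complex.conj_eq_iff_re.mp (h2 i)).symm
  rw [h3]
  have h4 : (((pData A).bB.repr v i).re : ℂ) • (pData A).bB i =
      (((pData A).bB.repr v i).re : ℝ) • (pData A).bB i := by
    funext j
    rw [Pi.smul_apply, Pi.smul_apply, Complex.real_smul, smul_eq_mul]
  rw [h4]
  refine Submodule.smul_mem _ _ (Submodule.subset_span ?_)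
  exact (mem_pData_Q A _).mp ((pData A).basis_mem i)

lemma isFil_iff (v : A.H1) : A.IsFil v ↔ A.zz v = 0 := by
  constructor
  · intro h
    funext a
    exact h a
  · intro h a
    exact congrFun h a

/-- every vector is a combination of periods -/
lemma exists_re_im (v : A.H1) : ∃ z w : Fin A.g → ℂ,
    v = A.period z + Complex.I • A.period w ∧
    cB (pData A) v = A.period z - Complex.I • A.period w := by
  set x : A.H1 := (1 / 2 : ℂ) • (v + cB (pData A) v) with hx
  set y : A.H1 := (-Complex.I / 2 : ℂ) • (v - cB (pData A) v) with hy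
  have hx1 : cB (pData A) x = x := by
    rw [hx, cB_smul, cB_add, cB_cB, add_comm]
    congr 1
    rw [map_div₀, map_one, map_ofNat]
  have hy1 : cB (pData A) y = y := by
    rw [hy, cB_smul, cB_sub, cB_cB, ← neg_sub v (cB (pData A) v), smul_neg, ← neg_smul]
    congr 1
    rw [map_div₀, map_neg, Complex.conj_I, map_ofNat]
    ring
  refine ⟨A.zz x, A.zz y, ?_, ?_⟩
  · rw [← eq_period A x hx1, ← eq_period A y hy1, hx, hy, smul_smul, smul_add, smul_sub]
    have e : Complex.I * (-Complex.I / 2) = 1 / 2 := by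
      rw [mul_div_assoc', mul_neg, Complex.I_mul_I]; norm_num
    rw [e]
    module
  · rw [← eq_period A x hx1, ← eq_period A y hy1, hx, hy, smul_smul, smul_add, smul_sub]
    have e : Complex.I * (-Complex.I / 2) = 1 / 2 := by
      rw [mul_div_assoc', mul_neg, Complex.I_mul_I]; norm_num
    rw [e]
    module

/-- the period map is complex conjugation invariant -/
lemma period_add' (z w : Fin A.g → ℂ) : A.period (z + w) = A.period z + A.period w :=
  period_add A z w

lemma zz_re_im (z w : Fin A.g → ℂ) :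
    A.zz (A.period z + Complex.I • A.period w) = z + Complex.I • w := by
  rw [map_add, map_smul]
  rfl

/-- vectors of the Hodge filtration -/
lemma fil_shape (v : A.H1) (hv : A.IsFil v) : ∃ w : Fin A.g → ℂ,
    v = A.period (-(Complex.I • w)) + Complex.I • A.period w ∧
    cB (pData A) v = A.period (-(Complex.I • w)) - Complex.I • A.period w := by
  obtain ⟨z, w, h1, h2⟩ := exists_re_im A v
  have h3 : z + Complex.I • w = 0 := by
    rw [← zz_re_im, ← h1]
    exact (isFil_iff A v).mp hv
  have h4 : z = -(Complex.I • w) := eq_neg_of_add_eq_zero_left h3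
  exact ⟨w, by rw [← h4]; exact h1, by rw [← h4]; exact h2⟩

lemma cB_rsmul (r : ℝ) (v : A.H1) : cB (pData A) ((r : ℂ) • v) = (r : ℂ) • cB (pData A) v := by
  rw [cB_smul, Complex.conj_ofReal]

/-- periods are real -/
lemma cB_period (x : Fin A.g → ℂ) : cB (pData A) (A.period x) = A.period x := by
  have hx : x ∈ Submodule.span ℝ (A.Λ : Set (Fin A.g → ℂ)) := by
    rw [A.lattice.spans]; trivial
  induction hx using Submodule.span_induction with
  | mem l hl =>
    refine cB_of_mem _ _ ?_
    rw [mem_pData_Q]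
    exact ⟨1, one_ne_zero, l, hl, by simp⟩
  | zero => rw [period_zero, cB_zero]
  | add x y _ _ hx hy => rw [period_add, cB_add, hx, hy]
  | smul r x _ hx =>
    rw [period_rsmul]
    have h : r • A.period x = (r : ℂ) • A.period x := by
      funext j
      rw [Pi.smul_apply, Pi.smul_apply, Complex.real_smul, smul_eq_mul]
    rw [h, cB_rsmul, hx]

/-- vectors of the Hodge filtration -/
lemma fil_of_shape (w : Fin A.g → ℂ) :
    A.IsFil (A.period (-(Complex.I • w)) + Complex.I • A.period w) := by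
  rw [isFil_iff, zz_re_im]
  exact neg_add_cancel _

lemma cB_shape (w : Fin A.g → ℂ) :
    cB (pData A) (A.period (-(Complex.I • w)) + Complex.I • A.period w) =
      A.period (-(Complex.I • w)) - Complex.I • A.period w := by
  rw [cB_add, cB_smul, cB_period, cB_period, Complex.conj_I, neg_smul, ← sub_eq_add_neg]

/-- every vector is the sum of a vector of the filtration and a conjugate of such a vector -/
lemma exists_hodge (v : A.H1) : ∃ u u' : A.H1, A.IsFil u ∧ A.IsFil u' ∧
    v = u + cB (pData A) u' := by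
  obtain ⟨z, w, h1, -⟩ := exists_re_im A v
  set a : Fin A.g → ℂ := (1 / 2 : ℂ) • (Complex.I • z + w) with ha
  set b : Fin A.g → ℂ := (1 / 2 : ℂ) • (Complex.I • z - w) with hb
  refine ⟨_, _, fil_of_shape A a, fil_of_shape A b, ?_⟩
  rw [cB_shape, h1]
  have e1 : A.period (-(Complex.I • a)) + A.period (-(Complex.I • b)) = A.period z := by
    rw [← period_add, ha, hb]
    congr 1
    funext j
    simp only [Pi.add_apply, Pi.neg_apply, Pi.smul_apply, Pi.sub_apply, smul_eq_mul]
    linear_combination (-(z j)) * Complex.I_mul_I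
  have e2 : A.period a = A.period w + A.period b := by
    rw [← period_add, ha, hb]
    congr 1
    funext j
    simp only [Pi.add_apply, Pi.smul_apply, Pi.sub_apply, smul_eq_mul]
    ring
  rw [← e1, e2, smul_add]
  abel

/-- the filtration is isotropic -/
lemma fil_isotropic {u v : A.H1} (hu : A.IsFil u) (hv : A.IsFil v) : (pData A).ψ u v = 0 := by
  rw [pData_ψ]
  unfold AbVar.pol
  refine Finset.sum_eq_zero fun a _ => ?_
  rw [hu a, hv a]
  ring

/-- the sign on the filtration -/
lemma sign_fil {u : A.H1} (hu : A.IsFil u) (hne : u ≠ 0) :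
    ∃ r : ℝ, 0 < r ∧ (pData A).ψ u (cB (pData A) u) = -(r : ℂ) := by
  obtain ⟨w, h1, h2⟩ := fil_shape A u hu
  have hw : w ≠ 0 := by
    rintro rfl
    apply hne
    rw [h1, smul_zero, neg_zero, period_zero, smul_zero, add_zero]
  have hpos := A.appellHumbert.pos w hw
  refine ⟨4 * Real.pi * (hermForm A.H w w).re, by positivity, ?_⟩
  have hψ : ∀ l m : Fin A.g → ℂ, (pData A).ψ (A.period l) (A.period m) =
      2 * Real.pi * Complex.I * ((hermForm A.H l m).im : ℂ) := fun l m => polForm_period A l m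
  rw [h2]
  conv_lhs => rw [h1]
  rw [map_add, LinearMap.add_apply, map_sub, map_sub, map_smul, map_smul, LinearMap.smul_apply,
    LinearMap.smul_apply, map_smul, hψ, hψ, hψ, hψ]
  have e1 : hermForm A.H (-(Complex.I • w)) w = -Complex.I * hermForm A.H w w := by
    rw [← neg_smul, hermForm_smul_left]
  have e2 : hermForm A.H w (-(Complex.I • w)) = Complex.I * hermForm A.H w w := by
    rw [← neg_smul, hermForm_smul_right, map_neg, Complex.conj_I, neg_neg]
  have e3 : hermForm A.H (-(Complex.I • w)) (-(Complex.I • w)) = hermForm A.H w w := by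
    rw [← neg_smul, hermForm_smul_left, hermForm_smul_right, map_neg, Complex.conj_I, neg_neg,
      ← mul_assoc, neg_mul, Complex.I_mul_I, neg_neg, one_mul]
  have e4 : (hermForm A.H w w).im = 0 := by
    have := hermForm_symm A.H A.H_herm w w
    exact Complex.conj_eq_iff_im.mp this.symm
  rw [e1, e2, e3, e4]
  have e5 : (-Complex.I * hermForm A.H w w).im = -(hermForm A.H w w).re := by simp
  have e6 : (Complex.I * hermForm A.H w w).im = (hermForm A.H w w).re := by simp
  rw [e5, e6]
  simp only [smul_eq_mul]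
  push_cast
  linear_combination (4 * Real.pi * ((hermForm A.H w w).re : ℂ)) * Complex.I_mul_I

/-- the sign on the conjugate of the filtration -/
lemma sign_conj {u : A.H1} (hu : A.IsFil u) (hne : u ≠ 0) :
    ∃ r : ℝ, 0 < r ∧ (pData A).ψ (cB (pData A) u) (cB (pData A) (cB (pData A) u)) = (r : ℂ) := by
  obtain ⟨r, hr, h⟩ := sign_fil A hu hne
  refine ⟨r, hr, ?_⟩
  rw [psi_cB, h, map_neg, Complex.conj_ofReal, neg_neg]

lemma conj_isotropic {u v : A.H1} (hu : A.IsFil u) (hv : A.IsFil v) :
    (pData A).ψ (cB (pData A) u) (cB (pData A) v) = 0 := by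
  rw [psi_cB, fil_isotropic A hu hv, map_zero, neg_zero]

/-- the form on a sum -/
lemma psi_sum {a b : A.H1} (ha : A.IsFil a) (hb : A.IsFil b) :
    (pData A).ψ (a + cB (pData A) b) (cB (pData A) (a + cB (pData A) b)) =
      (pData A).ψ a (cB (pData A) a) +
        (pData A).ψ (cB (pData A) b) (cB (pData A) (cB (pData A) b)) := by
  rw [cB_add, cB_cB, map_add (pData A).ψ, LinearMap.add_apply, map_add, map_add,
    fil_isotropic A ha hb, conj_isotropic A hb ha, add_zero, zero_add]

lemma fil_inter {a : A.H1} (ha : A.IsFil a) (hb : A.IsFil (cB (pData A) a)) : a = 0 := by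
  by_contra hne
  obtain ⟨r, hr, h⟩ := sign_fil A ha hne
  rw [fil_isotropic A ha hb] at h
  have : (r : ℂ) = 0 := by
    rw [eq_comm, neg_eq_zero] at h
    exact h
  exact hr.ne' (by exact_mod_cast this)

lemma cB_ne_zero {a : A.H1} (ha : a ≠ 0) : cB (pData A) a ≠ 0 := by
  intro h
  apply ha
  rw [← cB_cB (pData A) a, h, cB_zero]

lemma fil_zero : A.IsFil 0 := fun _ => rfl

lemma fil_add {a b : A.H1} (ha : A.IsFil a) (hb : A.IsFil b) : A.IsFil (a + b) := by
  intro j
  rw [Pi.add_apply, ha j, hb j, add_zero]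

lemma fil_smul (c : ℂ) {a : A.H1} (ha : A.IsFil a) : A.IsFil (c • a) := by
  intro j
  rw [Pi.smul_apply, ha j, smul_zero]

lemma fil_sum {J : Type*} (s : Finset J) (f : J → A.H1) (hf : ∀ j, A.IsFil (f j)) :
    A.IsFil (∑ j ∈ s, f j) := by
  intro j
  rw [Finset.sum_apply]
  exact Finset.sum_eq_zero fun i _ => hf i j

variable {K : Type} [Field K] [NumberField K] (ρ : K →+* Module.End ℂ A.H1)

/-- the polarisation is definite on the eigenspace of `σ` -/
def IsDefAt (σ : K →+* ℂ) : Prop :=
  (∀ v, A.IsFil (proj ρ σ v)) ∨ (∀ v, A.IsFil (proj ρ σ v) → proj ρ σ v = 0)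

variable (hrho : ∀ x, A.IsEnd (ρ x))

include hrho in
lemma proj_fil (σ : K →+* ℂ) {v : A.H1} (hv : A.IsFil v) : A.IsFil (proj ρ σ v) := by
  have hp : proj ρ σ v = ∑ b, σ (dbas K b) • ρ (bas K b) v := by
    rw [proj, LinearMap.sum_apply]
    rfl
  rw [hp]
  exact fil_sum A _ _ fun b => fil_smul A _ ((hrho _).hodge v hv)

include hrho in
lemma rho_Q (x : K) (v : A.H1) (hv : v ∈ (pData A).Q) : ρ x v ∈ (pData A).Q := by
  rw [mem_pData_Q] at hv ⊢
  exact (hrho x).betti v hv

include hrho in
lemma proj_cB (σ : K →+* ℂ) (v : A.H1) : proj ρ σ (cB (pData A) v) =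
    cB (pData A) (proj ρ (ComplexEmbedding.conjugate σ) v) := by
  rw [cB_proj (pData A) ρ (rho_Q A ρ hrho)]
  congr 1
  have : ComplexEmbedding.conjugate (ComplexEmbedding.conjugate σ) = σ := by
    ext x
    simp
  rw [this]

lemma proj_idem (σ : K →+* ℂ) (v : A.H1) : proj ρ σ (proj ρ σ v) = proj ρ σ v := by
  classical
  rw [← Module.End.mul_apply, proj_mul_proj, if_pos rfl]

include hrho in
/-- definite eigenspaces have no isotropic vectors -/
theorem definite_at {σ : K →+* ℂ} (h : IsDefAt A ρ σ) (v : A.H1)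
    (hv : (pData A).ψ (proj ρ σ v) (cB (pData A) (proj ρ σ v)) = 0) : proj ρ σ v = 0 := by
  rcases h with h | h
  · by_contra hne
    obtain ⟨r, hr, h1⟩ := sign_fil A (h v) hne
    rw [hv] at h1
    have : (r : ℂ) = 0 := by
      rw [eq_comm, neg_eq_zero] at h1
      exact h1
    exact hr.ne' (by exact_mod_cast this)
  · obtain ⟨u, u', hu, hu', huu⟩ := exists_hodge A (proj ρ σ v)
    have h1 : proj ρ σ v = cB (pData A) (proj ρ (ComplexEmbedding.conjugate σ) u') := by
      rw [← proj_idem A ρ σ v, huu, map_add, h u (proj_fil A ρ hrho σ hu), zero_add,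
        proj_cB A ρ hrho]
    by_contra hne
    have h2 : proj ρ (ComplexEmbedding.conjugate σ) u' ≠ 0 := by
      intro h0
      apply hne
      rw [h1, h0, cB_zero]
    obtain ⟨r, hr, h3⟩ := sign_conj A (proj_fil A ρ hrho _ hu') h2
    rw [← h1, hv] at h3
    have : (r : ℂ) = 0 := h3.symm
    exact hr.ne' (by exact_mod_cast this)

include hrho in
/-- indefinite eigenspaces have isotropic vectors -/
theorem indefinite_at {σ : K →+* ℂ} (h : ¬ IsDefAt A ρ σ) : ∃ v, proj ρ σ v ≠ 0 ∧
    (pData A).ψ (proj ρ σ v) (cB (pData A) (proj ρ σ v)) = 0 := by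
  unfold IsDefAt at h
  push Not at h
  obtain ⟨⟨v₁, hv₁⟩, v₂, hv₂, hv₂'⟩ := h
  obtain ⟨u, u', hu, hu', huu⟩ := exists_hodge A (proj ρ σ v₁)
  set b : A.H1 := proj ρ (ComplexEmbedding.conjugate σ) u' with hb
  have hbF : A.IsFil b := proj_fil A ρ hrho _ hu'
  have hb1 : proj ρ σ (cB (pData A) u') = cB (pData A) b := proj_cB A ρ hrho σ u'
  have hb0 : b ≠ 0 := by
    intro h0
    apply hv₁
    rw [← proj_idem A ρ σ v₁, huu, map_add, hb1, h0, cB_zero, add_zero]
    exact proj_fil A ρ hrho σ hu
  set a : A.H1 := proj ρ σ v₂ with ha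
  obtain ⟨r, hr, h1⟩ := sign_fil A hv₂ hv₂'
  obtain ⟨s, hs, h2⟩ := sign_conj A hbF hb0
  -- `t ^ 2 s = r`
  set t : ℝ := Real.sqrt (r / s) with ht
  have ht2 : t ^ 2 * s = r := by
    rw [ht, Real.sq_sqrt (by positivity)]
    field_simp
  have htpos : 0 < t := Real.sqrt_pos.mpr (by positivity)
  have hv : proj ρ σ (v₂ + (t : ℂ) • cB (pData A) u') = a + cB (pData A) ((t : ℂ) • b) := by
    rw [map_add, map_smul, hb1, cB_rsmul, ← ha]
  refine ⟨v₂ + (t : ℂ) • cB (pData A) u', ?_, ?_⟩
  · rw [hv]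
    intro h0
    apply hv₂'
    refine fil_inter A hv₂ ?_
    have h3 : a = -cB (pData A) ((t : ℂ) • b) := eq_neg_of_add_eq_zero_left h0
    rw [h3, cB_neg, cB_cB, ← neg_smul]
    exact fil_smul A _ hbF
  · rw [hv, psi_sum A hv₂ (fil_smul A _ hbF), h1, cB_rsmul, cB_rsmul, map_smul, map_smul,
      LinearMap.smul_apply, h2]
    simp only [smul_eq_mul]
    rw [← ht2]
    push_cast
    ring

include hrho in
/-- real places are indefinite -/
theorem not_def_of_real {σ : K →+* ℂ} (hσ : ComplexEmbedding.conjugate σ = σ)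
    (hne : ∃ v, proj ρ σ v ≠ 0) : ¬ IsDefAt A ρ σ := by
  obtain ⟨v, hv⟩ := hne
  rintro (h | h)
  · apply hv
    refine fil_inter A (h v) ?_
    rw [cB_proj (pData A) ρ (rho_Q A ρ hrho), hσ]
    exact h _
  · apply hv
    obtain ⟨u, u', hu, hu', huu⟩ := exists_hodge A v
    rw [huu, map_add, h u (proj_fil A ρ hrho σ hu), zero_add, proj_cB A ρ hrho, hσ,
      h u' (proj_fil A ρ hrho σ hu'), cB_zero]

end av

end Pool.Agent.Helper7
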