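import Mathlib

/-!
Automorphisms of the field of complex numbers: extension of embeddings of number fields and fixed
points.
-/

namespace Pool.Agent.Helper84

open Polynomial

/-- Isomorphisms between algebraically closed fields with equipotent transcendence bases. -/
lemma exists_ringEquiv_of_basis {R K L : Type*} [CommRing R] [IsDomain R] [Field K] [Field L]
    [Algebra R K] [Algebra R L] [IsAlgClosed K] [IsAlgClosed L] {ι : Type*} {v : ι → K} {w : ι → L}
    (hv : IsTranscendenceBasis R v) (hw : IsTranscendenceBasis R w) :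
    ∃ e : K ≃+* L, ∀ r : R, e (algebraMap R K r) = algebraMap R L r := by
  let _ := IsAlgClosed.isAlgClosure_of_transcendence_basis v hv
  let _ := IsAlgClosed.isAlgClosure_of_transcendence_basis w hw
  let e0 : Algebra.adjoin R (Set.range v) ≃ₐ[R] Algebra.adjoin R (Set.range w) :=
    hv.1.aevalEquiv.symm.trans hw.1.aevalEquiv
  refine ⟨IsAlgClosure.equivOfEquiv K L e0.toRingEquiv, fun r => ?_⟩
  have h1 : algebraMap R K r = algebraMap (Algebra.adjoin R (Set.range v)) K
      (algebraMap R (Algebra.adjoin R (Set.range v)) r) := rfl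
  rw [h1, IsAlgClosure.equivOfEquiv_algebraMap]
  have h2 : e0.toRingEquiv (algebraMap R (Algebra.adjoin R (Set.range v)) r) =
      algebraMap R (Algebra.adjoin R (Set.range w)) r := e0.commutes r
  rw [h2]
  rfl

/-- Two embeddings of an algebraic extension of `ℚ` in `ℂ` differ by an automorphism of `ℂ`. -/
lemma exists_aut {K : Type*} [Field K] [CharZero K] [Algebra.IsAlgebraic ℚ K] (σ σ' : K →+* ℂ) :
    ∃ τ : ℂ ≃+* ℂ, (τ : ℂ →+* ℂ).comp σ = σ' := by
  obtain ⟨s, hs⟩ := exists_isTranscendenceBasis ℚ ℂ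
  have key : ∀ φ : K →+* ℂ,
      (letI : Algebra K ℂ := φ.toAlgebra; IsTranscendenceBasis K (fun x : s => (x : ℂ))) := by
    intro φ
    letI : Algebra K ℂ := φ.toAlgebra
    have : IsScalarTower ℚ K ℂ := IsScalarTower.of_algebraMap_eq' (Subsingleton.elim _ _)
    exact (Algebra.IsAlgebraic.isTranscendenceBasis_iff ℚ (S := K)).1 hs
  obtain ⟨e, he⟩ := @exists_ringEquiv_of_basis K ℂ ℂ _ _ _ _ σ.toAlgebra σ'.toAlgebra _ _ _ _ _
    (key σ) (key σ')
  exact ⟨e, RingHom.ext he⟩

/-- Galois theory for `ℂ`: an algebraic number fixed by all automorphisms of `ℂ` over the number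
field `σ(K)` lies in `σ(K)`. -/
lemma mem_range_of_fixed {K : Type*} [Field K] [CharZero K] [Algebra.IsAlgebraic ℚ K]
    (σ : K →+* ℂ) (z : ℂ) (hz : IsAlgebraic ℚ z)
    (h : ∀ τ : ℂ ≃+* ℂ, (τ : ℂ →+* ℂ).comp σ = σ → τ z = z) : ∃ x : K, σ x = z := by
  letI : Algebra K ℂ := σ.toAlgebra
  have : IsScalarTower ℚ K ℂ := IsScalarTower.of_algebraMap_eq' (Subsingleton.elim _ _)
  have hint : IsIntegral K z := (hz.isIntegral).tower_top
  by_contra hne
  have hdeg : (minpoly K z).natDegree ≠ 1 := by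
    intro h1
    exact hne ((minpoly.natDegree_eq_one_iff).1 h1)
  have hpos : 0 < (minpoly K z).natDegree := minpoly.natDegree_pos hint
  have hsep : (minpoly K z).Separable := (minpoly.irreducible hint).separable
  -- another root
  have hcard : Fintype.card ((minpoly K z).rootSet ℂ) = (minpoly K z).natDegree :=
    Polynomial.card_rootSet_eq_natDegree hsep (IsAlgClosed.splits _)
  obtain ⟨z', hz'⟩ : ∃ z' ∈ (minpoly K z).rootSet ℂ, z' ≠ z := by
    have h2 : 1 < Fintype.card ((minpoly K z).rootSet ℂ) := by omega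
    have h3 : z ∈ (minpoly K z).rootSet ℂ := by
      rw [Polynomial.mem_rootSet]
      exact ⟨minpoly.ne_zero hint, minpoly.aeval K z⟩
    obtain ⟨y, hy⟩ := Fintype.exists_ne_of_one_lt_card h2 ⟨z, h3⟩
    exact ⟨y.1, y.2, fun e => hy (Subtype.ext e)⟩
  obtain ⟨hz1, hz2⟩ := hz'
  have hmem : z' ∈ (minpoly K z).aroots ℂ := by
    rw [Polynomial.mem_aroots]
    rw [Polynomial.mem_rootSet] at hz1
    exact hz1
  let φ : IntermediateField.adjoin K {z} →ₐ[K] ℂ :=
    (IntermediateField.algHomAdjoinIntegralEquiv K hint).symm ⟨z', hmem⟩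
  have hφ : φ (IntermediateField.AdjoinSimple.gen K z) = z' :=
    IntermediateField.algHomAdjoinIntegralEquiv_symm_apply_gen K hint ⟨z', hmem⟩
  have : Algebra.IsAlgebraic K (IntermediateField.adjoin K {z}) :=
    IntermediateField.isAlgebraic_adjoin_simple hint
  have : Algebra.IsAlgebraic ℚ (IntermediateField.adjoin K {z}) :=
    Algebra.IsAlgebraic.trans ℚ K _
  obtain ⟨τ, hτ⟩ := exists_aut (IntermediateField.adjoin K {z}).val.toRingHom φ.toRingHom
  have h4 : (τ : ℂ →+* ℂ).comp σ = σ := by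
    ext x
    have h5 := RingHom.congr_fun hτ (algebraMap K _ x)
    have h6 : φ (algebraMap K (IntermediateField.adjoin K {z}) x) = σ x := φ.commutes x
    exact h5.trans h6
  have h7 := h τ h4
  have h8 := RingHom.congr_fun hτ (IntermediateField.AdjoinSimple.gen K z)
  exact hz2 (hφ.symm.trans ((Eq.symm h8).trans h7))

/-- A complex number algebraic over `ℚ` and fixed by all automorphisms of `ℂ` is rational. -/
lemma rational_of_fixed (z : ℂ) (hz : IsAlgebraic ℚ z) (h : ∀ τ : ℂ ≃+* ℂ, τ z = z) :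
    ∃ q : ℚ, (q : ℂ) = z := by
  obtain ⟨q, hq⟩ := mem_range_of_fixed (algebraMap ℚ ℂ) z hz (fun τ _ => h τ)
  exact ⟨q, by rw [← hq]; simp⟩

end Pool.Agent.Helper84
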