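import Mathlib
import Pool.Agent.Helper8.Lie.TopLevel

/-!
Two homomorphisms of a Lie algebra to `sp_4` which agree on a principal triple and have the same
kernel are equal.
-/

open Module LieAlgebra LieModule

set_option linter.unusedVariables false
set_option linter.unusedSectionVars false
set_option linter.unusedSimpArgs false

namespace Pool.Agent.Helper84.Iso

open Pool.Agent.Helper8

/-- the three matrices of the principal triple -/
def EE : Matrix (Fin 4) (Fin 4) ℂ := !![0, 3, 0, 0; 0, 0, 4, 0; 0, 0, 0, 3; 0, 0, 0, 0]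
def FF : Matrix (Fin 4) (Fin 4) ℂ := !![0, 0, 0, 0; 1, 0, 0, 0; 0, 1, 0, 0; 0, 0, 1, 0]
def HH : Matrix (Fin 4) (Fin 4) ℂ := !![3, 0, 0, 0; 0, 1, 0, 0; 0, 0, -1, 0; 0, 0, 0, -3]
def GG : Matrix (Fin 4) (Fin 4) ℂ := !![0, 0, 0, 1; 0, 0, -1, 0; 0, 1, 0, 0; -1, 0, 0, 0]

/-- the symplectic condition -/
def IsSp (M : Matrix (Fin 4) (Fin 4) ℂ) : Prop := M.transpose * GG + GG * M = 0

/-- weight -/
def HasWt (M : Matrix (Fin 4) (Fin 4) ℂ) (w : ℂ) : Prop := HH * M - M * HH = w • M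

lemma eta4 (M : Matrix (Fin 4) (Fin 4) ℂ) : M = !![M 0 0, M 0 1, M 0 2, M 0 3;
    M 1 0, M 1 1, M 1 2, M 1 3; M 2 0, M 2 1, M 2 2, M 2 3; M 3 0, M 3 1, M 3 2, M 3 3] := by
  ext i j
  fin_cases i <;> fin_cases j <;> rfl

lemma IsSp.rel {M : Matrix (Fin 4) (Fin 4) ℂ} (h : IsSp M) :
    M 3 3 = - M 0 0 ∧ M 2 2 = - M 1 1 ∧ M 2 3 = M 0 1 ∧ M 3 2 = M 1 0 ∧ M 1 3 = - M 0 2 ∧
      M 3 1 = - M 2 0 := by
  unfold IsSp at h
  have e : ∀ i j, (M.transpose * GG + GG * M) i j = 0 := fun i j => by rw [h]; rfl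
  simp only [Matrix.mul_apply, Fin.sum_univ_four, Matrix.add_apply, Matrix.transpose_apply] at e
  have e03 := e 0 3
  have e12 := e 1 2
  have e13 := e 1 3
  have e02 := e 0 2
  have e23 := e 2 3
  have e01 := e 0 1
  simp [GG] at e03 e12 e13 e02 e23 e01
  refine ⟨?_, ?_, ?_, ?_, ?_, ?_⟩
  · linear_combination e03
  · linear_combination -e12
  · linear_combination -e13
  · linear_combination e02
  · linear_combination e23
  · linear_combination e01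

/-- matrices of weight `w` -/
lemma HasWt.rel {M : Matrix (Fin 4) (Fin 4) ℂ} {w : ℂ} (h : HasWt M w) :
    (-w) * M 0 0 = 0 ∧ (2 - w) * M 0 1 = 0 ∧ (4 - w) * M 0 2 = 0 ∧ (6 - w) * M 0 3 = 0 ∧
    (-2 - w) * M 1 0 = 0 ∧ (-w) * M 1 1 = 0 ∧ (2 - w) * M 1 2 = 0 ∧ (4 - w) * M 1 3 = 0 ∧
    (-4 - w) * M 2 0 = 0 ∧ (-2 - w) * M 2 1 = 0 ∧ (-w) * M 2 2 = 0 ∧ (2 - w) * M 2 3 = 0 ∧
    (-6 - w) * M 3 0 = 0 ∧ (-4 - w) * M 3 1 = 0 ∧ (-2 - w) * M 3 2 = 0 ∧ (-w) * M 3 3 = 0 := by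
  unfold HasWt at h
  have e : ∀ i j, (HH * M - M * HH) i j = (w • M) i j := fun i j => by rw [h]
  simp only [Matrix.mul_apply, Fin.sum_univ_four, Matrix.sub_apply, Matrix.smul_apply,
    smul_eq_mul] at e
  have e00 := e 0 0
  have e01 := e 0 1
  have e02 := e 0 2
  have e03 := e 0 3
  have e10 := e 1 0
  have e11 := e 1 1
  have e12 := e 1 2
  have e13 := e 1 3
  have e20 := e 2 0
  have e21 := e 2 1
  have e22 := e 2 2
  have e23 := e 2 3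
  have e30 := e 3 0
  have e31 := e 3 1
  have e32 := e 3 2
  have e33 := e 3 3
  simp [HH] at e00 e01 e02 e03 e10 e11 e12 e13 e20 e21 e22 e23 e30 e31 e32 e33
  refine ⟨?_, ?_, ?_, ?_, ?_, ?_, ?_, ?_, ?_, ?_, ?_, ?_, ?_, ?_, ?_, ?_⟩
  · linear_combination e00
  · linear_combination e01
  · linear_combination e02
  · linear_combination e03
  · linear_combination e10
  · rcases e11 with h | h <;> rw [h] <;> ring
  · linear_combination e12
  · linear_combination e13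
  · linear_combination e20
  · linear_combination e21
  · rcases e22 with h | h <;> rw [h] <;> ring
  · linear_combination e23
  · linear_combination e30
  · linear_combination e31
  · linear_combination e32
  · linear_combination e33

/-- a matrix is determined by its entries -/
lemma mat_ext {M N : Matrix (Fin 4) (Fin 4) ℂ} (h00 : M 0 0 = N 0 0) (h01 : M 0 1 = N 0 1)
    (h02 : M 0 2 = N 0 2) (h03 : M 0 3 = N 0 3) (h10 : M 1 0 = N 1 0) (h11 : M 1 1 = N 1 1)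
    (h12 : M 1 2 = N 1 2) (h13 : M 1 3 = N 1 3) (h20 : M 2 0 = N 2 0) (h21 : M 2 1 = N 2 1)
    (h22 : M 2 2 = N 2 2) (h23 : M 2 3 = N 2 3) (h30 : M 3 0 = N 3 0) (h31 : M 3 1 = N 3 1)
    (h32 : M 3 2 = N 3 2) (h33 : M 3 3 = N 3 3) : M = N := by
  ext i j
  fin_cases i <;> fin_cases j <;> assumption

/-- weight `6` -/
lemma wt6 {M : Matrix (Fin 4) (Fin 4) ℂ} (hw : HasWt M 6) :
    M = !![0, 0, 0, M 0 3; 0, 0, 0, 0; 0, 0, 0, 0; 0, 0, 0, 0] := by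
  obtain ⟨h00, h01, h02, -, h10, h11, h12, h13, h20, h21, h22, h23, h30, h31, h32, h33⟩ := hw.rel
  refine mat_ext ?_ ?_ ?_ rfl ?_ ?_ ?_ ?_ ?_ ?_ ?_ ?_ ?_ ?_ ?_ ?_ <;> simp <;>
    first
      | exact (mul_eq_zero.mp h00).resolve_left (by norm_num)
      | exact (mul_eq_zero.mp h01).resolve_left (by norm_num)
      | exact (mul_eq_zero.mp h02).resolve_left (by norm_num)
      | exact (mul_eq_zero.mp h10).resolve_left (by norm_num)
      | exact (mul_eq_zero.mp h11).resolve_left (by norm_num)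
      | exact (mul_eq_zero.mp h12).resolve_left (by norm_num)
      | exact (mul_eq_zero.mp h13).resolve_left (by norm_num)
      | exact (mul_eq_zero.mp h20).resolve_left (by norm_num)
      | exact (mul_eq_zero.mp h21).resolve_left (by norm_num)
      | exact (mul_eq_zero.mp h22).resolve_left (by norm_num)
      | exact (mul_eq_zero.mp h23).resolve_left (by norm_num)
      | exact (mul_eq_zero.mp h30).resolve_left (by norm_num)
      | exact (mul_eq_zero.mp h31).resolve_left (by norm_num)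
      | exact (mul_eq_zero.mp h32).resolve_left (by norm_num)
      | exact (mul_eq_zero.mp h33).resolve_left (by norm_num)

/-- weight `4` -/
lemma wt4' {M : Matrix (Fin 4) (Fin 4) ℂ} (hs : IsSp M) (hw : HasWt M 4) :
    M = !![0, 0, M 0 2, 0; 0, 0, 0, -M 0 2; 0, 0, 0, 0; 0, 0, 0, 0] := by
  obtain ⟨h00, h01, -, h03, h10, h11, h12, -, h20, h21, h22, h23, h30, h31, h32, h33⟩ := hw.rel
  obtain ⟨-, -, -, -, s13, -⟩ := hs.rel
  refine mat_ext ?_ ?_ rfl ?_ ?_ ?_ ?_ ?_ ?_ ?_ ?_ ?_ ?_ ?_ ?_ ?_ <;> simp <;>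
    first
      | exact s13
      | exact (mul_eq_zero.mp h00).resolve_left (by norm_num)
      | exact (mul_eq_zero.mp h01).resolve_left (by norm_num)
      | exact (mul_eq_zero.mp h03).resolve_left (by norm_num)
      | exact (mul_eq_zero.mp h10).resolve_left (by norm_num)
      | exact (mul_eq_zero.mp h11).resolve_left (by norm_num)
      | exact (mul_eq_zero.mp h12).resolve_left (by norm_num)
      | exact (mul_eq_zero.mp h20).resolve_left (by norm_num)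
      | exact (mul_eq_zero.mp h21).resolve_left (by norm_num)
      | exact (mul_eq_zero.mp h22).resolve_left (by norm_num)
      | exact (mul_eq_zero.mp h23).resolve_left (by norm_num)
      | exact (mul_eq_zero.mp h30).resolve_left (by norm_num)
      | exact (mul_eq_zero.mp h31).resolve_left (by norm_num)
      | exact (mul_eq_zero.mp h32).resolve_left (by norm_num)
      | exact (mul_eq_zero.mp h33).resolve_left (by norm_num)

/-- weight `2` -/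
lemma wt2' {M : Matrix (Fin 4) (Fin 4) ℂ} (hs : IsSp M) (hw : HasWt M 2) :
    M = !![0, M 0 1, 0, 0; 0, 0, M 1 2, 0; 0, 0, 0, M 0 1; 0, 0, 0, 0] := by
  obtain ⟨h00, -, h02, h03, h10, h11, -, h13, h20, h21, h22, -, h30, h31, h32, h33⟩ := hw.rel
  obtain ⟨-, -, s23, -, -, -⟩ := hs.rel
  refine mat_ext ?_ rfl ?_ ?_ ?_ ?_ rfl ?_ ?_ ?_ ?_ ?_ ?_ ?_ ?_ ?_ <;> simp <;>
    first
      | exact s23
      | exact (mul_eq_zero.mp h00).resolve_left (by norm_num)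
      | exact (mul_eq_zero.mp h02).resolve_left (by norm_num)
      | exact (mul_eq_zero.mp h03).resolve_left (by norm_num)
      | exact (mul_eq_zero.mp h10).resolve_left (by norm_num)
      | exact (mul_eq_zero.mp h11).resolve_left (by norm_num)
      | exact (mul_eq_zero.mp h13).resolve_left (by norm_num)
      | exact (mul_eq_zero.mp h20).resolve_left (by norm_num)
      | exact (mul_eq_zero.mp h21).resolve_left (by norm_num)
      | exact (mul_eq_zero.mp h22).resolve_left (by norm_num)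
      | exact (mul_eq_zero.mp h30).resolve_left (by norm_num)
      | exact (mul_eq_zero.mp h31).resolve_left (by norm_num)
      | exact (mul_eq_zero.mp h32).resolve_left (by norm_num)
      | exact (mul_eq_zero.mp h33).resolve_left (by norm_num)

/-- weights larger than `6` -/
lemma wt_big {M : Matrix (Fin 4) (Fin 4) ℂ} {n : ℕ} (hn : 3 < n) (hw : HasWt M (2 * n)) :
    M = 0 := by
  obtain ⟨h00, h01, h02, h03, h10, h11, h12, h13, h20, h21, h22, h23, h30, h31, h32, h33⟩ := hw.rel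
  have key : ∀ (k : ℤ) (x : ℂ), k < 4 → ((2 * k : ℤ) - 2 * (n : ℂ)) * x = 0 → x = 0 := by
    intro k x hk h
    refine (mul_eq_zero.mp h).resolve_left fun h0 => ?_
    have h1 : ((2 * k - 2 * n : ℤ) : ℂ) = 0 := by push_cast; push_cast at h0; exact h0
    have h2 : (2 * k - 2 * n : ℤ) = 0 := by exact_mod_cast h1
    omega
  refine mat_ext ?_ ?_ ?_ ?_ ?_ ?_ ?_ ?_ ?_ ?_ ?_ ?_ ?_ ?_ ?_ ?_
  · exact key 0 _ (by norm_num) (by push_cast; linear_combination h00)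
  · exact key 1 _ (by norm_num) (by push_cast; linear_combination h01)
  · exact key 2 _ (by norm_num) (by push_cast; linear_combination h02)
  · exact key 3 _ (by norm_num) (by push_cast; linear_combination h03)
  · exact key (-1) _ (by norm_num) (by push_cast; linear_combination h10)
  · exact key 0 _ (by norm_num) (by push_cast; linear_combination h11)
  · exact key 1 _ (by norm_num) (by push_cast; linear_combination h12)
  · exact key 2 _ (by norm_num) (by push_cast; linear_combination h13)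
  · exact key (-2) _ (by norm_num) (by push_cast; linear_combination h20)
  · exact key (-1) _ (by norm_num) (by push_cast; linear_combination h21)
  · exact key 0 _ (by norm_num) (by push_cast; linear_combination h22)
  · exact key 1 _ (by norm_num) (by push_cast; linear_combination h23)
  · exact key (-3) _ (by norm_num) (by push_cast; linear_combination h30)
  · exact key (-2) _ (by norm_num) (by push_cast; linear_combination h31)
  · exact key (-1) _ (by norm_num) (by push_cast; linear_combination h32)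
  · exact key 0 _ (by norm_num) (by push_cast; linear_combination h33)

/-- symplectic matrices commuting with `EE`, of weight different from `2` and `6`, vanish -/
lemma comm_zero {M : Matrix (Fin 4) (Fin 4) ℂ} (hs : IsSp M) {w : ℂ} (hw : HasWt M w)
    (hw2 : w ≠ 2) (hw6 : w ≠ 6) (hc : EE * M - M * EE = 0) : M = 0 := by
  obtain ⟨w00, w01, w02, w03, w10, w11, w12, w13, w20, w21, w22, w23, w30, w31, w32, w33⟩ := hw.rel
  obtain ⟨s33, s22, s23, s32, s13, s31⟩ := hs.rel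
  have e : ∀ i j, (EE * M - M * EE) i j = 0 := fun i j => by rw [hc]; rfl
  simp only [Matrix.mul_apply, Fin.sum_univ_four, Matrix.sub_apply] at e
  have e00 := e 0 0
  have e01 := e 0 1
  have e02 := e 0 2
  have e03 := e 0 3
  have e10 := e 1 0
  have e11 := e 1 1
  have e12 := e 1 2
  have e20 := e 2 0
  have e21 := e 2 1
  have e13 := e 1 3
  simp [EE] at e00 e01 e02 e03 e10 e11 e12 e20 e21 e13
  have h01 : M 0 1 = 0 := (mul_eq_zero.mp w01).resolve_left fun h => hw2 (by linear_combination -h)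
  have h12 : M 1 2 = 0 := (mul_eq_zero.mp w12).resolve_left fun h => hw2 (by linear_combination -h)
  have h03 : M 0 3 = 0 := (mul_eq_zero.mp w03).resolve_left fun h => hw6 (by linear_combination -h)
  have h11 : M 1 1 = 0 := by linear_combination (-1 / 8 : ℂ) * e12 + (1 / 2 : ℂ) * s22
  have h02 : M 0 2 = 0 := by linear_combination (-1 / 6 : ℂ) * e03 + (1 / 2 : ℂ) * s13
  refine mat_ext ?_ h01 h02 h03 e00 h11 h12 ?_ e10 ?_ ?_ ?_ e20 ?_ ?_ ?_ <;>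
    rw [Matrix.zero_apply]
  · linear_combination (-1 / 3 : ℂ) * e01 + h11
  · rw [s13, h02, neg_zero]
  · linear_combination (1 / 4 : ℂ) * e11 + (3 / 4 : ℂ) * e00
  · rw [s22, h11, neg_zero]
  · rw [s23, h01]
  · rw [s31, e10, neg_zero]
  · rw [s32, e00]
  · linear_combination s33 - ((-1 / 3 : ℂ) * e01 + h11)

/-- brackets with `FF` -/
lemma brF3 (a : ℂ) : FF * (FF * (FF * !![0, 0, 0, a; 0, 0, 0, 0; 0, 0, 0, 0; 0, 0, 0, 0] -
    !![0, 0, 0, a; 0, 0, 0, 0; 0, 0, 0, 0; 0, 0, 0, 0] * FF) -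
    (FF * !![0, 0, 0, a; 0, 0, 0, 0; 0, 0, 0, 0; 0, 0, 0, 0] -
    !![0, 0, 0, a; 0, 0, 0, 0; 0, 0, 0, 0; 0, 0, 0, 0] * FF) * FF) -
    (FF * (FF * !![0, 0, 0, a; 0, 0, 0, 0; 0, 0, 0, 0; 0, 0, 0, 0] -
    !![0, 0, 0, a; 0, 0, 0, 0; 0, 0, 0, 0; 0, 0, 0, 0] * FF) -
    (FF * !![0, 0, 0, a; 0, 0, 0, 0; 0, 0, 0, 0; 0, 0, 0, 0] -
    !![0, 0, 0, a; 0, 0, 0, 0; 0, 0, 0, 0; 0, 0, 0, 0] * FF) * FF) * FF =
    !![-a, 0, 0, 0; 0, 3 * a, 0, 0; 0, 0, -3 * a, 0; 0, 0, 0, a] := by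
  refine mat_ext ?_ ?_ ?_ ?_ ?_ ?_ ?_ ?_ ?_ ?_ ?_ ?_ ?_ ?_ ?_ ?_ <;>
    (simp only [Matrix.mul_apply, Fin.sum_univ_four, Matrix.sub_apply]; simp [FF] <;> ring)

lemma brF3' (a : ℂ) : FF * (FF * (FF * !![-a, 0, 0, 0; 0, 3 * a, 0, 0; 0, 0, -3 * a, 0; 0, 0, 0, a]
    - !![-a, 0, 0, 0; 0, 3 * a, 0, 0; 0, 0, -3 * a, 0; 0, 0, 0, a] * FF) -
    (FF * !![-a, 0, 0, 0; 0, 3 * a, 0, 0; 0, 0, -3 * a, 0; 0, 0, 0, a] -
    !![-a, 0, 0, 0; 0, 3 * a, 0, 0; 0, 0, -3 * a, 0; 0, 0, 0, a] * FF) * FF) -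
    (FF * (FF * !![-a, 0, 0, 0; 0, 3 * a, 0, 0; 0, 0, -3 * a, 0; 0, 0, 0, a] -
    !![-a, 0, 0, 0; 0, 3 * a, 0, 0; 0, 0, -3 * a, 0; 0, 0, 0, a] * FF) -
    (FF * !![-a, 0, 0, 0; 0, 3 * a, 0, 0; 0, 0, -3 * a, 0; 0, 0, 0, a] -
    !![-a, 0, 0, 0; 0, 3 * a, 0, 0; 0, 0, -3 * a, 0; 0, 0, 0, a] * FF) * FF) * FF =
    !![0, 0, 0, 0; 0, 0, 0, 0; 0, 0, 0, 0; -20 * a, 0, 0, 0] := by
  refine mat_ext ?_ ?_ ?_ ?_ ?_ ?_ ?_ ?_ ?_ ?_ ?_ ?_ ?_ ?_ ?_ ?_ <;>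
    (simp only [Matrix.mul_apply, Fin.sum_univ_four, Matrix.sub_apply]; simp [FF] <;> ring)

lemma brxy (a b : ℂ) : !![0, 0, 0, a; 0, 0, 0, 0; 0, 0, 0, 0; 0, 0, 0, 0] *
    !![0, 0, 0, 0; 0, 0, 0, 0; 0, 0, 0, 0; b, 0, 0, 0] -
    !![0, 0, 0, 0; 0, 0, 0, 0; 0, 0, 0, 0; b, 0, 0, 0] *
    !![0, 0, 0, a; 0, 0, 0, 0; 0, 0, 0, 0; 0, 0, 0, 0] =
    (!![a * b, 0, 0, 0; 0, 0, 0, 0; 0, 0, 0, 0; 0, 0, 0, -(a * b)] :
      Matrix (Fin 4) (Fin 4) ℂ) := by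
  refine mat_ext ?_ ?_ ?_ ?_ ?_ ?_ ?_ ?_ ?_ ?_ ?_ ?_ ?_ ?_ ?_ ?_ <;>
    simp only [Matrix.mul_apply, Fin.sum_univ_four, Matrix.sub_apply] <;> simp <;> ring

/-- double bracket with `EE` in weight two -/
lemma brE2 (s t : ℂ) : EE * (EE * !![0, s, 0, 0; 0, 0, t, 0; 0, 0, 0, s; 0, 0, 0, 0] -
    !![0, s, 0, 0; 0, 0, t, 0; 0, 0, 0, s; 0, 0, 0, 0] * EE) -
    (EE * !![0, s, 0, 0; 0, 0, t, 0; 0, 0, 0, s; 0, 0, 0, 0] -
    !![0, s, 0, 0; 0, 0, t, 0; 0, 0, 0, s; 0, 0, 0, 0] * EE) * EE =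
    !![0, 0, 0, -6 * (3 * t - 4 * s); 0, 0, 0, 0; 0, 0, 0, 0; 0, 0, 0, 0] := by
  refine mat_ext ?_ ?_ ?_ ?_ ?_ ?_ ?_ ?_ ?_ ?_ ?_ ?_ ?_ ?_ ?_ ?_ <;>
    simp only [Matrix.mul_apply, Fin.sum_univ_four, Matrix.sub_apply] <;> simp [EE] <;> ring

/-- double bracket with `FF` in weight six -/
lemma brF2 (a : ℂ) : FF * (FF * !![0, 0, 0, a; 0, 0, 0, 0; 0, 0, 0, 0; 0, 0, 0, 0] -
    !![0, 0, 0, a; 0, 0, 0, 0; 0, 0, 0, 0; 0, 0, 0, 0] * FF) -
    (FF * !![0, 0, 0, a; 0, 0, 0, 0; 0, 0, 0, 0; 0, 0, 0, 0] -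
    !![0, 0, 0, a; 0, 0, 0, 0; 0, 0, 0, 0; 0, 0, 0, 0] * FF) * FF =
    !![0, a, 0, 0; 0, 0, -2 * a, 0; 0, 0, 0, a; 0, 0, 0, 0] := by
  refine mat_ext ?_ ?_ ?_ ?_ ?_ ?_ ?_ ?_ ?_ ?_ ?_ ?_ ?_ ?_ ?_ ?_ <;>
    (simp only [Matrix.mul_apply, Fin.sum_univ_four, Matrix.sub_apply]; simp [FF] <;> ring)

section main

variable {L : Type*} [LieRing L] [LieAlgebra ℂ L] (p : Principal L)
  (A B : L →ₗ[ℂ] Matrix (Fin 4) (Fin 4) ℂ)
  (hA : ∀ x y, A ⁅x, y⁆ = A x * A y - A y * A x) (hB : ∀ x y, B ⁅x, y⁆ = B x * B y - B y * B x)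
  (Ae : A p.e = EE) (Af : A p.f = FF) (Ah : A p.h = HH)
  (Be : B p.e = EE) (Bf : B p.f = FF) (Bh : B p.h = HH)
  (sA : ∀ x, IsSp (A x)) (sB : ∀ x, IsSp (B x)) (hk : ∀ x, A x = 0 → B x = 0)
  (hk' : ∀ x, B x = 0 → A x = 0)

lemma hasWt {A : L →ₗ[ℂ] Matrix (Fin 4) (Fin 4) ℂ}
    (hA : ∀ x y, A ⁅x, y⁆ = A x * A y - A y * A x) (Ah : A p.h = HH) {x : L} {w : ℂ}
    (hx : ⁅p.h, x⁆ = w • x) : HasWt (A x) w := by
  unfold HasWt
  rw [← Ah, ← hA, hx, map_smul]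

include hA hB Ae Af Ah Be Bf Bh sA sB hk hk' in
lemma step6 {x : L} (hx : ⁅p.h, x⁆ = (6 : ℂ) • x) : A x = B x := by
  have a6 := wt6 (hasWt p hA Ah hx)
  have b6 := wt6 (hasWt p hB Bh hx)
  obtain ⟨a, ha⟩ : ∃ a, a = A x 0 3 := ⟨_, rfl⟩
  obtain ⟨b, hb⟩ : ∃ b, b = B x 0 3 := ⟨_, rfl⟩
  rw [← ha] at a6
  rw [← hb] at b6
  by_cases ha0 : a = 0
  · have h1 : A x = 0 := by
      rw [a6, ha0]
      refine mat_ext ?_ ?_ ?_ ?_ ?_ ?_ ?_ ?_ ?_ ?_ ?_ ?_ ?_ ?_ ?_ ?_ <;> simp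
    rw [h1, hk x h1]
  · obtain ⟨z, hz⟩ : ∃ z, z = ⁅p.f, ⁅p.f, ⁅p.f, x⁆⁆⁆ := ⟨_, rfl⟩
    obtain ⟨y, hy⟩ : ∃ y, y = ⁅p.f, ⁅p.f, ⁅p.f, z⁆⁆⁆ := ⟨_, rfl⟩
    have Az : A z = !![-a, 0, 0, 0; 0, 3 * a, 0, 0; 0, 0, -3 * a, 0; 0, 0, 0, a] := by
      rw [hz, hA, hA, hA, Af, a6, brF3]
    have Bz : B z = !![-b, 0, 0, 0; 0, 3 * b, 0, 0; 0, 0, -3 * b, 0; 0, 0, 0, b] := by
      rw [hz, hB, hB, hB, Bf, b6, brF3]
    have Ay : A y = !![0, 0, 0, 0; 0, 0, 0, 0; 0, 0, 0, 0; -20 * a, 0, 0, 0] := by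
      rw [hy, hA, hA, hA, Af, Az, brF3']
    have By : B y = !![0, 0, 0, 0; 0, 0, 0, 0; 0, 0, 0, 0; -20 * b, 0, 0, 0] := by
      rw [hy, hB, hB, hB, Bf, Bz, brF3']
    have h1 : A (⁅x, y⁆ + (6 * a ^ 2) • p.h - (2 * a) • z) = 0 := by
      rw [map_sub, map_add, map_smul, map_smul, hA, Ah, Az, Ay, a6, brxy]
      refine mat_ext ?_ ?_ ?_ ?_ ?_ ?_ ?_ ?_ ?_ ?_ ?_ ?_ ?_ ?_ ?_ ?_ <;> simp [HH] <;> ring
    have h2 := hk _ h1
    rw [map_sub, map_add, map_smul, map_smul, hB, Bh, Bz, By, b6, brxy] at h2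
    have h3 := congrFun (congrFun h2 1) 1
    simp [HH] at h3
    have h4 : a * (a - b) = 0 := by linear_combination (1 / 6 : ℂ) * h3
    have h5 := (mul_eq_zero.mp h4).resolve_left ha0
    rw [a6, b6, sub_eq_zero.mp h5]

lemma wt_e {x : L} {w : ℂ} (hx : ⁅p.h, x⁆ = w • x) : ⁅p.h, ⁅p.e, x⁆⁆ = (w + 2) • ⁅p.e, x⁆ := by
  rw [leibniz_lie, p.he, hx, smul_lie, lie_smul, ← add_smul, add_comm]

include hA hB Ae Ah Be Bh sA sB in
lemma step_e {x : L} {w : ℂ} (hx : ⁅p.h, x⁆ = w • x) (h2 : w ≠ 2) (h6 : w ≠ 6)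
    (he : A ⁅p.e, x⁆ = B ⁅p.e, x⁆) : A x = B x := by
  rw [← sub_eq_zero]
  have hwA := hasWt p hA Ah hx
  have hwB := hasWt p hB Bh hx
  refine comm_zero (M := A x - B x) (w := w) ?_ ?_ h2 h6 ?_
  · have h3 := sA x
    have h4 := sB x
    unfold IsSp at h3 h4 ⊢
    rw [Matrix.transpose_sub, sub_mul, mul_sub]
    rw [show (A x).transpose * GG - (B x).transpose * GG + (GG * A x - GG * B x) =
      ((A x).transpose * GG + GG * A x) - ((B x).transpose * GG + GG * B x) by abel, h3, h4,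
      sub_zero]
  · unfold HasWt at hwA hwB ⊢
    rw [mul_sub, sub_mul, smul_sub, ← hwA, ← hwB]; abel
  · rw [hA, hB, Ae, Be] at he
    rw [mul_sub, sub_mul]
    rw [show EE * A x - EE * B x - (A x * EE - B x * EE) =
      (EE * A x - A x * EE) - (EE * B x - B x * EE) by abel, he, sub_self]

include hA hB Ae Af Ah Be Bf Bh sA sB hk hk' in
lemma step2 {x : L} (hx : ⁅p.h, x⁆ = (2 : ℂ) • x) : A x = B x := by
  have a2 := wt2' (sA x) (hasWt p hA Ah hx)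
  obtain ⟨s, hs⟩ : ∃ s, s = A x 0 1 := ⟨_, rfl⟩
  obtain ⟨t, ht⟩ : ∃ t, t = A x 1 2 := ⟨_, rfl⟩
  rw [← hs, ← ht] at a2
  have hx4 : ⁅p.h, ⁅p.e, ⁅p.e, x⁆⁆⁆ = (6 : ℂ) • ⁅p.e, ⁅p.e, x⁆⁆ := by
    rw [wt_e p (wt_e p hx)]; norm_num
  have h6 := step6 p A B hA hB Ae Af Ah Be Bf Bh sA sB hk hk' hx4
  have A4 : A ⁅p.e, ⁅p.e, x⁆⁆ =
      !![0, 0, 0, -6 * (3 * t - 4 * s); 0, 0, 0, 0; 0, 0, 0, 0; 0, 0, 0, 0] := by
    rw [hA, hA, Ae, a2, brE2]
  have A2 : A ⁅p.f, ⁅p.f, ⁅p.e, ⁅p.e, x⁆⁆⁆⁆ = !![0, -6 * (3 * t - 4 * s), 0, 0;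
      0, 0, -2 * (-6 * (3 * t - 4 * s)), 0; 0, 0, 0, -6 * (3 * t - 4 * s); 0, 0, 0, 0] := by
    rw [hA, hA, Af, A4, brF2]
  have B2 : B ⁅p.f, ⁅p.f, ⁅p.e, ⁅p.e, x⁆⁆⁆⁆ = !![0, -6 * (3 * t - 4 * s), 0, 0;
      0, 0, -2 * (-6 * (3 * t - 4 * s)), 0; 0, 0, 0, -6 * (3 * t - 4 * s); 0, 0, 0, 0] := by
    rw [hB p.f, hB p.f, Bf, ← h6, A4, brF2]
  have h1 : A (x - (1 / 60 : ℂ) • ⁅p.f, ⁅p.f, ⁅p.e, ⁅p.e, x⁆⁆⁆⁆ -
      ((6 * s + 3 * t) / 30) • p.e) = 0 := by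
    rw [map_sub, map_sub, map_smul, map_smul, Ae, A2, a2]
    refine mat_ext ?_ ?_ ?_ ?_ ?_ ?_ ?_ ?_ ?_ ?_ ?_ ?_ ?_ ?_ ?_ ?_ <;> simp [EE] <;> ring
  have h2 := hk _ h1
  rw [map_sub, map_sub, map_smul, map_smul, sub_sub, sub_eq_zero] at h1 h2
  rw [h1, h2, Ae, A2, Be, B2]

include hA hB Ae Af Ah Be Bf Bh sA sB hk hk' in
lemma step_neg (n : ℕ) : ∀ x : L, ⁅p.h, x⁆ = (-2 * n : ℂ) • x → A x = B x := by
  induction n with
  | zero =>
    intro x hx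
    refine step_e p A B hA hB Ae Ah Be Bh sA sB hx (by norm_num) (by norm_num) ?_
    refine step2 p A B hA hB Ae Af Ah Be Bf Bh sA sB hk hk' ?_
    rw [wt_e p hx]; norm_num
  | succ n ih =>
    intro x hx
    have hne : ∀ k : ℤ, 0 < k → (-2 * ((n + 1 : ℕ) : ℂ)) ≠ k := by
      intro k hk h
      have h1 : ((-2 * ((n : ℤ) + 1) : ℤ) : ℂ) = (k : ℤ) := by push_cast; push_cast at h; exact h
      have h2 : (-2 * ((n : ℤ) + 1) : ℤ) = k := by exact_mod_cast h1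
      omega
    refine step_e p A B hA hB Ae Ah Be Bh sA sB hx ?_ ?_ ?_
    · have := hne 2 (by norm_num)
      simpa using this
    · have := hne 6 (by norm_num)
      simpa using this
    · apply ih
      rw [wt_e p hx]
      congr 1
      push_cast
      ring

include hA hB Ae Af Ah Be Bf Bh sA sB hk hk' in
lemma step_pos (n : ℕ) : ∀ x : L, ⁅p.h, x⁆ = (2 * (n + 1) : ℂ) • x → A x = B x := by
  intro x hx
  rcases Nat.lt_or_ge 2 n with h | h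
  · have a0 := wt_big (M := A x) (n := n + 1) (by omega) (by
      have := hasWt p hA Ah hx
      push_cast
      exact this)
    have b0 := wt_big (M := B x) (n := n + 1) (by omega) (by
      have := hasWt p hB Bh hx
      push_cast
      exact this)
    rw [a0, b0]
  · interval_cases n
    · refine step2 p A B hA hB Ae Af Ah Be Bf Bh sA sB hk hk' ?_
      rw [hx]; norm_num
    · refine step_e p A B hA hB Ae Ah Be Bh sA sB hx (by norm_num) (by norm_num) ?_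
      refine step6 p A B hA hB Ae Af Ah Be Bf Bh sA sB hk hk' ?_
      rw [wt_e p hx]; norm_num
    · refine step6 p A B hA hB Ae Af Ah Be Bf Bh sA sB hk hk' ?_
      rw [hx]; norm_num

include hA hB Ae Af Ah Be Bf Bh sA sB hk hk' in
/-- the two homomorphisms agree -/
theorem hom_eq (x : L) : A x = B x := by
  have hpos : Submodule.span ℂ {y : L | ∃ n : ℕ, ⁅p.h, y⁆ = (2 * (n + 1) : ℂ) • y} ≤
      LinearMap.eqLocus A B := by
    rw [Submodule.span_le]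
    rintro y ⟨n, hn⟩
    exact step_pos p A B hA hB Ae Af Ah Be Bf Bh sA sB hk hk' n y hn
  have hneg : Submodule.span ℂ {y : L | ∃ n : ℕ, ⁅p.h, y⁆ = (-2 * (n + 1) : ℂ) • y} ≤
      LinearMap.eqLocus A B := by
    rw [Submodule.span_le]
    rintro y ⟨n, hn⟩
    refine step_neg p A B hA hB Ae Af Ah Be Bf Bh sA sB hk hk' (n + 1) y ?_
    rw [hn]; push_cast; rfl
  have hZ : p.Z ≤ LinearMap.eqLocus A B := by
    intro y hy
    refine step_neg p A B hA hB Ae Af Ah Be Bf Bh sA sB hk hk' 0 y ?_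
    rw [p.ab _ p.hZ _ hy]
    simp
  exact (sup_le (sup_le hZ hpos) hneg) (p.dec x)

end main

end Pool.Agent.Helper84.Iso
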