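import Pool.Agent.Helper8.Lie.Classify
import Pool.Agent.Helper8.Lie.Coord
import Pool.Agent.Helper84.Iso4Mat

/-!
Irreducible symplectic modules of dimension `2` or `4` with the same kernel are isomorphic.
-/

open Module LieAlgebra LieModule

set_option linter.unusedVariables false
set_option linter.unusedSectionVars false
set_option linter.unusedSimpArgs false

namespace Pool.Agent.Helper84

open Pool.Agent.Helper8 Iso

section mat

variable {L : Type*} [LieRing L] [LieAlgebra ℂ L] {p : Principal L} {V : Type*} [AddCommGroup V]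
  [Module ℂ V] [LieRingModule L V] [LieModule ℂ L V]

/-- the matrices of the elements of the Lie algebra -/
noncomputable def mat {d : ℕ} (b : Basis (Fin d) ℂ V) : L →ₗ[ℂ] Matrix (Fin d) (Fin d) ℂ :=
  (LinearMap.toMatrix b b).toLinearMap ∘ₗ (toEnd ℂ L V : L →ₗ[ℂ] Module.End ℂ V)

lemma mat_apply {d : ℕ} (b : Basis (Fin d) ℂ V) (x : L) (i j : Fin d) :
    mat b x i j = b.repr ⁅x, b j⁆ i := LinearMap.toMatrix_apply b b _ i j

lemma mat_lie {d : ℕ} (b : Basis (Fin d) ℂ V) (x y : L) :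
    mat b ⁅x, y⁆ = mat b x * mat b y - mat b y * mat b x := by
  show LinearMap.toMatrix b b (toEnd ℂ L V ⁅x, y⁆) = LinearMap.toMatrix b b (toEnd ℂ L V x) *
    LinearMap.toMatrix b b (toEnd ℂ L V y) - LinearMap.toMatrix b b (toEnd ℂ L V y) *
    LinearMap.toMatrix b b (toEnd ℂ L V x)
  have h1 : toEnd ℂ L V ⁅x, y⁆ = toEnd ℂ L V x * toEnd ℂ L V y - toEnd ℂ L V y * toEnd ℂ L V x :=
    LinearMap.ext fun v => lie_lie x y v
  rw [h1, map_sub, LinearMap.toMatrix_mul, LinearMap.toMatrix_mul]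

lemma mat_sum {d : ℕ} (b : Basis (Fin d) ℂ V) (x : L) (j : Fin d) :
    ⁅x, b j⁆ = ∑ i, mat b x i j • b i := by
  conv_lhs => rw [← b.sum_repr ⁅x, b j⁆]
  simp only [mat_apply]

lemma mat_eq_zero {d : ℕ} (b : Basis (Fin d) ℂ V) (x : L) : mat b x = 0 ↔ ∀ v : V, ⁅x, v⁆ = 0 := by
  constructor
  · intro h v
    have h1 : toEnd ℂ L V x = 0 := by
      apply (LinearMap.toMatrix b b).injective
      rw [map_zero]
      exact h
    have h2 := LinearMap.congr_fun h1 v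
    exact h2
  · intro h
    ext i j
    rw [mat_apply, h, map_zero]
    rfl

/-- equality of the matrices gives an equivariant isomorphism -/
lemma exists_beta {W : Type*} [AddCommGroup W] [Module ℂ W] [LieRingModule L W] [LieModule ℂ L W]
    {ω' : W →ₗ[ℂ] W →ₗ[ℂ] ℂ} (hω' : Symp L ω') {d : ℕ} [NeZero d] (b : Basis (Fin d) ℂ V)
    (b' : Basis (Fin d) ℂ W) (h : ∀ x : L, mat b x = mat b' x) :
    ∃ β : V → W → ℂ, ML2 β ∧ Inv2 L β ∧ ∃ x y, β x y ≠ 0 := by
  let T : V ≃ₗ[ℂ] W := b.equiv b' (Equiv.refl _)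
  have hTb : ∀ j, T (b j) = b' j := fun j => by
    rw [Basis.equiv_apply]; rfl
  have hT : ∀ (x : L) (v : V), T ⁅x, v⁆ = ⁅x, T v⁆ := by
    intro x v
    have h1 : T.toLinearMap ∘ₗ toEnd ℂ L V x = toEnd ℂ L W x ∘ₗ T.toLinearMap := by
      apply b.ext
      intro j
      show T ⁅x, b j⁆ = ⁅x, T (b j)⁆
      rw [hTb, mat_sum, mat_sum, map_sum, h x]
      refine Finset.sum_congr rfl fun i _ => ?_
      rw [map_smul, hTb]
    exact LinearMap.congr_fun h1 v
  refine ⟨fun v w => ω' (T v) w, ?_, ?_, ?_⟩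
  · exact ML2.of (ω' ∘ₗ T.toLinearMap)
  · intro a x y
    show ω' (T ⁅a, x⁆) y + ω' (T x) ⁅a, y⁆ = 0
    rw [hT, hω'.inv]; ring
  · have h0 : T (b 0) ≠ 0 := by
      rw [hTb]; exact b'.ne_zero 0
    by_contra hcon
    push Not at hcon
    exact h0 (hω'.nd _ fun y => hcon _ y)

end mat

section four

variable {L : Type*} [LieRing L] [LieAlgebra ℂ L] (p : Principal L) {V : Type*} [AddCommGroup V]
  [Module ℂ V] [LieRingModule L V] [LieModule ℂ L V] {ω : V →ₗ[ℂ] V →ₗ[ℂ] ℂ} (hω : Symp L ω)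

lemma GG_eq (i j : Fin 4) : GG i j = (g4 i j : ℂ) := by
  fin_cases i <;> fin_cases j <;> simp [GG, g4]

lemma mat_isSp (hω : Symp L ω) (b : Basis (Fin 4) ℂ V) (hg : ∀ i j, ω (b i) (b j) = (g4 i j : ℂ))
    (x : L) : IsSp (mat b x) := by
  unfold IsSp
  ext i j
  rw [Matrix.add_apply, Matrix.mul_apply, Matrix.mul_apply, Matrix.zero_apply]
  have h1 := hω.inv x (b i) (b j)
  rw [mat_sum b x i, mat_sum b x j, map_sum, LinearMap.sum_apply, map_sum] at h1
  simp only [map_smul, LinearMap.smul_apply, smul_eq_mul, hg, ← GG_eq] at h1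
  simp only [Matrix.transpose_apply]
  rw [h1, neg_add_eq_zero]
  exact Finset.sum_congr rfl fun k _ => mul_comm _ _

lemma FF_of {M : Matrix (Fin 4) (Fin 4) ℂ} (hw : HasWt M (-2)) (he : EE * M - M * EE = HH) :
    M = FF := by
  obtain ⟨w00, w01, w02, w03, w10, w11, w12, w13, w20, w21, w22, w23, w30, w31, w32, w33⟩ := hw.rel
  have e : ∀ i j, (EE * M - M * EE) i j = HH i j := fun i j => by rw [he]
  simp only [Matrix.mul_apply, Fin.sum_univ_four, Matrix.sub_apply] at e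
  have e00 := e 0 0
  have e11 := e 1 1
  have e22 := e 2 2
  simp [EE, HH] at e00 e11 e22
  have h10 : M 1 0 = 1 := e00
  have h21 : M 2 1 = 1 := by linear_combination (1 / 4 : ℂ) * e11 + (3 / 4 : ℂ) * h10
  have h32 : M 3 2 = 1 := by linear_combination (1 / 3 : ℂ) * e22 + (4 / 3 : ℂ) * h21
  refine mat_ext ?_ ?_ ?_ ?_ ?_ ?_ ?_ ?_ ?_ ?_ ?_ ?_ ?_ ?_ ?_ ?_ <;> simp [FF] <;>
    first
      | exact h10
      | exact h21
      | exact h32
      | exact (mul_eq_zero.mp w00).resolve_left (by norm_num)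
      | exact (mul_eq_zero.mp w01).resolve_left (by norm_num)
      | exact (mul_eq_zero.mp w02).resolve_left (by norm_num)
      | exact (mul_eq_zero.mp w03).resolve_left (by norm_num)
      | exact (mul_eq_zero.mp w11).resolve_left (by norm_num)
      | exact (mul_eq_zero.mp w12).resolve_left (by norm_num)
      | exact (mul_eq_zero.mp w13).resolve_left (by norm_num)
      | exact (mul_eq_zero.mp w20).resolve_left (by norm_num)
      | exact (mul_eq_zero.mp w22).resolve_left (by norm_num)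
      | exact (mul_eq_zero.mp w23).resolve_left (by norm_num)
      | exact (mul_eq_zero.mp w30).resolve_left (by norm_num)
      | exact (mul_eq_zero.mp w31).resolve_left (by norm_num)
      | exact (mul_eq_zero.mp w33).resolve_left (by norm_num)

lemma mat_e (b : Basis (Fin 4) ℂ V) (he : ∀ j, ⁅p.e, b j⁆ = (up4 j : ℂ) • b (j - 1)) :
    mat b p.e = EE := by
  refine mat_ext ?_ ?_ ?_ ?_ ?_ ?_ ?_ ?_ ?_ ?_ ?_ ?_ ?_ ?_ ?_ ?_ <;>
    rw [mat_apply, he] <;> simp [EE, up4, Finsupp.single_apply]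

lemma mat_h (b : Basis (Fin 4) ℂ V) (hh : ∀ j, ⁅p.h, b j⁆ = (wt4 j : ℂ) • b j) :
    mat b p.h = HH := by
  refine mat_ext ?_ ?_ ?_ ?_ ?_ ?_ ?_ ?_ ?_ ?_ ?_ ?_ ?_ ?_ ?_ ?_ <;>
    rw [mat_apply, hh] <;> simp [HH, wt4, Finsupp.single_apply]

lemma mat_f (b : Basis (Fin 4) ℂ V) (he : ∀ j, ⁅p.e, b j⁆ = (up4 j : ℂ) • b (j - 1))
    (hh : ∀ j, ⁅p.h, b j⁆ = (wt4 j : ℂ) • b j) : mat b p.f = FF := by
  refine FF_of ?_ ?_
  · exact hasWt p (mat_lie b) (mat_h p b hh) p.hf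
  · rw [← mat_e p b he, ← mat_lie, p.ef, mat_h p b hh]

end four

section two

variable {L : Type*} [LieRing L] [LieAlgebra ℂ L] (p : Principal L) {V : Type*} [AddCommGroup V]
  [Module ℂ V] [LieRingModule L V] [LieModule ℂ L V] {ω : V →ₗ[ℂ] V →ₗ[ℂ] ℂ} (hω : Symp L ω)

lemma two_e (b : Basis (Fin 2) ℂ V) (he : ∀ j, ⁅p.e, b j⁆ = (up2 j : ℂ) • b (j - 1)) :
    mat b p.e = !![0, 1; 0, 0] := by
  ext i j
  rw [mat_apply, he]
  fin_cases i <;> fin_cases j <;> simp [up2, Finsupp.single_apply]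

lemma two_h (b : Basis (Fin 2) ℂ V) (hh : ∀ j, ⁅p.h, b j⁆ = (wt2 j : ℂ) • b j) :
    mat b p.h = !![1, 0; 0, -1] := by
  ext i j
  rw [mat_apply, hh]
  fin_cases i <;> fin_cases j <;> simp [wt2, Finsupp.single_apply]

lemma two_f (b : Basis (Fin 2) ℂ V) (he : ∀ j, ⁅p.e, b j⁆ = (up2 j : ℂ) • b (j - 1))
    (hh : ∀ j, ⁅p.h, b j⁆ = (wt2 j : ℂ) • b j) : mat b p.f = !![0, 0; 1, 0] := by
  have h1 := mat_lie b p.h p.f
  have h2 := mat_lie b p.e p.f
  rw [p.hf, map_smul, two_h p b hh] at h1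
  rw [p.ef, two_h p b hh, two_e p b he] at h2
  have e := fun i j => congrFun (congrFun h1 i) j
  have e' := fun i j => congrFun (congrFun h2 i) j
  simp only [Matrix.mul_apply, Fin.sum_univ_two, Matrix.sub_apply, Matrix.smul_apply,
    smul_eq_mul] at e e'
  have e00 := e 0 0
  have e01 := e 0 1
  have e11 := e 1 1
  have e10 := e' 0 0
  simp at e00 e01 e11 e10
  ext i j
  fin_cases i <;> fin_cases j
  · simpa using e00
  · simp
    linear_combination (-1 / 4 : ℂ) * e01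
  · simp
    exact e10.symm
  · simpa using e11

lemma two_sp (hω : Symp L ω) (b : Basis (Fin 2) ℂ V) (hg : ∀ i j, ω (b i) (b j) = (g2 i j : ℂ))
    (x : L) : mat b x 1 1 = - mat b x 0 0 := by
  have h1 := hω.inv x (b 0) (b 1)
  rw [mat_sum b x 0, mat_sum b x 1, map_sum, LinearMap.sum_apply, map_sum] at h1
  simp [Fin.sum_univ_two, hg, g2] at h1
  linear_combination h1

end two

/-- irreducible symplectic modules of dimension four with the same kernel are isomorphic -/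
theorem iso4 {L : Type*} [LieRing L] [LieAlgebra ℂ L] (p : Principal L)
    {V : Type*} [AddCommGroup V] [Module ℂ V] [LieRingModule L V] [LieModule ℂ L V]
    [FiniteDimensional ℂ V] [LieModule.IsIrreducible ℂ L V] {ω : V →ₗ[ℂ] V →ₗ[ℂ] ℂ}
    (hω : Symp L ω)
    {W : Type*} [AddCommGroup W] [Module ℂ W] [LieRingModule L W] [LieModule ℂ L W]
    [FiniteDimensional ℂ W] [LieModule.IsIrreducible ℂ L W] {ω' : W →ₗ[ℂ] W →ₗ[ℂ] ℂ}
    (hω' : Symp L ω') (hd : finrank ℂ V = 4) (hd' : finrank ℂ W = 4)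
    (hker : ∀ x : L, (∀ v : V, ⁅x, v⁆ = 0) → ∀ w : W, ⁅x, w⁆ = 0)
    (hker' : ∀ x : L, (∀ w : W, ⁅x, w⁆ = 0) → ∀ v : V, ⁅x, v⁆ = 0) :
    ∃ β : V → W → ℂ, ML2 β ∧ Inv2 L β ∧ ∃ x y, β x y ≠ 0 := by
  obtain ⟨F⟩ := p.frame_dim4 hω hd
  obtain ⟨F'⟩ := p.frame_dim4 hω' hd'
  have G := Adapted.of hω F
  have G' := Adapted.of hω' F'
  refine exists_beta hω' G.b G'.b (hom_eq p (mat G.b) (mat G'.b) (mat_lie _) (mat_lie _)
    (mat_e p _ G.e_b) (mat_f p _ G.e_b G.h_b) (mat_h p _ G.h_b)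
    (mat_e p _ G'.e_b) (mat_f p _ G'.e_b G'.h_b) (mat_h p _ G'.h_b)
    (mat_isSp hω _ G.g_b) (mat_isSp hω' _ G'.g_b) ?_ ?_)
  · intro x hx
    rw [mat_eq_zero] at hx ⊢
    exact hker x hx
  · intro x hx
    rw [mat_eq_zero] at hx ⊢
    exact hker' x hx

/-- irreducible symplectic modules of dimension two: one inclusion of kernels is enough -/
theorem iso2 {L : Type*} [LieRing L] [LieAlgebra ℂ L] (p : Principal L)
    {V : Type*} [AddCommGroup V] [Module ℂ V] [LieRingModule L V] [LieModule ℂ L V]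
    [FiniteDimensional ℂ V] [LieModule.IsIrreducible ℂ L V] {ω : V →ₗ[ℂ] V →ₗ[ℂ] ℂ}
    (hω : Symp L ω)
    {W : Type*} [AddCommGroup W] [Module ℂ W] [LieRingModule L W] [LieModule ℂ L W]
    [FiniteDimensional ℂ W] [LieModule.IsIrreducible ℂ L W] {ω' : W →ₗ[ℂ] W →ₗ[ℂ] ℂ}
    (hω' : Symp L ω') (hd : finrank ℂ V = 2) (hd' : finrank ℂ W = 2)
    (hker : ∀ x : L, (∀ v : V, ⁅x, v⁆ = 0) → ∀ w : W, ⁅x, w⁆ = 0) :
    ∃ β : V → W → ℂ, ML2 β ∧ Inv2 L β ∧ ∃ x y, β x y ≠ 0 := by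
  obtain ⟨F⟩ := p.frame_dim2 hω hd
  obtain ⟨F'⟩ := p.frame_dim2 hω' hd'
  have G := Adapted.of hω F
  have G' := Adapted.of hω' F'
  have hE := two_e p G.b G.e_b
  have hH := two_h p G.b G.h_b
  have hF := two_f p G.b G.e_b G.h_b
  have hE' := two_e p G'.b G'.e_b
  have hH' := two_h p G'.b G'.h_b
  have hF' := two_f p G'.b G'.e_b G'.h_b
  refine exists_beta hω' G.b G'.b fun x => ?_
  have hs := two_sp hω G.b G.g_b x
  obtain ⟨u, hu⟩ : ∃ u, u = x - (mat G.b x 0 0) • p.h - (mat G.b x 0 1) • p.e -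
    (mat G.b x 1 0) • p.f := ⟨_, rfl⟩
  have h1 : mat G.b u = 0 := by
    rw [hu, map_sub, map_sub, map_sub, map_smul, map_smul, map_smul, hE, hF, hH]
    ext i j
    fin_cases i <;> fin_cases j <;> simp
    rw [hs]; ring
  have h2 : mat G'.b u = 0 := (mat_eq_zero _ _).mpr (hker u ((mat_eq_zero _ _).mp h1))
  rw [hu, map_sub, map_sub, map_sub, map_smul, map_smul, map_smul] at h1 h2
  rw [hE, hF, hH] at h1
  rw [hE', hF', hH'] at h2
  have h3 := h1.trans h2.symm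
  exact sub_left_injective (sub_left_injective (sub_left_injective h3))

end Pool.Agent.Helper84
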