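import Pool.Agent.Helper84.CMMatch
import Pool.Agent.Helper8.Lie.ModLemmas

/-!
Small pieces for the assembly: invariant functions of one and three vectors, parity and traces of
symplectic modules, patterns of four indices, and the pairing of four characters when the module of
odd functions is multiplicity free.
-/

namespace Pool.Agent.Helper84

open Pool.Agent.Helper8

section odd

variable {L : Type*} [LieRing L] [LieAlgebra ℂ L] (p : Principal L)

/-- linear functions vanishing on all vectors of odd weight vanish -/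
lemma weight_ext {V : Type*} [AddCommGroup V] [Module ℂ V] [LieRingModule L V] [LieModule ℂ L V]
    [FiniteDimensional ℂ V] [LieModule.IsIrreducible ℂ L V] {ω : V →ₗ[ℂ] V →ₗ[ℂ] ℂ}
    (hω : Symp L ω) {g : V → ℂ} (hg : IsLinearMap ℂ g)
    (h : ∀ (k : ℤ) (v : V), ⁅p.h, v⁆ = (2 * k + 1 : ℂ) • v → g v = 0) (v : V) : g v = 0 := by
  have hv : v ∈ ⨆ ν : ℂ, (p.rep hω).h.eigenspace ν := by rw [(p.rep hω).diag]; trivial
  have h0 : g 0 = 0 := by
    have := hg.map_smul 0 0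
    rwa [zero_smul, zero_smul] at this
  induction hv using Submodule.iSup_induction' with
  | mem ν z hz =>
    rw [Module.End.mem_eigenspace_iff] at hz
    by_cases hz0 : z = 0
    · rw [hz0, h0]
    · obtain ⟨k, hk⟩ := (p.rep hω).odd ν z hz0 hz
      refine h k z ?_
      rw [← hk]
      exact hz
  | zero => exact h0
  | add y z _ _ hy hz => rw [hg.map_add, hy, hz, add_zero]

include p in
/-- invariant linear functions on a symplectic module vanish -/
lemma odd1 {V : Type*} [AddCommGroup V] [Module ℂ V] [LieRingModule L V] [LieModule ℂ L V]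
    [FiniteDimensional ℂ V] [LieModule.IsIrreducible ℂ L V] {ω : V →ₗ[ℂ] V →ₗ[ℂ] ℂ}
    (hω : Symp L ω) {G : V → ℂ} (l1 : IsLinearMap ℂ G) (hI : ∀ (a : L) x, G ⁅a, x⁆ = 0) (x : V) :
    G x = 0 := by
  refine weight_ext p hω l1 (fun k v hv => ?_) x
  have h1 := hI p.h v
  rw [hv, l1.map_smul, smul_eq_mul] at h1
  refine (mul_eq_zero.mp h1).resolve_left ?_
  intro h2
  have h3 : ((2 * k + 1 : ℤ) : ℂ) = 0 := by push_cast; exact h2
  have h4 : (2 * k + 1 : ℤ) = 0 := by exact_mod_cast h3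
  omega

include p in
/-- invariant functions of three vectors in symplectic modules vanish -/
lemma odd3 {V1 V2 V3 : Type*} [AddCommGroup V1] [Module ℂ V1] [LieRingModule L V1]
    [LieModule ℂ L V1] [FiniteDimensional ℂ V1] [LieModule.IsIrreducible ℂ L V1]
    [AddCommGroup V2] [Module ℂ V2] [LieRingModule L V2]
    [LieModule ℂ L V2] [FiniteDimensional ℂ V2] [LieModule.IsIrreducible ℂ L V2]
    [AddCommGroup V3] [Module ℂ V3] [LieRingModule L V3]
    [LieModule ℂ L V3] [FiniteDimensional ℂ V3] [LieModule.IsIrreducible ℂ L V3]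
    {ω1 : V1 →ₗ[ℂ] V1 →ₗ[ℂ] ℂ} {ω2 : V2 →ₗ[ℂ] V2 →ₗ[ℂ] ℂ} {ω3 : V3 →ₗ[ℂ] V3 →ₗ[ℂ] ℂ}
    (hω1 : Symp L ω1) (hω2 : Symp L ω2) (hω3 : Symp L ω3) {G : V1 → V2 → V3 → ℂ}
    (l1 : ∀ y z, IsLinearMap ℂ (fun x => G x y z)) (l2 : ∀ x z, IsLinearMap ℂ (fun y => G x y z))
    (l3 : ∀ x y, IsLinearMap ℂ (fun z => G x y z))
    (hI : ∀ (a : L) x y z, G ⁅a, x⁆ y z + G x ⁅a, y⁆ z + G x y ⁅a, z⁆ = 0) (x : V1) (y : V2)
    (z : V3) : G x y z = 0 := by
  refine weight_ext p hω1 (l1 y z) (fun k1 x hx => ?_) x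
  refine weight_ext p hω2 (l2 x z) (fun k2 y hy => ?_) y
  refine weight_ext p hω3 (l3 x y) (fun k3 z hz => ?_) z
  have h1 := hI p.h x y z
  have e1 := (l1 y z).map_smul (2 * k1 + 1 : ℂ) x
  have e2 := (l2 x z).map_smul (2 * k2 + 1 : ℂ) y
  have e3 := (l3 x y).map_smul (2 * k3 + 1 : ℂ) z
  simp only [smul_eq_mul] at e1 e2 e3
  rw [hx, hy, hz, e1, e2, e3] at h1
  have h2 : ((2 * k1 + 1 : ℂ) + (2 * k2 + 1) + (2 * k3 + 1)) * G x y z = 0 := by
    linear_combination h1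
  refine (mul_eq_zero.mp h2).resolve_left ?_
  intro h2
  have h3 : ((2 * k1 + 1 + (2 * k2 + 1) + (2 * k3 + 1) : ℤ) : ℂ) = 0 := by push_cast; exact h2
  have h4 : (2 * k1 + 1 + (2 * k2 + 1) + (2 * k3 + 1) : ℤ) = 0 := by exact_mod_cast h3
  omega

end odd

section symp

variable {L : Type*} [LieRing L] {V : Type*} [AddCommGroup V] [Module ℂ V] [LieRingModule L V]
  [FiniteDimensional ℂ V] {ω : V →ₗ[ℂ] V →ₗ[ℂ] ℂ}

/-- the dimension of a symplectic module is even -/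
lemma symp_even (hω : Symp L ω) : Even (Module.finrank ℂ V) := by
  classical
  set b := Module.finBasis ℂ V
  set M : Matrix (Fin (Module.finrank ℂ V)) (Fin (Module.finrank ℂ V)) ℂ :=
    Matrix.of fun i j => ω (b i) (b j) with hM
  have hT : M.transpose = -M := by
    ext i j
    rw [Matrix.transpose_apply, Matrix.neg_apply, hM, Matrix.of_apply, Matrix.of_apply]
    exact hω.alt _ _
  have hdet : M.det ≠ 0 := by
    intro h0
    obtain ⟨v, hv0, hv⟩ := Matrix.exists_vecMul_eq_zero_iff.mpr h0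
    apply hv0
    have h1 : ∑ i, v i • b i = 0 := by
      apply hω.nd
      intro y
      rw [← b.sum_repr y, map_sum]
      refine Finset.sum_eq_zero fun j _ => ?_
      rw [map_smul, map_sum, LinearMap.sum_apply]
      have h2 : ∑ i, (ω (v i • b i)) (b j) = 0 := by
        have h3 := congrFun hv j
        rw [Matrix.vecMul, dotProduct, Pi.zero_apply] at h3
        rw [← h3]
        refine Finset.sum_congr rfl fun i _ => ?_
        rw [map_smul, LinearMap.smul_apply, smul_eq_mul, hM, Matrix.of_apply]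
      rw [h2, smul_zero]
    funext i
    exact Fintype.linearIndependent_iff.mp b.linearIndependent v h1 i
  have h1 : M.det = (-1) ^ (Module.finrank ℂ V) * M.det := by
    conv_lhs => rw [← Matrix.det_transpose, hT, Matrix.det_neg, Fintype.card_fin]
  by_contra hodd
  rw [Nat.not_even_iff_odd] at hodd
  rw [hodd.neg_one_pow] at h1
  apply hdet
  have h2 : (2 : ℂ) * M.det = 0 := by linear_combination h1
  exact (mul_eq_zero.mp h2).resolve_left two_ne_zero

end symp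

section trace

variable {L : Type*} [LieRing L] [LieAlgebra ℂ L] {V : Type*} [AddCommGroup V] [Module ℂ V]
  [LieRingModule L V] [LieModule ℂ L V] [FiniteDimensional ℂ V] {ω : V →ₗ[ℂ] V →ₗ[ℂ] ℂ}

/-- the elements of the Lie algebra have trace zero on a symplectic module -/
lemma symp_trace (hω : Symp L ω) (x : L) :
    LinearMap.trace ℂ V (LieModule.toEnd ℂ L V x) = 0 := by
  have hinj : Function.Injective ω := by
    rw [← LinearMap.ker_eq_bot, Submodule.eq_bot_iff]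
    intro x hx
    exact hω.nd x fun y => by rw [LinearMap.mem_ker.mp hx]; rfl
  let Φ : V ≃ₗ[ℂ] Module.Dual ℂ V :=
    LinearEquiv.ofInjectiveOfFinrankEq ω hinj (Subspace.dual_finrank_eq).symm
  have hΦ : ∀ x, Φ x = ω x := fun x => rfl
  set T := LieModule.toEnd ℂ L V x with hT
  have h1 : Φ.conj T = - Module.Dual.transpose (R := ℂ) T := by
    apply LinearMap.ext
    intro φ
    obtain ⟨v, rfl⟩ := Φ.surjective φ
    apply LinearMap.ext
    intro w
    rw [LinearEquiv.conj_apply_apply, Φ.symm_apply_apply, LinearMap.neg_apply, LinearMap.neg_apply,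
      Module.Dual.transpose_apply, LinearMap.comp_apply, hΦ, hΦ]
    exact hω.inv x v w
  have h2 := LinearMap.trace_conj' T Φ
  rw [h1, map_neg, LinearMap.trace_transpose'] at h2
  have h3 : (2 : ℂ) * LinearMap.trace ℂ V T = 0 := by linear_combination -h2
  exact (mul_eq_zero.mp h3).resolve_left two_ne_zero

end trace

section patterns

lemma pattern4_aux : ∀ f0 f1 f2 f3 : Fin 4, ∃ π : Equiv.Perm (Fin 4),
    let s := fun i => ![f0, f1, f2, f3] (π i)
    (s 0 = s 1 ∧ s 1 = s 2 ∧ s 2 = s 3) ∨ (s 0 = s 1 ∧ s 1 = s 2 ∧ s 3 ≠ s 0) ∨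
      (s 0 = s 1 ∧ s 2 = s 3 ∧ s 2 ≠ s 0) ∨
      (s 0 = s 1 ∧ s 2 ≠ s 0 ∧ s 3 ≠ s 0 ∧ s 2 ≠ s 3) ∨
      (s 0 ≠ s 1 ∧ s 0 ≠ s 2 ∧ s 0 ≠ s 3 ∧ s 1 ≠ s 2 ∧ s 1 ≠ s 3 ∧ s 2 ≠ s 3) := by
  decide +kernel

lemma vec4_eq {T : Type*} (f : Fin 4 → T) : ![f 0, f 1, f 2, f 3] = f := by
  funext a
  fin_cases a <;> rfl

lemma inj4 {T : Type*} {s : Fin 4 → T} (h : s 0 ≠ s 1 ∧ s 0 ≠ s 2 ∧ s 0 ≠ s 3 ∧ s 1 ≠ s 2 ∧
    s 1 ≠ s 3 ∧ s 2 ≠ s 3) : Function.Injective s := by
  obtain ⟨h01, h02, h03, h12, h13, h23⟩ := h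
  intro a b hab
  fin_cases a <;> fin_cases b <;>
    first
      | rfl
      | exact absurd hab (by assumption)
      | exact absurd hab.symm (by assumption)

/-- the patterns of equalities between four objects -/
lemma pattern4 {T : Type*} (t : Fin 4 → T) : ∃ π : Equiv.Perm (Fin 4),
    (t (π 0) = t (π 1) ∧ t (π 1) = t (π 2) ∧ t (π 2) = t (π 3)) ∨
      (t (π 0) = t (π 1) ∧ t (π 1) = t (π 2) ∧ t (π 3) ≠ t (π 0)) ∨
      (t (π 0) = t (π 1) ∧ t (π 2) = t (π 3) ∧ t (π 2) ≠ t (π 0)) ∨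
      (t (π 0) = t (π 1) ∧ t (π 2) ≠ t (π 0) ∧ t (π 3) ≠ t (π 0) ∧ t (π 2) ≠ t (π 3)) ∨
      Function.Injective (fun i => t (π i)) := by
  obtain ⟨f, hf⟩ : ∃ f : Fin 4 → Fin 4, ∀ i j, f i = f j ↔ t i = t j := by
    refine ⟨fun i => Function.invFun t (t i), fun i j => ⟨fun h => ?_, fun h => ?_⟩⟩
    · have h1 := Function.invFun_eq (f := t) ⟨i, rfl⟩
      have h2 := Function.invFun_eq (f := t) ⟨j, rfl⟩
      rw [← h1, ← h2]
      exact congrArg t h
    · simp only [h]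
  obtain ⟨π, hπ⟩ := pattern4_aux (f 0) (f 1) (f 2) (f 3)
  rw [vec4_eq] at hπ
  simp only [hf, ne_eq] at hπ
  refine ⟨π, ?_⟩
  rcases hπ with h | h | h | h | h
  · exact Or.inl h
  · exact Or.inr (Or.inl h)
  · exact Or.inr (Or.inr (Or.inl h))
  · exact Or.inr (Or.inr (Or.inr (Or.inl h)))
  · exact Or.inr (Or.inr (Or.inr (Or.inr (inj4 h))))

lemma sort4_aux : ∀ f0 f1 f2 f3 : Bool, ∃ π : Equiv.Perm (Fin 4),
    let s := fun i => ![f0, f1, f2, f3] (π i)
    (s 0 = true ∧ s 1 = true ∧ s 2 = true ∧ s 3 = true) ∨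
      (s 0 = true ∧ s 1 = true ∧ s 2 = true ∧ ¬ s 3 = true) ∨
      (s 0 = true ∧ s 1 = true ∧ ¬ s 2 = true ∧ ¬ s 3 = true) ∨
      (s 0 = true ∧ ¬ s 1 = true ∧ ¬ s 2 = true ∧ ¬ s 3 = true) ∨
      (¬ s 0 = true ∧ ¬ s 1 = true ∧ ¬ s 2 = true ∧ ¬ s 3 = true) := by
  decide +kernel

/-- sorting four indices by a property -/
lemma sort4 (R : Fin 4 → Prop) : ∃ π : Equiv.Perm (Fin 4),
    (R (π 0) ∧ R (π 1) ∧ R (π 2) ∧ R (π 3)) ∨
      (R (π 0) ∧ R (π 1) ∧ R (π 2) ∧ ¬ R (π 3)) ∨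
      (R (π 0) ∧ R (π 1) ∧ ¬ R (π 2) ∧ ¬ R (π 3)) ∨
      (R (π 0) ∧ ¬ R (π 1) ∧ ¬ R (π 2) ∧ ¬ R (π 3)) ∨
      (¬ R (π 0) ∧ ¬ R (π 1) ∧ ¬ R (π 2) ∧ ¬ R (π 3)) := by
  classical
  obtain ⟨f, hf⟩ : ∃ f : Fin 4 → Bool, ∀ i, f i = true ↔ R i :=
    ⟨fun i => decide (R i), fun i => decide_eq_true_iff⟩
  obtain ⟨π, hπ⟩ := sort4_aux (f 0) (f 1) (f 2) (f 3)
  rw [vec4_eq] at hπ
  simp only [hf] at hπ
  exact ⟨π, hπ⟩

end patterns

section free

open NumberField Pool.Agent.GPC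

variable {I : Type} {L : I → Type} [∀ i, Field (L i)]

/-- the pairing when the module of odd functions is multiplicity free -/
theorem omf_match [∀ i, NumberField (L i)] (hfree : OddMultiplicityFree L)
    {U : Submodule ℚ (Emb L → ℚ)} (hU : IsOddModule L U) (p : Fin 4 → Emb L)
    (hcm : ∀ r, NumberField.IsCMField (L (p r).1))
    (hT : ∀ r, ∃ w, IsOdd L w ∧ (∀ j σ, j ≠ (p r).1 → w ⟨j, σ⟩ = 0) ∧ w ∉ U)
    (hpU : (fun t => ∑ r, xi (p r) t) ∈ U) :
    ∃ π : Equiv.Perm (Fin 4), (∀ t, xi (p (π 0)) t + xi (p (π 1)) t = 0) ∧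
      (∀ t, xi (p (π 2)) t + xi (p (π 3)) t = 0) := by
  -- the sum vanishes
  have h0 : ∀ t, ∑ r, xi (p r) t = 0 := by
    rintro ⟨i, σ⟩
    by_cases hi : ∃ r, (p r).1 = i
    · obtain ⟨r, rfl⟩ := hi
      by_contra hne
      obtain ⟨w, hw1, hw2, hw3⟩ := hT r
      exact hw3 (hfree U hU (p r).1 ⟨_, hpU, σ, hne⟩ w hw1 hw2)
    · push Not at hi
      exact Finset.sum_eq_zero fun r _ => xi_off (hi r) σ
  -- no character is real
  have hself : conjT (p 0) ≠ p 0 := by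
    intro e
    have := hcm 0
    generalize hq : p 0 = q at e this
    obtain ⟨i, s⟩ := q
    have e' : (⟨i, ComplexEmbedding.conjugate s⟩ : Emb L) = ⟨i, s⟩ := e
    rw [Sigma.mk.injEq] at e'
    exact cc_ne s (eq_of_heq e'.2)
  obtain ⟨r, hr⟩ : ∃ r, p r = conjT (p 0) := by
    by_contra hcon
    push Not at hcon
    have h1 := h0 (p 0)
    have h2 : ∀ r, 0 ≤ xi (p r) (p 0) := by
      intro r
      classical
      unfold xi
      have h3 : conjT (p r) ≠ p 0 := fun e => hcon r (by rw [← e, conjT_conjT])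
      rw [if_neg h3, sub_zero]
      split_ifs <;> norm_num
    have h3 := (Finset.sum_eq_zero_iff_of_nonneg fun r _ => h2 r).mp h1 0 (Finset.mem_univ _)
    rw [xi_self hself] at h3
    exact one_ne_zero h3
  have hr0 : (0 : Fin 4) ≠ r := by
    rintro rfl
    exact hself hr.symm
  obtain ⟨π, hπ0, hπ1⟩ := exists_perm_pair 0 r hr0
  have h2 : ∀ t, xi (p (π 0)) t + xi (p (π 1)) t = 0 := fun t => by
    rw [hπ0, hπ1, hr, xi_conj_left, add_neg_cancel]
  refine ⟨π, h2, fun t => ?_⟩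
  have h3 := sum_perm p π t
  rw [h0 t, h2 t, zero_add] at h3
  exact h3.symm

open Classical in
/-- the pairing when the module of odd functions is multiplicity free, in the form of
`cm_match` -/
theorem omf_match' [∀ i, NumberField (L i)] (n : I → ℕ) (hfree : OddMultiplicityFree L)
    (hcm : ∀ i, n i ≠ 0 → NumberField.IsCMField (L i))
    {U : Submodule ℚ (Emb L → ℚ)} (hU : IsOddModule L U)
    (hT : ∀ i, n i ≠ 0 → ∃ w, IsOdd L w ∧ (∀ j σ, j ≠ i → w ⟨j, σ⟩ = 0) ∧ w ∉ U)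
    (p : Fin 4 → Emb L) (hp : ∀ t, (Finset.univ.filter fun r => p r = t).card ≤ n t.1)
    (hpU : (fun t => ∑ r, xi (p r) t) ∈ U) :
    ∃ π : Equiv.Perm (Fin 4), (fun t => xi (p (π 0)) t + xi (p (π 1)) t) ∈ U ∧
      (fun t => xi (p (π 2)) t + xi (p (π 3)) t) ∈ U := by
  have hn : ∀ r, n (p r).1 ≠ 0 := by
    intro r h0
    have h1 := hp (p r)
    rw [h0] at h1
    have h2 : r ∈ Finset.univ.filter fun r' => p r' = p r := by simp
    have h3 := Finset.card_pos.2 ⟨r, h2⟩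
    omega
  obtain ⟨π, h1, h2⟩ := omf_match hfree hU p (fun r => hcm _ (hn r)) (fun r => hT _ (hn r)) hpU
  refine ⟨π, ?_, ?_⟩
  · have h3 : (fun t => xi (p (π 0)) t + xi (p (π 1)) t) = 0 := funext h1
    rw [h3]
    exact U.zero_mem
  · have h3 : (fun t => xi (p (π 2)) t + xi (p (π 3)) t) = 0 := funext h2
    rw [h3]
    exact U.zero_mem

end free

end Pool.Agent.Helper84
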