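import Pool.Agent.Helper84.AutC

/-!
Galois theory of CM fields of degree `2` and `4` in terms of the action of `Aut(ℂ)` on embeddings.
-/

namespace Pool.Agent.Helper84

open NumberField

/-- the action of `Aut(ℂ)` on embeddings -/
abbrev act {L : Type*} [Field L] (τ : ℂ ≃+* ℂ) (σ : L →+* ℂ) : L →+* ℂ := (τ : ℂ →+* ℂ).comp σ

section basic

variable {L : Type*} [Field L]

lemma cc_cc (σ : L →+* ℂ) : ComplexEmbedding.conjugate (ComplexEmbedding.conjugate σ) = σ :=
  RingHom.ext fun x => by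
    rw [ComplexEmbedding.conjugate_coe_eq, ComplexEmbedding.conjugate_coe_eq, Complex.conj_conj]

lemma act_injective (τ : ℂ ≃+* ℂ) {σ σ' : L →+* ℂ} (h : act τ σ = act τ σ') : σ = σ' :=
  RingHom.ext fun x => τ.injective (RingHom.congr_fun h x)

lemma act_trans (τ τ' : ℂ ≃+* ℂ) (σ : L →+* ℂ) : act (τ.trans τ') σ = act τ' (act τ σ) := rfl

lemma act_star (σ : L →+* ℂ) : act (starRingAut : ℂ ≃+* ℂ) σ = ComplexEmbedding.conjugate σ :=
  RingHom.ext fun _ => rfl

end basic

variable {L : Type*} [Field L] [NumberField L]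

lemma cc_ne [IsCMField L] (σ : L →+* ℂ) : ComplexEmbedding.conjugate σ ≠ σ := fun h =>
  IsTotallyComplex.complexEmbedding_not_isReal σ h

lemma act_cc [IsCMField L] (τ : ℂ ≃+* ℂ) (σ : L →+* ℂ) :
    act τ (ComplexEmbedding.conjugate σ) = ComplexEmbedding.conjugate (act τ σ) := by
  refine RingHom.ext fun x => ?_
  have h1 := IsCMField.complexEmbedding_complexConj L σ x
  have h2 := IsCMField.complexEmbedding_complexConj L (act τ σ) x
  rw [ComplexEmbedding.conjugate_coe_eq, ← h2, RingHom.comp_apply, RingHom.comp_apply, h1,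
    ComplexEmbedding.conjugate_coe_eq]

lemma eq_or_of_two [IsCMField L] (hdeg : Module.finrank ℚ L = 2) (σ s : L →+* ℂ) :
    s = σ ∨ s = ComplexEmbedding.conjugate σ := by
  classical
  have h1 : ({σ, ComplexEmbedding.conjugate σ} : Finset (L →+* ℂ)) = Finset.univ := by
    apply Finset.eq_univ_of_card
    rw [Finset.card_pair (cc_ne σ).symm, NumberField.Embeddings.card, hdeg]
  have h2 := Finset.mem_univ s
  rw [← h1] at h2
  simpa using h2

lemma eq_or_of_four [IsCMField L] (hdeg : Module.finrank ℚ L = 4) {σ₁ σ₂ : L →+* ℂ}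
    (h : σ₂ ≠ σ₁) (h' : σ₂ ≠ ComplexEmbedding.conjugate σ₁) (s : L →+* ℂ) :
    s = σ₁ ∨ s = ComplexEmbedding.conjugate σ₁ ∨ s = σ₂ ∨ s = ComplexEmbedding.conjugate σ₂ := by
  classical
  have h3 : ComplexEmbedding.conjugate σ₂ ≠ σ₁ := fun e => h' (by rw [← e, cc_cc])
  have h4 : ComplexEmbedding.conjugate σ₂ ≠ ComplexEmbedding.conjugate σ₁ := fun e => h (by
    rw [← cc_cc σ₂, e, cc_cc])
  have h1 : ({σ₁, ComplexEmbedding.conjugate σ₁, σ₂, ComplexEmbedding.conjugate σ₂} :
      Finset (L →+* ℂ)) = Finset.univ := by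
    apply Finset.eq_univ_of_card
    rw [NumberField.Embeddings.card, hdeg, Finset.card_insert_of_notMem,
      Finset.card_insert_of_notMem, Finset.card_pair (cc_ne σ₂).symm]
    · simp only [Finset.mem_insert, Finset.mem_singleton, not_or]
      exact ⟨h'.symm, h4.symm⟩
    · simp only [Finset.mem_insert, Finset.mem_singleton, not_or]
      exact ⟨(cc_ne σ₁).symm, h.symm, h3.symm⟩
  have h2 := Finset.mem_univ s
  rw [← h1] at h2
  simpa using h2

lemma exists_other [IsCMField L] (hdeg : Module.finrank ℚ L = 4) (σ₁ : L →+* ℂ) :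
    ∃ σ₂ : L →+* ℂ, σ₂ ≠ σ₁ ∧ σ₂ ≠ ComplexEmbedding.conjugate σ₁ := by
  classical
  by_contra hno
  push Not at hno
  have h1 : ({σ₁, ComplexEmbedding.conjugate σ₁} : Finset (L →+* ℂ)) = Finset.univ := by
    refine Finset.eq_univ_iff_forall.2 fun s => ?_
    rw [Finset.mem_insert, Finset.mem_singleton]
    by_cases h : s = σ₁
    · exact Or.inl h
    · exact Or.inr (hno s h)
  have h2 : Fintype.card (L →+* ℂ) = 4 := by rw [NumberField.Embeddings.card, hdeg]
  rw [← Finset.card_univ, ← h1, Finset.card_pair (cc_ne σ₁).symm] at h2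
  omega

lemma isAlgebraic_emb (σ : L →+* ℂ) (x : L) : IsAlgebraic ℚ (σ x) := by
  have h : IsAlgebraic ℚ x := Algebra.IsAlgebraic.isAlgebraic x
  exact h.algHom σ.toRatAlgHom

/-- A quartic CM field without imaginary quadratic subfield: some automorphism of `ℂ` has square
complex conjugation on the embeddings. -/
theorem exists_sq_conj [IsCMField L] (hdeg : Module.finrank ℚ L = 4)
    (hq : ∀ (x : L) (q : ℚ), q < 0 → x ^ 2 ≠ (q : L)) :
    ∃ τ : ℂ ≃+* ℂ, ∀ σ : L →+* ℂ, act τ (act τ σ) = ComplexEmbedding.conjugate σ := by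
  by_contra hno
  have σ₁ : L →+* ℂ := Classical.choice inferInstance
  obtain ⟨σ₂, h21, h21'⟩ := exists_other hdeg σ₁
  have key : ∀ τ : ℂ ≃+* ℂ, act τ σ₁ = σ₂ → act τ σ₂ = ComplexEmbedding.conjugate σ₁ → False := by
    intro τ h1 h2
    refine hno ⟨τ, fun σ => ?_⟩
    rcases eq_or_of_four hdeg h21 h21' σ with rfl | rfl | rfl | rfl
    · rw [h1, h2]
    · rw [act_cc, act_cc, h1, h2]
    · rw [h2, act_cc, h1]
    · rw [act_cc, act_cc, h2, act_cc, h1]
  have inj1 : ∀ τ : ℂ ≃+* ℂ, act τ σ₂ ≠ act τ σ₁ := fun τ h => h21 (act_injective τ h)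
  have inj2 : ∀ τ : ℂ ≃+* ℂ, act τ σ₂ ≠ ComplexEmbedding.conjugate (act τ σ₁) := fun τ h => by
    rw [← act_cc] at h
    exact h21' (act_injective τ h)
  have ii : ∀ τ : ℂ ≃+* ℂ, act τ σ₁ = σ₂ → act τ σ₂ = σ₁ := by
    intro τ h1
    rcases eq_or_of_four hdeg h21 h21' (act τ σ₂) with h | h | h | h
    · exact h
    · exact (key τ h1 h).elim
    · exact (inj1 τ (h.trans h1.symm)).elim
    · refine (inj2 τ ?_).elim
      rw [h, h1]
  have i : ∀ τ : ℂ ≃+* ℂ, act τ σ₁ = σ₁ → act τ σ₂ = σ₂ := by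
    intro τ h1
    rcases eq_or_of_four hdeg h21 h21' (act τ σ₂) with h | h | h | h
    · exact (inj1 τ (h.trans h1.symm)).elim
    · refine (inj2 τ ?_).elim
      rw [h, h1]
    · exact h
    · obtain ⟨g, hg⟩ := exists_aut σ₁ σ₂
      refine (key (τ.trans g) ?_ ?_).elim
      · rw [act_trans, h1]; exact hg
      · rw [act_trans, h, act_cc, ii g hg]
  have iii : ∀ τ : ℂ ≃+* ℂ, act τ σ₁ = ComplexEmbedding.conjugate σ₁ →
      act τ σ₂ = ComplexEmbedding.conjugate σ₂ := by
    intro τ h1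
    have h2 := i (τ.trans starRingAut) (by rw [act_trans, h1, act_star, cc_cc])
    rw [act_trans, act_star] at h2
    have h3 := congrArg ComplexEmbedding.conjugate h2
    rwa [cc_cc] at h3
  have iv : ∀ τ : ℂ ≃+* ℂ, act τ σ₁ = ComplexEmbedding.conjugate σ₂ →
      act τ σ₂ = ComplexEmbedding.conjugate σ₁ := by
    intro τ h1
    have h2 := ii (τ.trans starRingAut) (by rw [act_trans, h1, act_star, cc_cc])
    rw [act_trans, act_star] at h2
    have h3 := congrArg ComplexEmbedding.conjugate h2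
    rwa [cc_cc] at h3
  let Z : L → ℂ := fun y => σ₁ y + σ₂ y - ComplexEmbedding.conjugate σ₁ y -
    ComplexEmbedding.conjugate σ₂ y
  have hτ : ∀ (τ : ℂ ≃+* ℂ) (y : L), τ (Z y) = act τ σ₁ y + act τ σ₂ y -
      ComplexEmbedding.conjugate (act τ σ₁) y - ComplexEmbedding.conjugate (act τ σ₂) y := by
    intro τ y
    rw [← act_cc, ← act_cc]
    simp only [Z, map_sub, map_add]
    rfl
  have hτ2 : ∀ (τ : ℂ ≃+* ℂ) (y : L), τ (Z y) = Z y ∨ τ (Z y) = - Z y := by
    intro τ y
    rw [hτ]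
    rcases eq_or_of_four hdeg h21 h21' (act τ σ₁) with h | h | h | h
    · left; rw [h, i τ h]
    · right; rw [h, iii τ h, cc_cc, cc_cc]; simp only [Z]; ring
    · left; rw [h, ii τ h]; simp only [Z]; ring
    · right; rw [h, iv τ h, cc_cc, cc_cc]; simp only [Z]; ring
  have halg : ∀ y, IsAlgebraic ℚ (Z y) := fun y =>
    (((isAlgebraic_emb σ₁ y).add (isAlgebraic_emb σ₂ y)).sub (isAlgebraic_emb _ y)).sub
      (isAlgebraic_emb _ y)
  have hex : ∃ y, Z y ≠ 0 := by
    by_contra hall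
    push Not at hall
    have hli := linearIndependent_monoidHom L ℂ
    let f : Fin 4 → (L →* ℂ) := ![(σ₁ : L →* ℂ), (σ₂ : L →* ℂ),
      ((ComplexEmbedding.conjugate σ₁ : L →+* ℂ) : L →* ℂ),
      ((ComplexEmbedding.conjugate σ₂ : L →+* ℂ) : L →* ℂ)]
    have hcoe : ∀ a b : L →+* ℂ, (a : L →* ℂ) = (b : L →* ℂ) → a = b := fun a b h =>
      RingHom.ext fun x => DFunLike.congr_fun h x
    have h3 : ComplexEmbedding.conjugate σ₂ ≠ σ₁ := fun e => h21' (by rw [← e, cc_cc])
    have h4 : ComplexEmbedding.conjugate σ₂ ≠ ComplexEmbedding.conjugate σ₁ := fun e => h21 (by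
      rw [← cc_cc σ₂, e, cc_cc])
    have hf : Function.Injective f := by
      intro a b hab
      fin_cases a <;> fin_cases b
      · rfl
      · exact (h21 (hcoe _ _ hab).symm).elim
      · exact (cc_ne σ₁ (hcoe _ _ hab).symm).elim
      · exact (h3 (hcoe _ _ hab).symm).elim
      · exact (h21 (hcoe _ _ hab)).elim
      · rfl
      · exact (h21' (hcoe _ _ hab)).elim
      · exact (cc_ne σ₂ (hcoe _ _ hab).symm).elim
      · exact (cc_ne σ₁ (hcoe _ _ hab)).elim
      · exact (h21' (hcoe _ _ hab).symm).elim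
      · rfl
      · exact (h4 (hcoe _ _ hab).symm).elim
      · exact (h3 (hcoe _ _ hab)).elim
      · exact (cc_ne σ₂ (hcoe _ _ hab)).elim
      · exact (h4 (hcoe _ _ hab)).elim
      · rfl
    have h5 := (Fintype.linearIndependent_iff.1 (hli.comp f hf)) ![1, 1, -1, -1] (by
      funext y
      have := hall y
      simp only [Z] at this
      simp [Fin.sum_univ_four, f]
      linear_combination this) 0
    simp at h5
  obtain ⟨y, hy⟩ := hex
  have hsq : ∃ q : ℚ, (q : ℂ) = Z y ^ 2 := rational_of_fixed _ ((halg y).pow 2) (fun τ => by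
    rw [map_pow]
    rcases hτ2 τ y with h | h <;> rw [h]
    ring)
  obtain ⟨q, hq1⟩ := hsq
  obtain ⟨x, hx⟩ := mem_range_of_fixed σ₁ (Z y) (halg y) (fun τ h => by
    rw [hτ]
    have h' : act τ σ₁ = σ₁ := h
    rw [h', i τ h'])
  have him : Z y = 2 * ((σ₁ y).im + (σ₂ y).im : ℝ) * Complex.I := by
    simp only [Z, ComplexEmbedding.conjugate_coe_eq]
    apply Complex.ext
    · simp
    · simp; ring
  have hq2 : (q : ℝ) = -(2 * ((σ₁ y).im + (σ₂ y).im)) ^ 2 := by
    have h1 : ((q : ℝ) : ℂ) = ((-(2 * ((σ₁ y).im + (σ₂ y).im)) ^ 2 : ℝ) : ℂ) := by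
      push_cast
      rw [hq1, him]
      push_cast
      ring_nf
      rw [Complex.I_sq]
      ring
    exact_mod_cast h1
  have hq3 : (q : ℝ) ≤ 0 := by
    rw [hq2]
    nlinarith [sq_nonneg (2 * ((σ₁ y).im + (σ₂ y).im))]
  have hq4 : q ≠ 0 := by
    rintro rfl
    apply hy
    have : Z y ^ 2 = 0 := by rw [← hq1]; simp
    exact pow_eq_zero_iff (two_ne_zero) |>.1 this
  have hq5 : q < 0 := lt_of_le_of_ne (by exact_mod_cast hq3) hq4
  apply hq x q hq5
  apply σ₁.injective
  rw [map_pow, hx, ← hq1]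
  simp

/-- Two non-isomorphic imaginary quadratic fields: some automorphism of `ℂ` is trivial on the
first and is complex conjugation on the second. -/
theorem exists_sep {L' : Type*} [Field L'] [NumberField L'] [IsCMField L] [IsCMField L']
    (hdeg : Module.finrank ℚ L = 2) (hdeg' : Module.finrank ℚ L' = 2)
    (hiso : IsEmpty (L ≃+* L')) :
    ∃ τ : ℂ ≃+* ℂ, (∀ σ : L →+* ℂ, act τ σ = σ) ∧
      ∀ σ : L' →+* ℂ, act τ σ = ComplexEmbedding.conjugate σ := by
  by_contra hno
  have σ₁ : L →+* ℂ := Classical.choice inferInstance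
  have σ₂ : L' →+* ℂ := Classical.choice inferInstance
  have h1 : ∀ τ : ℂ ≃+* ℂ, act τ σ₁ = σ₁ → act τ σ₂ = σ₂ := by
    intro τ h
    rcases eq_or_of_two hdeg' σ₂ (act τ σ₂) with h2 | h2
    · exact h2
    · exfalso
      refine hno ⟨τ, fun σ => ?_, fun σ => ?_⟩
      · rcases eq_or_of_two hdeg σ₁ σ with rfl | rfl
        · exact h
        · rw [act_cc, h]
      · rcases eq_or_of_two hdeg' σ₂ σ with rfl | rfl
        · exact h2
        · rw [act_cc, h2]
  have h2 : ∀ y : L', ∃ x : L, σ₁ x = σ₂ y := fun y =>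
    mem_range_of_fixed σ₁ (σ₂ y) (isAlgebraic_emb σ₂ y) fun τ h => RingHom.congr_fun (h1 τ h) y
  choose φ hφ using h2
  let ψ : L' →+* L :=
    { toFun := φ
      map_one' := σ₁.injective (by rw [hφ, map_one, map_one])
      map_mul' := fun a b => σ₁.injective (by rw [hφ, map_mul, map_mul, hφ, hφ])
      map_zero' := σ₁.injective (by rw [hφ, map_zero, map_zero])
      map_add' := fun a b => σ₁.injective (by rw [hφ, map_add, map_add, hφ, hφ]) }
  have h3 : Function.Injective ψ.toRatAlgHom.toLinearMap := ψ.injective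
  have h4 : Function.Surjective ψ.toRatAlgHom.toLinearMap :=
    (LinearMap.injective_iff_surjective_of_finrank_eq_finrank (hdeg'.trans hdeg.symm)).1 h3
  exact hiso.elim (RingEquiv.ofBijective ψ ⟨ψ.injective, h4⟩).symm

end Pool.Agent.Helper84
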