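import Pool.Agent.Helper84.CMGal
import Pool.Agent.Helper7.Cohomology

/-!
Pairing of the slots of a four-form on a product of CM abelian varieties of total dimension at
most `4` whose simple factors are elliptic curves or surfaces.
-/

namespace Pool.Agent.Helper84

open NumberField Pool.Agent.GPC

section xi

variable {I : Type} {L : I → Type} [∀ i, Field (L i)]

/-- complex conjugation on embeddings -/
def conjT (t : Emb L) : Emb L := ⟨t.1, ComplexEmbedding.conjugate t.2⟩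

lemma conjT_conjT (t : Emb L) : conjT (conjT t) = t := by
  obtain ⟨i, σ⟩ := t
  show (⟨i, ComplexEmbedding.conjugate (ComplexEmbedding.conjugate σ)⟩ : Emb L) = ⟨i, σ⟩
  rw [cc_cc]

open Classical in
/-- the odd function `δ_s - δ_(conj s)` -/
noncomputable def xi (s t : Emb L) : ℚ :=
  (if s = t then 1 else 0) - (if conjT s = t then 1 else 0)

lemma xi_conj_left (s t : Emb L) : xi (conjT s) t = - xi s t := by
  unfold xi
  rw [conjT_conjT]
  ring

lemma xi_conj_right (s t : Emb L) : xi s (conjT t) = - xi s t := by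
  classical
  unfold xi
  have h1 : s = conjT t ↔ conjT s = t := by
    constructor
    · rintro rfl; exact conjT_conjT t
    · rintro rfl; exact (conjT_conjT s).symm
  have h2 : conjT s = conjT t ↔ s = t := by
    constructor
    · intro h
      have := congrArg conjT h
      rwa [conjT_conjT, conjT_conjT] at this
    · rintro rfl; rfl
  simp only [h1, h2]
  ring

lemma xi_odd (s : Emb L) : IsOdd L (xi s) := fun i σ => xi_conj_right s ⟨i, σ⟩

lemma xi_self {s : Emb L} (h : conjT s ≠ s) : xi s s = 1 := by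
  classical
  unfold xi
  rw [if_pos rfl, if_neg h, sub_zero]

lemma xi_eq_zero {s t : Emb L} (h : s ≠ t) (h' : conjT s ≠ t) : xi s t = 0 := by
  classical
  unfold xi
  rw [if_neg h, if_neg h', sub_zero]

lemma xi_off {s : Emb L} {k : I} (h : s.1 ≠ k) (σ : L k →+* ℂ) : xi s ⟨k, σ⟩ = 0 := by
  apply xi_eq_zero
  · rintro rfl; exact h rfl
  · intro e
    exact h (congrArg Sigma.fst e)

lemma isOdd_add {u v : Emb L → ℚ} (hu : IsOdd L u) (hv : IsOdd L v) : IsOdd L (u + v) :=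
  fun i σ => by
    rw [Pi.add_apply, Pi.add_apply, hu, hv]; ring

lemma isOdd_smul {u : Emb L → ℚ} (c : ℚ) (hu : IsOdd L u) : IsOdd L (c • u) :=
  fun i σ => by
    rw [Pi.smul_apply, Pi.smul_apply, hu, smul_neg]

lemma isOdd_zero' : IsOdd L (0 : Emb L → ℚ) := fun i σ => by simp

end xi

section ext

variable {I : Type} {L : I → Type} [∀ i, Field (L i)]

/-- `f` and `g` agree on the component `i` -/
def AgreeAt (f g : Emb L → ℚ) (i : I) : Prop := ∀ σ : L i →+* ℂ, f ⟨i, σ⟩ = g ⟨i, σ⟩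

lemma agree_two {f g : Emb L → ℚ} (hf : IsOdd L f) (hg : IsOdd L g) (i : I) [NumberField (L i)]
    [IsCMField (L i)] (hdeg : Module.finrank ℚ (L i) = 2) (σ₀ : L i →+* ℂ)
    (h : f ⟨i, σ₀⟩ = g ⟨i, σ₀⟩) : AgreeAt f g i := by
  intro σ
  rcases eq_or_of_two hdeg σ₀ σ with rfl | rfl
  · exact h
  · rw [hf, hg, h]

lemma agree_four {f g : Emb L → ℚ} (hf : IsOdd L f) (hg : IsOdd L g) (i : I) [NumberField (L i)]
    [IsCMField (L i)] (hdeg : Module.finrank ℚ (L i) = 4) {σ₁ σ₂ : L i →+* ℂ}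
    (h21 : σ₂ ≠ σ₁) (h21' : σ₂ ≠ ComplexEmbedding.conjugate σ₁)
    (h1 : f ⟨i, σ₁⟩ = g ⟨i, σ₁⟩) (h2 : f ⟨i, σ₂⟩ = g ⟨i, σ₂⟩) : AgreeAt f g i := by
  intro σ
  rcases eq_or_of_four hdeg h21 h21' σ with rfl | rfl | rfl | rfl
  · exact h1
  · rw [hf, hg, h1]
  · exact h2
  · rw [hf, hg, h2]

lemma eq_of_agree {f g : Emb L → ℚ} (h : ∀ i, AgreeAt f g i) : f = g := by
  funext ⟨i, σ⟩
  exact h i σ

end ext

section irr

variable {I : Type} {L : I → Type} [∀ i, Field (L i)] {U : Submodule ℚ (Emb L → ℚ)}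

lemma irr_two (hU : IsOddModule L U) (i : I) [NumberField (L i)] [IsCMField (L i)]
    (hdeg : Module.finrank ℚ (L i) = 2)
    (hT : ∃ w, IsOdd L w ∧ (∀ j σ, j ≠ i → w ⟨j, σ⟩ = 0) ∧ w ∉ U) (u : Emb L → ℚ) (hu : u ∈ U)
    (hs : ∀ j σ, j ≠ i → u ⟨j, σ⟩ = 0) : u = 0 := by
  by_contra hne
  obtain ⟨w, hw1, hw2, hw3⟩ := hT
  have σ₀ : L i →+* ℂ := Classical.choice inferInstance
  have ha : u ⟨i, σ₀⟩ ≠ 0 := by
    intro h0
    apply hne
    refine eq_of_agree fun j => ?_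
    by_cases hj : j = i
    · subst hj
      exact agree_two (hU u hu).1 isOdd_zero' j hdeg σ₀ h0
    · exact fun σ => hs j σ hj
  apply hw3
  have h1 : w = (w ⟨i, σ₀⟩ / u ⟨i, σ₀⟩) • u := by
    refine eq_of_agree fun j => ?_
    by_cases hj : j = i
    · subst hj
      refine agree_two hw1 (isOdd_smul _ (hU u hu).1) j hdeg σ₀ ?_
      rw [Pi.smul_apply, smul_eq_mul, div_mul_cancel₀ _ ha]
    · intro σ
      rw [Pi.smul_apply, hs j σ hj, hw2 j σ hj, smul_zero]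
  rw [h1]
  exact U.smul_mem _ hu

lemma irr_four (hU : IsOddModule L U) (i : I) [NumberField (L i)] [IsCMField (L i)]
    (hdeg : Module.finrank ℚ (L i) = 4) (τ : ℂ ≃+* ℂ)
    (hτ : ∀ σ : L i →+* ℂ, act τ (act τ σ) = ComplexEmbedding.conjugate σ)
    (hT : ∃ w, IsOdd L w ∧ (∀ j σ, j ≠ i → w ⟨j, σ⟩ = 0) ∧ w ∉ U) (u : Emb L → ℚ) (hu : u ∈ U)
    (hs : ∀ j σ, j ≠ i → u ⟨j, σ⟩ = 0) : u = 0 := by
  by_contra hne
  obtain ⟨w, hw1, hw2, hw3⟩ := hT
  have σ₁ : L i →+* ℂ := Classical.choice inferInstance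
  have h21 : act τ σ₁ ≠ σ₁ := fun h => by
    have h1 := hτ σ₁
    rw [h, h] at h1
    exact cc_ne σ₁ h1.symm
  have h21' : act τ σ₁ ≠ ComplexEmbedding.conjugate σ₁ := fun h => by
    have h1 := hτ σ₁
    rw [h, act_cc, h, cc_cc] at h1
    exact cc_ne σ₁ h1.symm
  have hodd := (hU u hu).1
  have hu' := (hU u hu).2 τ
  have hodd' := (hU _ hu').1
  have e1 : translate L τ u ⟨i, σ₁⟩ = u ⟨i, act τ σ₁⟩ := rfl
  have e2 : translate L τ u ⟨i, act τ σ₁⟩ = - u ⟨i, σ₁⟩ := by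
    have : translate L τ u ⟨i, act τ σ₁⟩ = u ⟨i, act τ (act τ σ₁)⟩ := rfl
    rw [this, hτ, hodd]
  obtain ⟨a, ha⟩ : ∃ a, a = u ⟨i, σ₁⟩ := ⟨_, rfl⟩
  obtain ⟨b, hb⟩ : ∃ b, b = u ⟨i, act τ σ₁⟩ := ⟨_, rfl⟩
  have hab : a ^ 2 + b ^ 2 ≠ 0 := by
    intro h0
    have ha0 : a = 0 := by nlinarith [sq_nonneg a, sq_nonneg b]
    have hb0 : b = 0 := by nlinarith [sq_nonneg a, sq_nonneg b]
    apply hne
    refine eq_of_agree fun j => ?_
    by_cases hj : j = i
    · subst hj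
      exact agree_four hodd isOdd_zero' j hdeg h21 h21' (ha.symm.trans ha0) (hb.symm.trans hb0)
    · exact fun σ => hs j σ hj
  apply hw3
  obtain ⟨c, hc⟩ : ∃ c, c = w ⟨i, σ₁⟩ := ⟨_, rfl⟩
  obtain ⟨d, hd⟩ : ∃ d, d = w ⟨i, act τ σ₁⟩ := ⟨_, rfl⟩
  have h1 : w = ((c * a + d * b) / (a ^ 2 + b ^ 2)) • u +
      ((c * b - d * a) / (a ^ 2 + b ^ 2)) • translate L τ u := by
    refine eq_of_agree fun j => ?_
    by_cases hj : j = i
    · subst hj
      refine agree_four hw1 (isOdd_add (isOdd_smul _ hodd) (isOdd_smul _ hodd')) j hdeg h21 h21' ?_ ?_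
      · rw [Pi.add_apply, Pi.smul_apply, Pi.smul_apply, smul_eq_mul, smul_eq_mul, e1, ← ha, ← hb,
          ← hc]
        field_simp
        ring
      · rw [Pi.add_apply, Pi.smul_apply, Pi.smul_apply, smul_eq_mul, smul_eq_mul, e2, ← ha, ← hb,
          ← hd]
        field_simp
        ring
    · intro σ
      have h3 : translate L τ u ⟨j, σ⟩ = 0 := hs j _ hj
      rw [Pi.add_apply, Pi.smul_apply, Pi.smul_apply, h3, hs j σ hj, hw2 j σ hj, smul_zero,
        smul_zero, add_zero]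
  rw [h1]
  exact U.add_mem (U.smul_mem _ hu) (U.smul_mem _ hu')

end irr

section sep

variable {I : Type} {L : I → Type} [∀ i, Field (L i)]

/-- `u ↦ u + ε τ u` doubles the component `i` and kills the component `j` -/
def Separates (L : I → Type) [∀ i, Field (L i)] (i j : I) (τ : ℂ ≃+* ℂ) (ε : ℚ) : Prop :=
  (∀ u, IsOdd L u → ∀ σ : L i →+* ℂ, u ⟨i, σ⟩ + ε * u ⟨i, act τ σ⟩ = 2 * u ⟨i, σ⟩) ∧
    ∀ u, IsOdd L u → ∀ σ : L j →+* ℂ, u ⟨j, σ⟩ + ε * u ⟨j, act τ σ⟩ = 0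

lemma act_act_two {K : Type*} [Field K] [NumberField K] [IsCMField K]
    (hdeg : Module.finrank ℚ K = 2) (τ : ℂ ≃+* ℂ) (σ : K →+* ℂ) : act τ (act τ σ) = σ := by
  rcases eq_or_of_two hdeg σ (act τ σ) with h | h
  · rw [h, h]
  · rw [h, act_cc, h, cc_cc]

lemma separates_two_two (i j : I) [NumberField (L i)] [IsCMField (L i)] [NumberField (L j)]
    [IsCMField (L j)] (hi : Module.finrank ℚ (L i) = 2) (hj : Module.finrank ℚ (L j) = 2)
    (hiso : IsEmpty (L i ≃+* L j)) : ∃ τ ε, Separates L i j τ ε := by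
  obtain ⟨τ, h1, h2⟩ := exists_sep hi hj hiso
  refine ⟨τ, 1, fun u hu σ => ?_, fun u hu σ => ?_⟩
  · rw [h1]; ring
  · rw [h2, hu]; ring

lemma separates_two_four (i j : I) [NumberField (L i)] [IsCMField (L i)]
    (hi : Module.finrank ℚ (L i) = 2) (τ : ℂ ≃+* ℂ)
    (hτ : ∀ σ : L j →+* ℂ, act τ (act τ σ) = ComplexEmbedding.conjugate σ) :
    ∃ τ ε, Separates L i j τ ε := by
  refine ⟨τ.trans τ, 1, fun u hu σ => ?_, fun u hu σ => ?_⟩
  · rw [act_trans, act_act_two hi]; ring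
  · rw [act_trans, hτ, hu]; ring

lemma separates_four_two (i j : I) [NumberField (L j)] [IsCMField (L j)]
    (hj : Module.finrank ℚ (L j) = 2) (τ : ℂ ≃+* ℂ)
    (hτ : ∀ σ : L i →+* ℂ, act τ (act τ σ) = ComplexEmbedding.conjugate σ) :
    ∃ τ ε, Separates L i j τ ε := by
  refine ⟨τ.trans τ, -1, fun u hu σ => ?_, fun u hu σ => ?_⟩
  · rw [act_trans, hτ, hu]; ring
  · rw [act_trans, act_act_two hj]; ring

lemma exists_isolated {U : Submodule ℚ (Emb L → ℚ)} (hU : IsOddModule L U) (i : I) (J : Finset I)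
    (hJ : ∀ j ∈ J, ∃ τ ε, Separates L i j τ ε) (u : Emb L → ℚ) (hu : u ∈ U) :
    ∃ u' ∈ U, ∃ c : ℚ, c ≠ 0 ∧ (∀ σ, u' ⟨i, σ⟩ = c * u ⟨i, σ⟩) ∧ (∀ j ∈ J, ∀ σ, u' ⟨j, σ⟩ = 0) ∧
      ∀ k, (∀ σ, u ⟨k, σ⟩ = 0) → ∀ σ, u' ⟨k, σ⟩ = 0 := by
  classical
  induction J using Finset.induction_on with
  | empty =>
    refine ⟨u, hu, 1, one_ne_zero, fun σ => by rw [one_mul], fun j hj => ?_, fun k hk => hk⟩
    exact absurd hj (Finset.notMem_empty j)
  | insert j J hjJ ih =>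
    obtain ⟨u', hu', c, hc, h1, h2, h3⟩ := ih fun j hj => hJ j (Finset.mem_insert_of_mem hj)
    obtain ⟨τ, ε, hs1, hs2⟩ := hJ j (Finset.mem_insert_self j J)
    have hodd := (hU u' hu').1
    have hval : ∀ (k : I) (σ : L k →+* ℂ), (u' + ε • translate L τ u') ⟨k, σ⟩ =
        u' ⟨k, σ⟩ + ε * u' ⟨k, act τ σ⟩ := fun k σ => rfl
    refine ⟨u' + ε • translate L τ u', U.add_mem hu' (U.smul_mem _ ((hU u' hu').2 τ)), 2 * c,
      mul_ne_zero two_ne_zero hc, fun σ => ?_, fun k hk σ => ?_, fun k hk σ => ?_⟩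
    · rw [hval, hs1 u' hodd σ, h1, mul_assoc]
    · rw [hval]
      rcases Finset.mem_insert.1 hk with rfl | hk'
      · exact hs2 u' hodd σ
      · rw [h2 k hk', h2 k hk', mul_zero, add_zero]
    · rw [hval, h3 k hk, h3 k hk, mul_zero, add_zero]

end sep

lemma exists_perm_pair (r r' : Fin 4) (h : r ≠ r') : ∃ π : Equiv.Perm (Fin 4), π 0 = r ∧ π 1 = r' := by
  revert r r'
  decide

lemma exists_perm_split_aux (b0 b1 b2 b3 : Bool)
    (h : b0.toNat + b1.toNat + b2.toNat + b3.toNat = 2) :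
    ∃ π : Equiv.Perm (Fin 4), ![b0, b1, b2, b3] (π 0) = true ∧ ![b0, b1, b2, b3] (π 1) = true ∧
      ![b0, b1, b2, b3] (π 2) = false ∧ ![b0, b1, b2, b3] (π 3) = false := by
  revert b0 b1 b2 b3
  decide

lemma count_two (b0 b1 b2 b3 : Bool) (h1 : ¬ (b0 = true ∧ b1 = true ∧ b2 = true))
    (h2 : ¬ (b0 = true ∧ b1 = true ∧ b3 = true)) (h3 : ¬ (b0 = true ∧ b2 = true ∧ b3 = true))
    (h4 : ¬ (b1 = true ∧ b2 = true ∧ b3 = true)) (g1 : ¬ (b0 = false ∧ b1 = false ∧ b2 = false))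
    (g2 : ¬ (b0 = false ∧ b1 = false ∧ b3 = false)) (g3 : ¬ (b0 = false ∧ b2 = false ∧ b3 = false))
    (g4 : ¬ (b1 = false ∧ b2 = false ∧ b3 = false)) :
    b0.toNat + b1.toNat + b2.toNat + b3.toNat = 2 := by
  cases b0 <;> cases b1 <;> cases b2 <;> cases b3 <;> simp_all

lemma exists_perm_split (f : Fin 4 → Bool)
    (h1 : ∀ a b c : Fin 4, a ≠ b → a ≠ c → b ≠ c → ¬ (f a = true ∧ f b = true ∧ f c = true))
    (h2 : ∀ a b c : Fin 4, a ≠ b → a ≠ c → b ≠ c → ¬ (f a = false ∧ f b = false ∧ f c = false)) :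
    ∃ π : Equiv.Perm (Fin 4), f (π 0) = true ∧ f (π 1) = true ∧ f (π 2) = false ∧
      f (π 3) = false := by
  obtain ⟨π, hπ⟩ := exists_perm_split_aux (f 0) (f 1) (f 2) (f 3) <| count_two _ _ _ _
    (h1 0 1 2 (by decide) (by decide) (by decide)) (h1 0 1 3 (by decide) (by decide) (by decide))
    (h1 0 2 3 (by decide) (by decide) (by decide)) (h1 1 2 3 (by decide) (by decide) (by decide))
    (h2 0 1 2 (by decide) (by decide) (by decide)) (h2 0 1 3 (by decide) (by decide) (by decide))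
    (h2 0 2 3 (by decide) (by decide) (by decide)) (h2 1 2 3 (by decide) (by decide) (by decide))
  have hf : ![f 0, f 1, f 2, f 3] = f := by
    funext a
    fin_cases a <;> rfl
  rw [hf] at hπ
  exact ⟨π, hπ⟩

section main

variable {I : Type} [Fintype I] [DecidableEq I] {L : I → Type} [∀ i, Field (L i)]
  [∀ i, NumberField (L i)]

omit [Fintype I] [DecidableEq I] [∀ i, NumberField (L i)] in
lemma exists_emb_of_fst {t : Emb L} {i : I} (h : t.1 = i) : ∃ s : L i →+* ℂ, t = ⟨i, s⟩ := by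
  subst h
  exact ⟨t.2, rfl⟩

omit [Fintype I] [DecidableEq I] [∀ i, NumberField (L i)] in
lemma sum_perm (p : Fin 4 → Emb L) (π : Equiv.Perm (Fin 4)) (t : Emb L) :
    ∑ r, xi (p r) t = (xi (p (π 0)) t + xi (p (π 1)) t) + (xi (p (π 2)) t + xi (p (π 3)) t) := by
  rw [← Equiv.sum_comp π, Fin.sum_univ_four]
  ring

omit [Fintype I] [DecidableEq I] in
/-- no three slots in a quartic component -/
lemma no_three (p : Fin 4 → Emb L) (hinj : Function.Injective p)
    (hc : ∀ r r', p r' ≠ conjT (p r)) (k : I) (hcm : IsCMField (L k))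
    (hdeg : Module.finrank ℚ (L k) = 4) (a b c : Fin 4) (hab : a ≠ b) (hac : a ≠ c) (hbc : b ≠ c) :
    ¬ ((p a).1 = k ∧ (p b).1 = k ∧ (p c).1 = k) := by
  rintro ⟨ha, hb, hc'⟩
  obtain ⟨s₁, h1⟩ := exists_emb_of_fst ha
  obtain ⟨s₂, h2⟩ := exists_emb_of_fst hb
  obtain ⟨s₃, h3⟩ := exists_emb_of_fst hc'
  have h21 : s₂ ≠ s₁ := by
    rintro rfl
    exact hab (hinj (h1.trans h2.symm))
  have h21' : s₂ ≠ ComplexEmbedding.conjugate s₁ := by
    rintro rfl
    apply hc a b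
    rw [h2, h1]; rfl
  rcases eq_or_of_four hdeg h21 h21' s₃ with rfl | rfl | rfl | rfl
  · exact hac (hinj (h1.trans h3.symm))
  · apply hc a c
    rw [h3, h1]; rfl
  · exact hbc (hinj (h2.trans h3.symm))
  · apply hc b c
    rw [h3, h2]; rfl

omit [Fintype I] in
/-- the case of two quartic components with two slots in each -/
lemma two_two {U : Submodule ℚ (Emb L → ℚ)} (hU : IsOddModule L U) {i j : I} (hij : i ≠ j)
    (hi : IsCMField (L i)) (hj : IsCMField (L j)) (di : Module.finrank ℚ (L i) = 4)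
    (dj : Module.finrank ℚ (L j) = 4) (τ : ℂ ≃+* ℂ)
    (hτ : ∀ σ : L i →+* ℂ, act τ (act τ σ) = ComplexEmbedding.conjugate σ)
    (hirr : ∀ u ∈ U, (∀ k σ, k ≠ i → u ⟨k, σ⟩ = 0) → u = 0)
    {s₁ s₁' : L i →+* ℂ} {s₂ s₂' : L j →+* ℂ} (h1 : s₁' ≠ s₁)
    (h1' : s₁' ≠ ComplexEmbedding.conjugate s₁) (h2 : s₂' ≠ s₂)
    (h2' : s₂' ≠ ComplexEmbedding.conjugate s₂)
    (hu : (xi ⟨i, s₁⟩ + xi ⟨i, s₁'⟩ + (xi ⟨j, s₂⟩ + xi ⟨j, s₂'⟩) : Emb L → ℚ) ∈ U) :
    ((xi ⟨i, s₁⟩ + xi ⟨j, s₂⟩ : Emb L → ℚ) ∈ U ∧ (xi ⟨i, s₁'⟩ + xi ⟨j, s₂'⟩ : Emb L → ℚ) ∈ U) ∨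
    ((xi ⟨i, s₁⟩ + xi ⟨j, s₂'⟩ : Emb L → ℚ) ∈ U ∧ (xi ⟨i, s₁'⟩ + xi ⟨j, s₂⟩ : Emb L → ℚ) ∈ U) := by
  classical
  -- values
  have vne : ∀ (k : I) (a b : L k →+* ℂ), b ≠ a → b ≠ ComplexEmbedding.conjugate a →
      (xi ⟨k, a⟩ : Emb L → ℚ) ⟨k, b⟩ = 0 := by
    intro k a b hab hab'
    apply xi_eq_zero
    · intro e
      rw [Sigma.mk.injEq] at e
      exact hab (eq_of_heq e.2).symm
    · intro e
      have e' : (⟨k, ComplexEmbedding.conjugate a⟩ : Emb L) = ⟨k, b⟩ := e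
      rw [Sigma.mk.injEq] at e'
      exact hab' (eq_of_heq e'.2).symm
  have vself : ∀ (k : I) (_ : IsCMField (L k)) (a : L k →+* ℂ),
      (xi ⟨k, a⟩ : Emb L → ℚ) ⟨k, a⟩ = 1 := by
    intro k _ a
    apply xi_self
    intro e
    have e' : (⟨k, ComplexEmbedding.conjugate a⟩ : Emb L) = ⟨k, a⟩ := e
    rw [Sigma.mk.injEq] at e'
    exact cc_ne a (eq_of_heq e'.2)
  have voff : ∀ (k l : I) (a : L k →+* ℂ) (b : L l →+* ℂ), k ≠ l →
      (xi ⟨k, a⟩ : Emb L → ℚ) ⟨l, b⟩ = 0 := fun k l a b h => xi_off h b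
  have sym1 : s₁ ≠ ComplexEmbedding.conjugate s₁' := fun e => h1' (by rw [e, cc_cc])
  have sym2 : s₂ ≠ ComplexEmbedding.conjugate s₂' := fun e => h2' (by rw [e, cc_cc])
  obtain ⟨u, hu0⟩ : ∃ u : Emb L → ℚ,
      u = xi ⟨i, s₁⟩ + xi ⟨i, s₁'⟩ + (xi ⟨j, s₂⟩ + xi ⟨j, s₂'⟩) := ⟨_, rfl⟩
  rw [← hu0] at hu
  have hval : ∀ t : Emb L, u t = xi ⟨i, s₁⟩ t + xi ⟨i, s₁'⟩ t + (xi ⟨j, s₂⟩ t + xi ⟨j, s₂'⟩ t) := by
    intro t; rw [hu0]; rfl
  have a1 : u ⟨i, s₁⟩ = 1 := by
    rw [hval, vself i hi, vne i s₁' s₁ h1.symm sym1, voff j i _ _ hij.symm, voff j i _ _ hij.symm]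
    ring
  have a1' : u ⟨i, s₁'⟩ = 1 := by
    rw [hval, vself i hi, vne i s₁ s₁' h1 h1', voff j i _ _ hij.symm, voff j i _ _ hij.symm]
    ring
  have a2 : u ⟨j, s₂⟩ = 1 := by
    rw [hval, vself j hj, vne j s₂' s₂ h2.symm sym2, voff i j _ _ hij, voff i j _ _ hij]
    ring
  have a2' : u ⟨j, s₂'⟩ = 1 := by
    rw [hval, vself j hj, vne j s₂ s₂' h2 h2', voff i j _ _ hij, voff i j _ _ hij]
    ring
  have aoff : ∀ (k : I) (σ : L k →+* ℂ), k ≠ i → k ≠ j → u ⟨k, σ⟩ = 0 := by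
    intro k σ hki hkj
    rw [hval, voff i k _ _ hki.symm, voff i k _ _ hki.symm, voff j k _ _ hkj.symm,
      voff j k _ _ hkj.symm]
    ring
  have hodd := (hU u hu).1
  obtain ⟨v, hv0⟩ : ∃ v : Emb L → ℚ, v = translate L τ u := ⟨_, rfl⟩
  have hv : v ∈ U := by rw [hv0]; exact (hU u hu).2 τ
  have hvodd := (hU v hv).1
  have hvval : ∀ (k : I) (σ : L k →+* ℂ), v ⟨k, σ⟩ = u ⟨k, act τ σ⟩ := by
    intro k σ; rw [hv0]; rfl
  have hη : ∃ η : ℚ, (η = 1 ∨ η = -1) ∧ v ⟨i, s₁⟩ = η ∧ v ⟨i, s₁'⟩ = -η := by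
    rcases eq_or_of_four di h1 h1' (act τ s₁) with h | h | h | h
    · exfalso
      have h3 := hτ s₁
      rw [h, h] at h3
      exact cc_ne s₁ h3.symm
    · exfalso
      have h3 := hτ s₁
      rw [h, act_cc, h, cc_cc] at h3
      exact cc_ne s₁ h3.symm
    · refine ⟨1, Or.inl rfl, ?_, ?_⟩
      · rw [hvval, h, a1']
      · rw [hvval, ← h, hτ, hodd, a1]
    · refine ⟨-1, Or.inr rfl, ?_, ?_⟩
      · rw [hvval, h, hodd, a1']
      · have h3 : s₁' = ComplexEmbedding.conjugate (act τ s₁) := by rw [h, cc_cc]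
        rw [hvval, h3, act_cc, hτ, cc_cc, a1]
        ring
  have hpm : ∀ s : L j →+* ℂ, u ⟨j, s⟩ = 1 ∨ u ⟨j, s⟩ = -1 := by
    intro s
    rcases eq_or_of_four dj h2 h2' s with rfl | rfl | rfl | rfl
    · left; exact a2
    · right; rw [hodd, a2]
    · left; exact a2'
    · right; rw [hodd, a2']
  obtain ⟨η, hη1, b1, b1'⟩ := hη
  obtain ⟨e, he⟩ : ∃ e : ℚ, e = v ⟨j, s₂⟩ := ⟨_, rfl⟩
  obtain ⟨e', he'⟩ : ∃ e' : ℚ, e' = v ⟨j, s₂'⟩ := ⟨_, rfl⟩
  have he1 : e = 1 ∨ e = -1 := by rw [he, hvval]; exact hpm _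
  have he1' : e' = 1 ∨ e' = -1 := by rw [he', hvval]; exact hpm _
  have ee : e' = -e := by
    by_contra hne
    have hee : e' = e := by
      rcases he1 with h | h <;> rcases he1' with h' | h'
      · rw [h, h']
      · exact (hne (by rw [h, h'])).elim
      · exact (hne (by rw [h, h']; norm_num)).elim
      · rw [h, h']
    have h3 : u - e • v = 0 := by
      apply hirr _ (U.sub_mem hu (U.smul_mem _ hv))
      intro k σ hk
      by_cases hkj : k = j
      · subst hkj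
        have h4 : AgreeAt u (e • v) k := by
          refine agree_four hodd (isOdd_smul _ hvodd) k dj h2 h2' ?_ ?_
          · rw [Pi.smul_apply, ← he, a2, smul_eq_mul]
            rcases he1 with h | h <;> rw [h] <;> norm_num
          · rw [Pi.smul_apply, ← he', a2', hee, smul_eq_mul]
            rcases he1 with h | h <;> rw [h] <;> norm_num
        rw [Pi.sub_apply, h4 σ, sub_self]
      · rw [Pi.sub_apply, Pi.smul_apply, hvval, aoff k _ hk hkj, aoff k _ hk hkj, smul_zero,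
          sub_zero]
    have h4 : 1 - e * η = 0 := by
      have : (u - e • v) ⟨i, s₁⟩ = 0 := congrFun h3 ⟨i, s₁⟩
      rwa [Pi.sub_apply, Pi.smul_apply, a1, b1, smul_eq_mul] at this
    have h5 : 1 + e * η = 0 := by
      have : (u - e • v) ⟨i, s₁'⟩ = 0 := congrFun h3 ⟨i, s₁'⟩
      rw [Pi.sub_apply, Pi.smul_apply, a1', b1', smul_eq_mul] at this
      linear_combination this
    have h6 : (2 : ℚ) = 0 := by linear_combination h4 + h5
    norm_num at h6
  -- extensionality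
  have hext : ∀ f g : Emb L → ℚ, IsOdd L f → IsOdd L g →
      (∀ (k : I) (σ : L k →+* ℂ), k ≠ i → k ≠ j → f ⟨k, σ⟩ = g ⟨k, σ⟩) →
      f ⟨i, s₁⟩ = g ⟨i, s₁⟩ → f ⟨i, s₁'⟩ = g ⟨i, s₁'⟩ → f ⟨j, s₂⟩ = g ⟨j, s₂⟩ →
      f ⟨j, s₂'⟩ = g ⟨j, s₂'⟩ → f = g := by
    intro f g hf hg hoff g1 g1' g2 g2'
    refine eq_of_agree fun k => ?_
    by_cases hki : k = i
    · subst hki
      exact agree_four hf hg k di h1 h1' g1 g1'
    · by_cases hkj : k = j
      · subst hkj
        exact agree_four hf hg k dj h2 h2' g2 g2'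
      · exact fun σ => hoff k σ hki hkj
  have voff2 : ∀ (a : L i →+* ℂ) (b : L j →+* ℂ) (k : I) (σ : L k →+* ℂ), k ≠ i → k ≠ j →
      (xi ⟨i, a⟩ + xi ⟨j, b⟩ : Emb L → ℚ) ⟨k, σ⟩ = 0 := by
    intro a b k σ hki hkj
    rw [Pi.add_apply, voff i k _ _ hki.symm, voff j k _ _ hkj.symm, add_zero]
  have aoff2 : ∀ (c : ℚ) (k : I) (σ : L k →+* ℂ), k ≠ i → k ≠ j →
      ((1 / 2 : ℚ) • (u + c • v)) ⟨k, σ⟩ = 0 := by
    intro c k σ hki hkj
    rw [Pi.smul_apply, Pi.add_apply, Pi.smul_apply, hvval, aoff k _ hki hkj, aoff k _ hki hkj,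
      smul_zero, add_zero, smul_zero]
  have hmem : ∀ c : ℚ, (1 / 2 : ℚ) • (u + c • v) ∈ U := fun c =>
    U.smul_mem _ (U.add_mem hu (U.smul_mem _ hv))
  have hoddc : ∀ c : ℚ, IsOdd L ((1 / 2 : ℚ) • (u + c • v)) := fun c =>
    isOdd_smul _ (isOdd_add hodd (isOdd_smul _ hvodd))
  have hηη : η * η = 1 := by rcases hη1 with h | h <;> rw [h] <;> norm_num
  have hprod : η * e = 1 ∨ η * e = -1 := by
    rcases hη1 with h | h <;> rcases he1 with h' | h' <;> rw [h, h'] <;> norm_num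
  -- generic identification
  have hid : ∀ (c : ℚ) (a : L i →+* ℂ) (b : L j →+* ℂ),
      (xi ⟨i, a⟩ : Emb L → ℚ) ⟨i, s₁⟩ = (1 + c * η) / 2 →
      (xi ⟨i, a⟩ : Emb L → ℚ) ⟨i, s₁'⟩ = (1 - c * η) / 2 →
      (xi ⟨j, b⟩ : Emb L → ℚ) ⟨j, s₂⟩ = (1 + c * e) / 2 →
      (xi ⟨j, b⟩ : Emb L → ℚ) ⟨j, s₂'⟩ = (1 - c * e) / 2 →
      (xi ⟨i, a⟩ + xi ⟨j, b⟩ : Emb L → ℚ) ∈ U := by
    intro c a b q1 q1' q2 q2'
    have : (xi ⟨i, a⟩ + xi ⟨j, b⟩ : Emb L → ℚ) = (1 / 2 : ℚ) • (u + c • v) := by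
      apply hext _ _ (isOdd_add (xi_odd _) (xi_odd _)) (hoddc c)
      · intro k σ hki hkj
        rw [voff2 a b k σ hki hkj, aoff2 c k σ hki hkj]
      · rw [Pi.add_apply, Pi.smul_apply, Pi.add_apply, Pi.smul_apply, q1, voff j i _ _ hij.symm, a1,
          b1, smul_eq_mul, smul_eq_mul]
        ring
      · rw [Pi.add_apply, Pi.smul_apply, Pi.add_apply, Pi.smul_apply, q1', voff j i _ _ hij.symm,
          a1', b1', smul_eq_mul, smul_eq_mul]
        ring
      · rw [Pi.add_apply, Pi.smul_apply, Pi.add_apply, Pi.smul_apply, q2, voff i j _ _ hij, a2,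
          ← he, smul_eq_mul, smul_eq_mul]
        ring
      · rw [Pi.add_apply, Pi.smul_apply, Pi.add_apply, Pi.smul_apply, q2', voff i j _ _ hij, a2',
          ← he', ee, smul_eq_mul, smul_eq_mul]
        ring
    rw [this]
    exact hmem c
  rcases hprod with hp | hp
  · left
    constructor
    · apply hid η
      · rw [vself i hi, hηη]; norm_num
      · rw [vne i _ _ h1 h1', hηη]; norm_num
      · rw [vself j hj, hp]; norm_num
      · rw [vne j _ _ h2 h2', hp]; norm_num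
    · apply hid (-η)
      · rw [vne i _ _ h1.symm sym1]; linear_combination (1 / 2 : ℚ) * hηη
      · rw [vself i hi]; linear_combination (-1 / 2 : ℚ) * hηη
      · rw [vne j _ _ h2.symm sym2]; linear_combination (1 / 2 : ℚ) * hp
      · rw [vself j hj]; linear_combination (-1 / 2 : ℚ) * hp
  · right
    constructor
    · apply hid η
      · rw [vself i hi, hηη]; norm_num
      · rw [vne i _ _ h1 h1', hηη]; norm_num
      · rw [vne j _ _ h2.symm sym2, hp]; norm_num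
      · rw [vself j hj, hp]; norm_num
    · apply hid (-η)
      · rw [vne i _ _ h1.symm sym1]; linear_combination (1 / 2 : ℚ) * hηη
      · rw [vself i hi]; linear_combination (-1 / 2 : ℚ) * hηη
      · rw [vself j hj]; linear_combination (1 / 2 : ℚ) * hp
      · rw [vne j _ _ h2 h2']; linear_combination (-1 / 2 : ℚ) * hp


open Classical in
/-- Slots of a `4`-form on a product of CM abelian varieties, of total dimension at most `4`, with
simple factors of dimension at most `2` (for the surfaces: without imaginary quadratic subfield):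
a relation between the four characters splits in two relations between two characters. -/
theorem cm_match (L : I → Type) [∀ i, Field (L i)] [∀ i, NumberField (L i)] (n : I → ℕ)
    (hcm : ∀ i, n i ≠ 0 → NumberField.IsCMField (L i))
    (hdeg : ∀ i, n i ≠ 0 → Module.finrank ℚ (L i) = 2 ∨ Module.finrank ℚ (L i) = 4)
    (hquart : ∀ i, n i ≠ 0 → Module.finrank ℚ (L i) = 4 →
      ∀ (x : L i) (q : ℚ), q < 0 → x ^ 2 ≠ (q : L i))
    (hquad : ∀ i j, i ≠ j → n i ≠ 0 → n j ≠ 0 → Module.finrank ℚ (L i) = 2 →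
      Module.finrank ℚ (L j) = 2 → IsEmpty (L i ≃+* L j))
    (hdim : ∑ i, n i * Module.finrank ℚ (L i) ≤ 8) (U : Submodule ℚ (Emb L → ℚ))
    (hU : IsOddModule L U)
    (hT : ∀ i, n i ≠ 0 → ∃ w, IsOdd L w ∧ (∀ j σ, j ≠ i → w ⟨j, σ⟩ = 0) ∧ w ∉ U)
    (p : Fin 4 → Emb L) (hp : ∀ t, (Finset.univ.filter fun r => p r = t).card ≤ n t.1)
    (hpU : (fun t => ∑ r, xi (p r) t) ∈ U) :
    ∃ π : Equiv.Perm (Fin 4), (fun t => xi (p (π 0)) t + xi (p (π 1)) t) ∈ U ∧
      (fun t => xi (p (π 2)) t + xi (p (π 3)) t) ∈ U := by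
  by_cases hc : ∃ r r', r ≠ r' ∧ p r' = conjT (p r)
  · obtain ⟨r, r', hne, h⟩ := hc
    obtain ⟨π, h0, h1⟩ := exists_perm_pair r r' hne
    have h2 : ∀ t, xi (p (π 0)) t + xi (p (π 1)) t = 0 := fun t => by
      rw [h0, h1, h, xi_conj_left, add_neg_cancel]
    refine ⟨π, ?_, ?_⟩
    · have h3 : (fun t => xi (p (π 0)) t + xi (p (π 1)) t) = 0 := funext h2
      rw [h3]
      exact U.zero_mem
    · have h3 : (fun t => xi (p (π 2)) t + xi (p (π 3)) t) = fun t => ∑ r, xi (p r) t :=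
        funext fun t => by rw [sum_perm p π t, h2 t, zero_add]
      rw [h3]
      exact hpU
  have hn : ∀ r, n (p r).1 ≠ 0 := by
    intro r h0
    have h1 := hp (p r)
    rw [h0] at h1
    have h2 : r ∈ Finset.univ.filter fun r' => p r' = p r := by simp
    have h3 := Finset.card_pos.2 ⟨r, h2⟩
    omega
  have hself : ∀ r, conjT (p r) ≠ p r := by
    intro r e
    have := hcm _ (hn r)
    obtain ⟨s, hs⟩ := exists_emb_of_fst (L := L) (t := p r) rfl
    rw [hs] at e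
    have e' : (⟨(p r).1, ComplexEmbedding.conjugate s⟩ : Emb L) = ⟨(p r).1, s⟩ := e
    rw [Sigma.mk.injEq] at e'
    exact cc_ne s (eq_of_heq e'.2)
  have hc' : ∀ r r', p r' ≠ conjT (p r) := by
    intro r r' e
    by_cases hr : r = r'
    · subst hr
      exact hself r e.symm
    · exact hc ⟨r, r', hr, e⟩
  -- automorphisms for the quartic components
  have hsq : ∀ i, n i ≠ 0 → Module.finrank ℚ (L i) = 4 → ∃ τ : ℂ ≃+* ℂ, ∀ σ : L i →+* ℂ,
      act τ (act τ σ) = ComplexEmbedding.conjugate σ := by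
    intro i hi h4
    have := hcm i hi
    exact exists_sq_conj h4 (hquart i hi h4)
  have hirr : ∀ i, n i ≠ 0 → ∀ u ∈ U, (∀ k σ, k ≠ i → u ⟨k, σ⟩ = 0) → u = 0 := by
    intro i hi u hu hs
    have := hcm i hi
    rcases hdeg i hi with h2 | h4
    · exact irr_two hU i h2 (hT i hi) u hu hs
    · obtain ⟨τ, hτ⟩ := hsq i hi h4
      exact irr_four hU i h4 τ hτ (hT i hi) u hu hs
  by_cases h4 : ∃ i j, i ≠ j ∧ n i ≠ 0 ∧ n j ≠ 0 ∧ Module.finrank ℚ (L i) = 4 ∧
      Module.finrank ℚ (L j) = 4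
  · -- two quartic components
    obtain ⟨i, j, hij, hi, hj, di, dj⟩ := h4
    have hb : ∀ k, k ≠ i → k ≠ j → n k = 0 := by
      intro k hki hkj
      have h1 : ∑ l ∈ ({i, j, k} : Finset I), n l * Module.finrank ℚ (L l) ≤ 8 :=
        (Finset.sum_le_sum_of_subset (Finset.subset_univ _)).trans hdim
      rw [Finset.sum_insert (by simp [hij, hki.symm]), Finset.sum_insert (by simp [hkj.symm]),
        Finset.sum_singleton, di, dj] at h1
      have h2 : 0 < Module.finrank ℚ (L k) := Module.finrank_pos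
      by_contra h3
      have h5 : 0 < n k * Module.finrank ℚ (L k) := Nat.mul_pos (Nat.pos_of_ne_zero h3) h2
      omega
    have hb2 : n i = 1 ∧ n j = 1 := by
      have h1 : ∑ l ∈ ({i, j} : Finset I), n l * Module.finrank ℚ (L l) ≤ 8 :=
        (Finset.sum_le_sum_of_subset (Finset.subset_univ _)).trans hdim
      rw [Finset.sum_insert (by simp [hij]), Finset.sum_singleton, di, dj] at h1
      omega
    have hcomp : ∀ r, (p r).1 = i ∨ (p r).1 = j := by
      intro r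
      by_contra hno
      push Not at hno
      exact hn r (hb _ hno.1 hno.2)
    have hn1 : ∀ r, n (p r).1 = 1 := by
      intro r
      rcases hcomp r with h | h <;> rw [h]
      · exact hb2.1
      · exact hb2.2
    have hinj : Function.Injective p := by
      intro r r' e
      by_contra hne
      have h1 := hp (p r)
      rw [hn1] at h1
      have h2 : ({r, r'} : Finset (Fin 4)) ⊆ Finset.univ.filter fun a => p a = p r := by
        intro a ha
        rw [Finset.mem_insert, Finset.mem_singleton] at ha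
        rcases ha with rfl | rfl
        · simp
        · simp [e]
      have h3 := Finset.card_le_card h2
      rw [Finset.card_pair hne] at h3
      omega
    obtain ⟨π, p0, p1, p2, p3⟩ := exists_perm_split (fun r => decide ((p r).1 = i))
      (fun a b c hab hac hbc h => by
        simp only [decide_eq_true_eq] at h
        exact no_three p hinj hc' i (hcm i hi) di a b c hab hac hbc h)
      (fun a b c hab hac hbc h => by
        simp only [decide_eq_false_iff_not] at h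
        exact no_three p hinj hc' j (hcm j hj) dj a b c hab hac hbc
          ⟨(hcomp a).resolve_left h.1, (hcomp b).resolve_left h.2.1,
            (hcomp c).resolve_left h.2.2⟩)
    simp only [decide_eq_true_eq, decide_eq_false_iff_not] at p0 p1 p2 p3
    obtain ⟨s₁, q1⟩ := exists_emb_of_fst p0
    obtain ⟨s₁', q1'⟩ := exists_emb_of_fst p1
    obtain ⟨s₂, q2⟩ := exists_emb_of_fst ((hcomp _).resolve_left p2)
    obtain ⟨s₂', q2'⟩ := exists_emb_of_fst ((hcomp _).resolve_left p3)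
    obtain ⟨τ, hτ⟩ := hsq i hi di
    have h1 : s₁' ≠ s₁ := by
      rintro rfl
      have := hinj (q1'.trans q1.symm)
      exact absurd (π.injective this) (by decide)
    have h1' : s₁' ≠ ComplexEmbedding.conjugate s₁ := by
      rintro rfl
      apply hc' (π 0) (π 1)
      rw [q1', q1]; rfl
    have h2 : s₂' ≠ s₂ := by
      rintro rfl
      have := hinj (q2'.trans q2.symm)
      exact absurd (π.injective this) (by decide)
    have h2' : s₂' ≠ ComplexEmbedding.conjugate s₂ := by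
      rintro rfl
      apply hc' (π 2) (π 3)
      rw [q2', q2]; rfl
    have hu : (xi ⟨i, s₁⟩ + xi ⟨i, s₁'⟩ + (xi ⟨j, s₂⟩ + xi ⟨j, s₂'⟩) : Emb L → ℚ) ∈ U := by
      have h3 : (xi ⟨i, s₁⟩ + xi ⟨i, s₁'⟩ + (xi ⟨j, s₂⟩ + xi ⟨j, s₂'⟩) : Emb L → ℚ) =
          fun t => ∑ r, xi (p r) t := by
        funext t
        rw [sum_perm p π t, q1, q1', q2, q2']
        rfl
      rw [h3]
      exact hpU
    rcases two_two hU hij (hcm i hi) (hcm j hj) di dj τ hτ (hirr i hi) h1 h1' h2 h2' hu with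
      ⟨k1, k2⟩ | ⟨k1, k2⟩
    · refine ⟨(Equiv.swap 1 2).trans π, ?_, ?_⟩
      · have e0 : ((Equiv.swap 1 2).trans π) 0 = π 0 := rfl
        have e1 : ((Equiv.swap 1 2).trans π) 1 = π 2 := rfl
        rw [e0, e1, q1, q2]
        exact k1
      · have e0 : ((Equiv.swap 1 2).trans π) 2 = π 1 := rfl
        have e1 : ((Equiv.swap 1 2).trans π) 3 = π 3 := rfl
        rw [e0, e1, q1', q2']
        exact k2
    · refine ⟨(Equiv.swap 1 3).trans π, ?_, ?_⟩
      · have e0 : ((Equiv.swap 1 3).trans π) 0 = π 0 := rfl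
        have e1 : ((Equiv.swap 1 3).trans π) 1 = π 3 := rfl
        rw [e0, e1, q1, q2']
        exact k1
      · have e0 : ((Equiv.swap 1 3).trans π) 2 = π 2 := rfl
        have e1 : ((Equiv.swap 1 3).trans π) 3 = π 1 := rfl
        have e2 : (fun t => xi (p (π 2)) t + xi (p (π 1)) t) =
            (xi ⟨i, s₁'⟩ + xi ⟨j, s₂⟩ : Emb L → ℚ) := by
          funext t
          rw [q1', q2, Pi.add_apply, add_comm]
        rw [e0, e1, e2]
        exact k2
  · -- at most one quartic component: contradiction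
    exfalso
    obtain ⟨u, hu0⟩ : ∃ u : Emb L → ℚ, u = fun t => ∑ r, xi (p r) t := ⟨_, rfl⟩
    rw [← hu0] at hpU
    have hval : ∀ t, u t = ∑ r, xi (p r) t := fun t => by rw [hu0]
    obtain ⟨i, hi⟩ : ∃ i, (p 0).1 = i := ⟨_, rfl⟩
    have hni : n i ≠ 0 := hi ▸ hn 0
    have hJ : ∀ j ∈ (Finset.univ.filter fun j => n j ≠ 0 ∧ j ≠ i), ∃ τ ε, Separates L i j τ ε := by
      intro j hj
      rw [Finset.mem_filter] at hj
      obtain ⟨_, hnj, hji⟩ := hj
      have := hcm i hni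
      have := hcm j hnj
      rcases hdeg i hni with di | di <;> rcases hdeg j hnj with dj | dj
      · exact separates_two_two i j di dj (hquad i j hji.symm hni hnj di dj)
      · obtain ⟨τ, hτ⟩ := hsq j hnj dj
        exact separates_two_four i j di τ hτ
      · obtain ⟨τ, hτ⟩ := hsq i hni di
        exact separates_four_two i j dj τ hτ
      · exact (h4 ⟨i, j, hji.symm, hni, hnj, di, dj⟩).elim
    obtain ⟨u', hu', c, hc0, h1, h2, h3⟩ := exists_isolated hU i _ hJ u hpU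
    have hz : u' = 0 := by
      apply hirr i hni u' hu'
      intro k σ hk
      by_cases hnk : n k = 0
      · apply h3 k
        intro σ'
        rw [hval]
        refine Finset.sum_eq_zero fun r _ => ?_
        apply xi_off
        rintro rfl
        exact hn r hnk
      · exact h2 k (Finset.mem_filter.2 ⟨Finset.mem_univ _, hnk, hk⟩) σ
    obtain ⟨s, hs⟩ := exists_emb_of_fst hi
    have h5 : u ⟨i, s⟩ = 0 := by
      have h6 := h1 s
      rw [hz, Pi.zero_apply] at h6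
      rcases mul_eq_zero.1 h6.symm with h | h
      · exact absurd h hc0
      · exact h
    rw [← hs, hval] at h5
    have h7 : ∀ r, 0 ≤ xi (p r) (p 0) := by
      intro r
      have e : ¬ conjT (p r) = p 0 := fun e => hc' r 0 e.symm
      unfold xi
      rw [if_neg e, sub_zero]
      split_ifs <;> norm_num
    have h8 := (Finset.sum_eq_zero_iff_of_nonneg (fun r _ => h7 r)).1 h5 0 (Finset.mem_univ _)
    rw [xi_self (hself 0)] at h8
    exact one_ne_zero h8

end main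

end Pool.Agent.Helper84
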