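import Pool.Agent.Helper84.NoPair

/-!
Galois equivariance of the kernels of the places.
-/

namespace Pool.Agent.Helper84

open Module NumberField LieAlgebra

attribute [local instance 100] LieRing.ofAssociativeRing

open Pool.Agent.Helper7
open Pool.Agent.GPC (Emb IsOdd IsOddModule translate)
open Pool.Agent.Helper8 (Symp ML2 Inv2 exists_linear)

set_option linter.unusedSectionVars false

section family

variable {I : Type} [Fintype I] [DecidableEq I] (n : I → ℕ)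
  {κ : I → Type} [∀ i, Fintype (κ i)] [∀ i, DecidableEq (κ i)] {ϖ : ℂ}
  (P : ∀ i, PData (κ i) ϖ)
  {K : I → Type} [∀ i, Field (K i)] [∀ i, NumberField (K i)]
  (F : ∀ i, FS (P i) (K i))
  {k : ℕ} (α : MultilinearMap ℂ (fun _ : Fin (2 * k) => HW κ n) ℂ)

/-- the entries of the normalised action at a place -/
noncomputable def ent (X : GG κ) (i : I) (F' : RF (P i) (K i)) (σ : K i →+* ℂ)
    (a b : Fin F'.r) : ℂ :=
  F'.co σ a (X.1 i (F'.e σ b)) - (X.2 / 2) * F'.co σ a (F'.e σ b)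

lemma ent_add (X Y : GG κ) (i : I) (F' : RF (P i) (K i)) (σ : K i →+* ℂ)
    (a b : Fin F'.r) : ent P (X + Y) i F' σ a b = ent P X i F' σ a b + ent P Y i F' σ a b := by
  show F'.co σ a (X.1 i (F'.e σ b) + Y.1 i (F'.e σ b)) -
    ((X.2 + Y.2) / 2) * F'.co σ a (F'.e σ b) = _
  rw [map_add, ent, ent]; ring

lemma ent_smul (c : ℂ) (X : GG κ) (i : I) (F' : RF (P i) (K i)) (σ : K i →+* ℂ)
    (a b : Fin F'.r) : ent P (c • X) i F' σ a b = c * ent P X i F' σ a b := by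
  show F'.co σ a (c • X.1 i (F'.e σ b)) -
    ((c * X.2) / 2) * F'.co σ a (F'.e σ b) = _
  rw [map_smul, ent, smul_eq_mul]; ring

lemma ent_zero (i : I) (F' : RF (P i) (K i)) (σ : K i →+* ℂ)
    (a b : Fin F'.r) : ent P (0 : GG κ) i F' σ a b = 0 := by
  have h := ent_smul P 0 (0 : GG κ) i F' σ a b
  rw [zero_smul, zero_mul] at h
  exact h

lemma comm_of_eq {X : GG κ} (hX : IsInv n P α X) (i : I) (F' : RF (P i) (K i)) : F'.Comm (X.1 i) :=
  fun x v => hX.comm i i _ (F'.hρ x) v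

lemma ent_galois (Y : GG κ) (hY : IsInv n P α Y) (hr : IsRatl P Y) (τ : ℂ ≃+* ℂ) (i : I)
    (F' : RF (P i) (K i)) (σ : K i →+* ℂ) (a b : Fin F'.r) :
    ent P Y i F' ((τ : ℂ →+* ℂ).comp σ) a b = τ (ent P Y i F' σ a b) := by
  classical
  obtain ⟨m, hm⟩ := F'.exists_matK (Y.1 i) (hr.1 i)
  obtain ⟨q, hq⟩ := hr.2
  have hco : ∀ σ : K i →+* ℂ, ent P Y i F' σ a b = σ (m a b) - (q / 2) * (if a = b then 1 else 0) := by
    intro σ
    rw [ent, F'.act_e _ (comm_of_eq n P α hY i F') m hm, map_sum, Finset.sum_eq_single a]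
    · rw [map_smul, F'.co_e, F'.co_e, if_pos ⟨rfl, rfl⟩, smul_eq_mul, mul_one, hq]
      congr 2
      by_cases h : a = b
      · rw [if_pos ⟨rfl, h⟩, if_pos h]
      · rw [if_neg (fun h2 => h h2.2), if_neg h]
    · intro c _ hc
      rw [map_smul, F'.co_e, if_neg (fun h => hc h.2.symm), smul_zero]
    · intro h; exact absurd (Finset.mem_univ _) h
  rw [hco, hco, map_sub, map_mul, map_div₀, map_ratCast]
  have h2 : τ (2 : ℂ) = 2 := map_ofNat τ 2
  rw [h2]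
  split_ifs
  · rw [map_one]; rfl
  · rw [map_zero]; rfl

variable (hϖ : ϖ ≠ 0)
  (hB : ∀ v : Fin (2 * k) → HW κ n, (∀ r, IsRatP n P (v r)) → ∃ q : ℚ, α v = ϖ ^ k * q)

include hϖ hB in
/-- the translate of a symmetry -/
lemma exists_twist (τ : ℂ ≃+* ℂ) (X : GG κ) (hX : IsInv n P α X) :
    ∃ X', IsInv n P α X' ∧ ∀ (i : I) (F' : RF (P i) (K i)) (σ : K i →+* ℂ) (a b : Fin F'.r),
      ent P X i F' ((τ : ℂ →+* ℂ).comp σ) a b = τ (ent P X' i F' σ a b) := by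
  have h1 := mem_span_of_isInv n P α hϖ hB X hX
  refine Submodule.span_induction (p := fun X _ => ∃ X', IsInv n P α X' ∧
    ∀ (i : I) (F' : RF (P i) (K i)) (σ : K i →+* ℂ) (a b : Fin F'.r),
      ent P X i F' ((τ : ℂ →+* ℂ).comp σ) a b = τ (ent P X' i F' σ a b)) ?_ ?_ ?_ ?_ h1
  · intro Y hY
    exact ⟨Y, hY.1, fun i F' σ a b => ent_galois n P α Y hY.1 hY.2 τ i F' σ a b⟩
  · refine ⟨0, IsInv.zero n P α, fun i F' σ a b => ?_⟩
    rw [ent_zero, ent_zero, map_zero]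
  · rintro X Y _ _ ⟨X', hX', h2⟩ ⟨Y', hY', h3⟩
    refine ⟨X' + Y', hX'.add n P α hY', fun i F' σ a b => ?_⟩
    rw [ent_add, ent_add, h2, h3, map_add]
  · rintro c X _ ⟨X', hX', h2⟩
    refine ⟨τ.symm c • X', hX'.smul n P α _, fun i F' σ a b => ?_⟩
    rw [ent_smul, ent_smul, h2, map_mul, RingEquiv.apply_symm_apply]

lemma act_zero_iff (X : GG κ) (hX : IsInv n P α X) (i : I) (F' : RF (P i) (K i))
    (hF : F i = Sum.inl F') (σ : K i →+* ℂ) :
    (∀ x : Vs n P F α ⟨i, σ⟩, ⁅elL n P F α X hX, x⁆ = 0) ↔ ∀ a b, ent P X i F' σ a b = 0 := by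
  classical
  have hl : (F i).isLeft := by rw [hF]; rfl
  have hρ : (F i).ρ = F'.ρ := by rw [hF]; rfl
  have hcomm := comm_of_eq n P α hX i F'
  constructor
  · intro h a b
    have h1 := h (toVs n P F α ⟨i, σ⟩ (F'.e σ b))
    have h2 := elL_real n P F α X hX ⟨i, σ⟩ hl (toVs n P F α ⟨i, σ⟩ (F'.e σ b))
    rw [h1, toVs_apply] at h2
    have h3 : proj (F i).ρ σ (F'.e σ b) = F'.e σ b := by rw [hρ, F'.proj_e, if_pos rfl]
    have h4 : X.1 i (F'.e σ b) - (X.2 / 2) • F'.e σ b = 0 := by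
      rw [← h3]; exact h2.symm
    rw [ent, ← smul_eq_mul, ← map_smul, ← map_sub, h4, map_zero]
  · intro h x
    apply Vs_ext n P F α ⟨i, σ⟩
    rw [elL_real n P F α X hX ⟨i, σ⟩ hl]
    have hx : proj (F i).ρ σ ((x : MM κ) i) = (x : MM κ) i := Vs_proj n P F α ⟨i, σ⟩ x
    have h1 : ∀ b, X.1 i (F'.e σ b) = (X.2 / 2) • F'.e σ b := by
      intro b
      rw [hcomm.act σ b]
      have h2 : F'.e σ b = ∑ a, F'.co σ a (F'.e σ b) • F'.e σ a := by
        conv_lhs => rw [← if_pos (c := σ = σ) (t := F'.e σ b) (e := 0) rfl, ← F'.proj_e, F'.proj_eq]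
      conv_rhs => rw [h2, Finset.smul_sum]
      refine Finset.sum_congr rfl fun a _ => ?_
      have h3 := h a b
      rw [ent, sub_eq_zero] at h3
      rw [h3, smul_smul]
    show X.1 i ((x : MM κ) i) - (X.2 / 2) • ((x : MM κ) i) = 0
    rw [← hx, hρ, F'.proj_eq, map_sum, Finset.smul_sum, ← Finset.sum_sub_distrib]
    refine Finset.sum_eq_zero fun b _ => ?_
    rw [map_smul, h1, smul_comm, sub_self]

include hϖ hB in
/-- Galois equivariance of the inclusions between the kernels of the places -/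
theorem ker_galois (τ : ℂ ≃+* ℂ) (i j : I) (hi : (F i).isLeft) (hj : (F j).isLeft)
    (σ : K i →+* ℂ) (σ' : K j →+* ℂ)
    (h : ∀ a : LL n P F α, (∀ x : Vs n P F α ⟨i, σ⟩, ⁅a, x⁆ = 0) →
      ∀ x : Vs n P F α ⟨j, σ'⟩, ⁅a, x⁆ = 0) (a : LL n P F α)
    (ha : ∀ x : Vs n P F α ⟨i, (τ : ℂ →+* ℂ).comp σ⟩, ⁅a, x⁆ = 0) :
    ∀ x : Vs n P F α ⟨j, (τ : ℂ →+* ℂ).comp σ'⟩, ⁅a, x⁆ = 0 := by
  obtain ⟨Fi, hFi⟩ := Sum.isLeft_iff.mp hi
  obtain ⟨Fj, hFj⟩ := Sum.isLeft_iff.mp hj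
  obtain ⟨X, hX, rfl⟩ := exists_elL n P F α a
  obtain ⟨X', hX', htw⟩ := exists_twist (K := K) n P α hϖ hB τ X hX
  rw [act_zero_iff n P F α X hX i Fi hFi] at ha
  rw [act_zero_iff n P F α X hX j Fj hFj]
  intro b c
  rw [htw]
  have h1 : ∀ x : Vs n P F α ⟨i, σ⟩, ⁅elL n P F α X' hX', x⁆ = 0 := by
    rw [act_zero_iff n P F α X' hX' i Fi hFi]
    intro b c
    have h2 := ha b c
    rw [htw] at h2
    exact (map_eq_zero_iff τ τ.injective).mp h2
  have h3 := h _ h1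
  rw [act_zero_iff n P F α X' hX' j Fj hFj] at h3
  rw [h3, map_zero]

end family

end Pool.Agent.Helper84
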