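import Pool.Agent.Helper84.KerGal
import Pool.Agent.Helper84.Iso4
import Pool.Agent.Helper84.CMGal
import Pool.Agent.Helper8.H.Triple

/-!
Linked places: a place of dimension four and a place of dimension two with the same kernel have
the same Galois stabiliser.
-/

namespace Pool.Agent.Helper84

open Module NumberField LieAlgebra

attribute [local instance 100] LieRing.ofAssociativeRing

open Pool.Agent.Helper7
open Pool.Agent.GPC (Emb IsOdd IsOddModule translate)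
open Pool.Agent.Helper8 (Symp ML2 Inv2 exists_linear Principal Triv ker_symm exists_str)

set_option linter.unusedSectionVars false

section family

variable {I : Type} [Fintype I] [DecidableEq I] (n : I → ℕ)
  {κ : I → Type} [∀ i, Fintype (κ i)] [∀ i, DecidableEq (κ i)] {ϖ : ℂ}
  (P : ∀ i, PData (κ i) ϖ)
  {K : I → Type} [∀ i, Field (K i)] [∀ i, NumberField (K i)]
  (F : ∀ i, FS (P i) (K i))
  {k : ℕ} (α : MultilinearMap ℂ (fun _ : Fin (2 * k) => HW κ n) ℂ)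

/-- the dimension of a place is the rank -/
lemma finrank_Vs (i : I) (F' : RF (P i) (K i)) (hF : F i = Sum.inl F') (σ : K i →+* ℂ) :
    finrank ℂ (Vs n P F α ⟨i, σ⟩) = F'.r := by
  have hρ : (F i).ρ = F'.ρ := by rw [hF]; rfl
  have h1 : (Vs n P F α ⟨i, σ⟩).toSubmodule =
      (Submodule.span ℂ (Set.range (F'.e σ))).map (LinearMap.single ℂ (fun i => (κ i → ℂ)) i) := by
    rw [F'.span_e, ← hρ]
    exact LinearMap.range_comp _ _
  have hinj : Function.Injective (LinearMap.single ℂ (fun i => (κ i → ℂ)) i) := by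
    intro u v huv
    exact Pi.single_injective (M := fun i => κ i → ℂ) i huv
  have h2 : finrank ℂ (Vs n P F α ⟨i, σ⟩) =
      finrank ℂ ((Vs n P F α ⟨i, σ⟩).toSubmodule) := rfl
  rw [h2, h1, (LinearEquiv.finrank_eq (Submodule.equivMapOfInjective _ hinj _)).symm]
  have hli : LinearIndependent ℂ (F'.e σ) :=
    F'.eb.linearIndependent.comp (fun j => (σ, j)) (fun a b h => (Prod.mk.inj h).2)
  rw [finrank_span_eq_card hli, Fintype.card_fin]

lemma finrank_Vs_eq (i : I) (hi : (F i).isLeft) (σ σ' : K i →+* ℂ) :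
    finrank ℂ (Vs n P F α ⟨i, σ⟩) = finrank ℂ (Vs n P F α ⟨i, σ'⟩) := by
  obtain ⟨F', hF'⟩ := Sum.isLeft_iff.mp hi
  rw [finrank_Vs n P F α i F' hF', finrank_Vs n P F α i F' hF']

/-- there is a non-zero invariant pairing -/
def Paired (s t : Emb K) : Prop := ∃ f : Vs n P F α s → Vs n P F α t → ℂ, ML2 f ∧
  Inv2 (LL n P F α) f ∧ ∃ x y, f x y ≠ 0

/-- inclusion of the kernels -/
def KerSub (s t : Emb K) : Prop := ∀ a : LL n P F α, (∀ x : Vs n P F α s, ⁅a, x⁆ = 0) →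
  ∀ x : Vs n P F α t, ⁅a, x⁆ = 0

variable (hϖ : ϖ ≠ 0)
  (hB : ∀ v : Fin (2 * k) → HW κ n, (∀ r, IsRatP n P (v r)) → ∃ q : ℚ, α v = ϖ ^ k * q)
  (hA : ∀ v : Fin (2 * k) → HW κ n, (∀ r i m j, IsAlgebraic ℚ (v r i m j)) →
      IsAlgebraic ℚ (α v))

include hϖ hB in
lemma KerSub.act {s t : Emb K} (hs : (F s.1).isLeft) (ht : (F t.1).isLeft)
    (h : KerSub n P F α s t) (τ : ℂ ≃+* ℂ) :
    KerSub n P F α ⟨s.1, (τ : ℂ →+* ℂ).comp s.2⟩ ⟨t.1, (τ : ℂ →+* ℂ).comp t.2⟩ :=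
  fun a ha => ker_galois n P F α hϖ hB τ s.1 t.1 hs ht s.2 t.2 h a ha

lemma nontriv_of {s : Emb K} {d : ℕ} (h : finrank ℂ (Vs n P F α s) = d + 1) :
    Nontrivial (Vs n P F α s) :=
  Module.finrank_pos_iff.mp (by rw [h]; omega)

include hϖ hB hA in
/-- paired places have the same kernel -/
lemma Paired.ker {s t : Emb K} (hs : (F s.1).isLeft)
    (hns : Nontrivial (Vs n P F α s)) (h : Paired n P F α s t) : KerSub n P F α t s := by
  obtain ⟨f, hf, hI, x0, y0, h0⟩ := h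
  have hirr := Vs_irr n P F α hϖ hB hA s hs hns
  intro a ha
  -- the radical of the pairing on the left
  let N : LieSubmodule ℂ (LL n P F α) (Vs n P F α s) :=
    { carrier := {x | ∀ y, f x y = 0}
      zero_mem' := fun y => (hf.l1 y).map_zero
      add_mem' := fun {u v} hu hv y => by
        have := (hf.l1 y).map_add u v
        rw [this, hu y, hv y, add_zero]
      smul_mem' := fun c u hu y => by
        have := (hf.l1 y).map_smul c u
        rw [this, hu y, smul_zero]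
      lie_mem := fun {b u} hu y => by
        have h1 := hI b u y
        have h2 : f u ⁅b, y⁆ = 0 := hu _
        rw [h2, add_zero] at h1
        exact h1 }
  have hN : N = ⊥ := by
    rcases eq_or_ne N ⊥ with h1 | h1
    · exact h1
    · exfalso
      have h3 : N = ⊤ := (IsSimpleOrder.eq_bot_or_eq_top N).resolve_left h1
      have h4 : x0 ∈ N := by rw [h3]; trivial
      exact h0 (h4 y0)
  intro x
  have h5 : ⁅a, x⁆ ∈ N := by
    intro y
    have h1 := hI a x y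
    rw [ha y, (hf.l2 x).map_zero, add_zero] at h1
    exact h1
  rw [hN, LieSubmodule.mem_bot] at h5
  exact h5

lemma Paired.symm {s t : Emb K} (h : Paired n P F α s t) : Paired n P F α t s := by
  obtain ⟨f, hf, hI, x, y, h0⟩ := h
  refine ⟨fun y x => f x y, ⟨fun x => hf.l2 x, fun y => hf.l1 y⟩, fun a y x => ?_, y, x, h0⟩
  have h1 := hI a x y
  show f x ⁅a, y⁆ + f ⁅a, x⁆ y = 0
  rw [add_comm]; exact h1

lemma Paired.refl {s : Emb K} (hs : (F s.1).isLeft) (hns : Nontrivial (Vs n P F α s)) :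
    Paired n P F α s s := by
  have hω := omV_symp n P F α s hs
  obtain ⟨x, hx⟩ := exists_ne (0 : Vs n P F α s)
  have h1 : ∃ y, omV n P F α s x y ≠ 0 := by
    by_contra h
    push Not at h
    exact hx (hω.nd x h)
  obtain ⟨y, hy⟩ := h1
  exact ⟨fun x y => omV n P F α s x y,
    ⟨fun y => ⟨fun a b => by simp, fun c a => by simp⟩,
      fun x => ⟨fun a b => by simp, fun c a => by simp⟩⟩,
    fun a x y => by
      show omV n P F α s ⁅a, x⁆ y + omV n P F α s x ⁅a, y⁆ = 0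
      rw [hω.inv]; ring, x, y, hy⟩

lemma KerSub.trans {s t u : Emb K} (h1 : KerSub n P F α s t) (h2 : KerSub n P F α t u) :
    KerSub n P F α s u := fun a ha => h2 a (h1 a ha)

variable (hk : IsKilling ℂ (LL n P F α))

include hϖ hB hA hk in
/-- **linked places have the same Galois behaviour** -/
theorem linked_iff (p : Principal (LL n P F α)) (i j : I) (hi : (F i).isLeft)
    (hj : (F j).isLeft) (σ : K i →+* ℂ) (σ' : K j →+* ℂ)
    (d4 : finrank ℂ (Vs n P F α ⟨i, σ⟩) = 4) (d2 : finrank ℂ (Vs n P F α ⟨j, σ'⟩) = 2)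
    (hker : KerSub n P F α ⟨i, σ⟩ ⟨j, σ'⟩) (τ : ℂ ≃+* ℂ) :
    Paired n P F α ⟨i, σ⟩ ⟨i, (τ : ℂ →+* ℂ).comp σ⟩ ↔
      Paired n P F α ⟨j, σ'⟩ ⟨j, (τ : ℂ →+* ℂ).comp σ'⟩ := by
  have d4' : finrank ℂ (Vs n P F α ⟨i, (τ : ℂ →+* ℂ).comp σ⟩) = 4 := by
    rw [← d4]; exact finrank_Vs_eq n P F α i hi _ _
  have d2' : finrank ℂ (Vs n P F α ⟨j, (τ : ℂ →+* ℂ).comp σ'⟩) = 2 := by
    rw [← d2]; exact finrank_Vs_eq n P F α j hj _ _
  have n4 := nontriv_of n P F α d4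
  have n4' := nontriv_of n P F α d4'
  have n2 := nontriv_of n P F α d2
  have n2' := nontriv_of n P F α d2'
  have i4 := Vs_irr n P F α hϖ hB hA ⟨i, σ⟩ hi n4
  have i4' := Vs_irr n P F α hϖ hB hA ⟨i, (τ : ℂ →+* ℂ).comp σ⟩ hi n4'
  have i2 := Vs_irr n P F α hϖ hB hA ⟨j, σ'⟩ hj n2
  have i2' := Vs_irr n P F α hϖ hB hA ⟨j, (τ : ℂ →+* ℂ).comp σ'⟩ hj n2'
  have o4 := omV_symp n P F α ⟨i, σ⟩ hi
  have o4' := omV_symp n P F α ⟨i, (τ : ℂ →+* ℂ).comp σ⟩ hi
  have o2 := omV_symp n P F α ⟨j, σ'⟩ hj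
  have o2' := omV_symp n P F α ⟨j, (τ : ℂ →+* ℂ).comp σ'⟩ hj
  obtain ⟨m4, hm4, ⟨S4⟩⟩ := exists_str (p := p) o4 (Or.inr d4)
  obtain ⟨m2, hm2, ⟨S2⟩⟩ := exists_str (p := p) o2 (Or.inl d2)
  have hker2 : KerSub n P F α ⟨j, σ'⟩ ⟨i, σ⟩ :=
    fun a ha => ker_symm o4 hm4 hm2 S4 S2 hker a ha
  have ht1 := hker.act n P F α hϖ hB hi hj τ
  have ht2 := hker2.act n P F α hϖ hB hj hi τ
  constructor
  · intro h
    have h1 := h.ker n P F α hϖ hB hA hi n4
    have h2 := (h.symm n P F α).ker n P F α hϖ hB hA hi n4'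
    have h3 : KerSub n P F α ⟨j, σ'⟩ ⟨j, (τ : ℂ →+* ℂ).comp σ'⟩ :=
      (hker2.trans n P F α h2).trans n P F α ht1
    exact iso2 p o2 o2' d2 d2' h3
  · intro h
    have h1 := h.ker n P F α hϖ hB hA hj n2
    have h2 := (h.symm n P F α).ker n P F α hϖ hB hA hj n2'
    have h3 : KerSub n P F α ⟨i, σ⟩ ⟨i, (τ : ℂ →+* ℂ).comp σ⟩ :=
      (hker.trans n P F α h2).trans n P F α ht2
    have h4 : KerSub n P F α ⟨i, (τ : ℂ →+* ℂ).comp σ⟩ ⟨i, σ⟩ :=
      (ht1.trans n P F α h1).trans n P F α hker2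
    exact iso4 p o4 o4' d4 d4' h3 h4

include hϖ hB hA hk in
/-- linked places of factors all of whose endomorphisms lie in the field have the same image -/
theorem linked_range (p : Principal (LL n P F α)) (i j : I) (hi : (F i).isLeft)
    (hj : (F j).isLeft) (hEi : ∀ g, IsDRB (P i) (P i) g → ∃ x : K i, ∀ v, g v = (F i).ρ x v)
    (hEj : ∀ g, IsDRB (P j) (P j) g → ∃ x : K j, ∀ v, g v = (F j).ρ x v)
    (σ : K i →+* ℂ) (σ' : K j →+* ℂ)
    (d4 : finrank ℂ (Vs n P F α ⟨i, σ⟩) = 4) (d2 : finrank ℂ (Vs n P F α ⟨j, σ'⟩) = 2)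
    (hker : KerSub n P F α ⟨i, σ⟩ ⟨j, σ'⟩) : σ.range = σ'.range := by
  have hiff := fun τ => linked_iff n P F α hϖ hB hA hk p i j hi hj σ σ' d4 d2 hker τ
  have hself : ∀ (l : I) (hl : (F l).isLeft)
      (hE : ∀ g, IsDRB (P l) (P l) g → ∃ x : K l, ∀ v, g v = (F l).ρ x v) (σ1 σ2 : K l →+* ℂ),
      Nontrivial (Vs n P F α ⟨l, σ1⟩) → (Paired n P F α ⟨l, σ1⟩ ⟨l, σ2⟩ ↔ σ1 = σ2) := by
    intro l hl hE σ1 σ2 hnt
    constructor
    · rintro ⟨f, hf, hI, x, y, h0⟩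
      by_contra hne
      exact h0 (nopair_end n P F α hϖ hB hA l hl σ1 σ2 hne hE f hf hI x y)
    · rintro rfl
      exact Paired.refl n P F α hl hnt
  have n4 := nontriv_of n P F α d4
  have n2 := nontriv_of n P F α d2
  have hfix : ∀ τ : ℂ ≃+* ℂ, (τ : ℂ →+* ℂ).comp σ = σ ↔ (τ : ℂ →+* ℂ).comp σ' = σ' := by
    intro τ
    have h1 := hself i hi hEi σ ((τ : ℂ →+* ℂ).comp σ) n4
    have h2 := hself j hj hEj σ' ((τ : ℂ →+* ℂ).comp σ') n2
    rw [eq_comm, ← h1, hiff τ, h2, eq_comm]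
  apply le_antisymm
  · rintro _ ⟨x, rfl⟩
    obtain ⟨y, hy⟩ := mem_range_of_fixed σ' (σ x) (isAlgebraic_emb σ x) (fun τ hτ =>
      RingHom.congr_fun ((hfix τ).mpr hτ) x)
    exact ⟨y, hy⟩
  · rintro _ ⟨x, rfl⟩
    obtain ⟨y, hy⟩ := mem_range_of_fixed σ (σ' x) (isAlgebraic_emb σ' x) (fun τ hτ =>
      RingHom.congr_fun ((hfix τ).mp hτ) x)
    exact ⟨y, hy⟩

include hϖ hB hA hk in
/-- linked places force isomorphic fields -/
theorem linked_field (p : Principal (LL n P F α)) (i j : I) (hi : (F i).isLeft)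
    (hj : (F j).isLeft) (hEi : ∀ g, IsDRB (P i) (P i) g → ∃ x : K i, ∀ v, g v = (F i).ρ x v)
    (hEj : ∀ g, IsDRB (P j) (P j) g → ∃ x : K j, ∀ v, g v = (F j).ρ x v)
    (σ : K i →+* ℂ) (σ' : K j →+* ℂ)
    (d4 : finrank ℂ (Vs n P F α ⟨i, σ⟩) = 4) (d2 : finrank ℂ (Vs n P F α ⟨j, σ'⟩) = 2)
    (hker : KerSub n P F α ⟨i, σ⟩ ⟨j, σ'⟩) : Nonempty (K i ≃+* K j) := by
  have h := linked_range n P F α hϖ hB hA hk p i j hi hj hEi hEj σ σ' d4 d2 hker
  have e1 : K i ≃+* σ.range := RingEquiv.ofBijective σ.rangeRestrict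
    ⟨fun a b hab => σ.injective (congrArg Subtype.val hab), σ.rangeRestrict_surjective⟩
  have e2 : K j ≃+* σ'.range := RingEquiv.ofBijective σ'.rangeRestrict
    ⟨fun a b hab => σ'.injective (congrArg Subtype.val hab), σ'.rangeRestrict_surjective⟩
  rw [← h] at e2
  exact ⟨e1.trans e2.symm⟩

include hϖ hB hA hk in
/-- a place of dimension two linked to a place of dimension four of a factor all of whose
endomorphisms lie in the field: the field of the latter embeds into the field of the former -/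
theorem linked_range_le (p : Principal (LL n P F α)) (i j : I) (hi : (F i).isLeft)
    (hj : (F j).isLeft) (hEi : ∀ g, IsDRB (P i) (P i) g → ∃ x : K i, ∀ v, g v = (F i).ρ x v)
    (σ : K i →+* ℂ) (σ' : K j →+* ℂ)
    (d4 : finrank ℂ (Vs n P F α ⟨i, σ⟩) = 4) (d2 : finrank ℂ (Vs n P F α ⟨j, σ'⟩) = 2)
    (hker : KerSub n P F α ⟨i, σ⟩ ⟨j, σ'⟩) : σ.range ≤ σ'.range := by
  have hiff := fun τ => linked_iff n P F α hϖ hB hA hk p i j hi hj σ σ' d4 d2 hker τ
  have n4 := nontriv_of n P F α d4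
  have n2 := nontriv_of n P F α d2
  have hfix : ∀ τ : ℂ ≃+* ℂ, (τ : ℂ →+* ℂ).comp σ' = σ' → (τ : ℂ →+* ℂ).comp σ = σ := by
    intro τ hτ
    have h1 : Paired n P F α ⟨j, σ'⟩ ⟨j, (τ : ℂ →+* ℂ).comp σ'⟩ := by
      rw [hτ]; exact Paired.refl n P F α hj n2
    obtain ⟨f, hf, hI, x, y, h0⟩ := (hiff τ).mpr h1
    by_contra hne
    exact h0 (nopair_end n P F α hϖ hB hA i hi σ _ (fun h => hne h.symm) hEi f hf hI x y)
  rintro _ ⟨x, rfl⟩
  obtain ⟨y, hy⟩ := mem_range_of_fixed σ' (σ x) (isAlgebraic_emb σ x) (fun τ hτ =>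
    RingHom.congr_fun (hfix τ hτ) x)
  exact ⟨y, hy⟩

include hϖ hB hA hk in
theorem linked_hom (p : Principal (LL n P F α)) (i j : I) (hi : (F i).isLeft)
    (hj : (F j).isLeft) (hEi : ∀ g, IsDRB (P i) (P i) g → ∃ x : K i, ∀ v, g v = (F i).ρ x v)
    (σ : K i →+* ℂ) (σ' : K j →+* ℂ)
    (d4 : finrank ℂ (Vs n P F α ⟨i, σ⟩) = 4) (d2 : finrank ℂ (Vs n P F α ⟨j, σ'⟩) = 2)
    (hker : ∀ x : LL n P F α, Triv (Vs n P F α ⟨i, σ⟩) x → Triv (Vs n P F α ⟨j, σ'⟩) x) :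
    Nonempty (K i →+* K j) := by
  have h := linked_range_le n P F α hϖ hB hA hk p i j hi hj hEi σ σ' d4 d2 hker
  have e2 : K j ≃+* σ'.range := RingEquiv.ofBijective σ'.rangeRestrict
    ⟨fun a b hab => σ'.injective (congrArg Subtype.val hab), σ'.rangeRestrict_surjective⟩
  exact ⟨(e2.symm : σ'.range →+* K j).comp ((Subring.inclusion h).comp σ.rangeRestrict)⟩

end family

end Pool.Agent.Helper84
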