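import Pool.Agent.Helper7.J4
import Pool.Agent.Helper8.Lie.P1111
import Pool.Agent.Helper8.Lie.P22
import Pool.Agent.Helper8.Lie.PMixed2

/-!
Invariant pairings between two places: they come from de Rham-Betti morphisms, hence vanish in the
absence of morphisms; Galois equivariance of the kernels.
-/

namespace Pool.Agent.Helper84

open Module NumberField LieAlgebra

attribute [local instance 100] LieRing.ofAssociativeRing

open Pool.Agent.Helper7
open Pool.Agent.GPC (Emb IsOdd IsOddModule translate)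
open Pool.Agent.Helper8 (Symp ML2 Inv2 exists_linear)

set_option linter.unusedSectionVars false

section family

variable {I : Type} [Fintype I] [DecidableEq I] (n : I → ℕ)
  {κ : I → Type} [∀ i, Fintype (κ i)] [∀ i, DecidableEq (κ i)] {ϖ : ℂ}
  (P : ∀ i, PData (κ i) ϖ)
  {K : I → Type} [∀ i, Field (K i)] [∀ i, NumberField (K i)]
  (F : ∀ i, FS (P i) (K i))
  {k : ℕ} (α : MultilinearMap ℂ (fun _ : Fin (2 * k) => HW κ n) ℂ)

lemma toVs_coe (s : Emb K) (x : Vs n P F α s) : toVs n P F α s ((x : MM κ) s.1) = x := by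
  apply Vs_ext n P F α s
  rw [toVs_apply, Vs_proj]

lemma toVs_act (X : GG κ) (hX : IsInv n P α X) (s : Emb K) (hs : (F s.1).isLeft)
    (u : κ s.1 → ℂ) : toVs n P F α s (X.1 s.1 u) =
      ⁅elL n P F α X hX, toVs n P F α s u⁆ + (X.2 / 2) • toVs n P F α s u := by
  apply Vs_ext n P F α s
  have h1 : ((⁅elL n P F α X hX, toVs n P F α s u⁆ + (X.2 / 2) • toVs n P F α s u :
      Vs n P F α s) : MM κ) s.1 =
      ((⁅elL n P F α X hX, toVs n P F α s u⁆ : Vs n P F α s) : MM κ) s.1 +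
      (X.2 / 2) • ((toVs n P F α s u : Vs n P F α s) : MM κ) s.1 := rfl
  rw [h1, elL_real n P F α X hX s hs, toVs_apply, toVs_apply, sub_add_cancel,
    IsInv.commP n P F α hX]

variable (hϖ : ϖ ≠ 0)
  (hB : ∀ v : Fin (2 * k) → HW κ n, (∀ r, IsRatP n P (v r)) → ∃ q : ℚ, α v = ϖ ^ k * q)
  (hA : ∀ v : Fin (2 * k) → HW κ n, (∀ r i m j, IsAlgebraic ℚ (v r i m j)) →
      IsAlgebraic ℚ (α v))

include hϖ hB hA in
/-- invariant pairings of two places come from de Rham-Betti morphisms -/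
theorem pair_dRB (s t : Emb K) (hs : (F s.1).isLeft) (ht : (F t.1).isLeft)
    {f : Vs n P F α s → Vs n P F α t → ℂ} (hf : ML2 f) (hI : Inv2 (LL n P F α) f) :
    ∃ (m : ℕ) (c : Fin m → ℂ) (g : Fin m → ((κ s.1 → ℂ) →ₗ[ℂ] (κ t.1 → ℂ))),
      (∀ l, IsDRB (P s.1) (P t.1) (g l)) ∧
      ∀ u v, f (toVs n P F α s u) (toVs n P F α t v) = ∑ l, c l * (P t.1).ψ (g l u) v := by
  obtain ⟨β, hβ⟩ := exists_linear hf
  obtain ⟨m, c, g, hg, hsum⟩ := bilin_of_inv n P α hϖ hB hA s.1 t.1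
    (β.compl₁₂ (toVs n P F α s) (toVs n P F α t)) (by
      intro X hX u v
      rw [LinearMap.compl₁₂_apply, LinearMap.compl₁₂_apply, LinearMap.compl₁₂_apply,
        toVs_act n P F α X hX s hs, toVs_act n P F α X hX t ht]
      have h1 := hI (elL n P F α X hX) (toVs n P F α s u) (toVs n P F α t v)
      rw [← hβ, ← hβ] at h1
      simp only [map_add, map_smul, LinearMap.add_apply, LinearMap.smul_apply, smul_eq_mul]
      linear_combination h1)
  refine ⟨m, c, g, hg, fun u v => ?_⟩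
  rw [← hβ]
  exact hsum u v

include hϖ hB hA in
/-- no morphisms, no pairings -/
theorem nopair_hom (s t : Emb K) (hs : (F s.1).isLeft) (ht : (F t.1).isLeft)
    (h0 : ∀ g, IsDRB (P s.1) (P t.1) g → g = 0)
    (f : Vs n P F α s → Vs n P F α t → ℂ) (hf : ML2 f) (hI : Inv2 (LL n P F α) f) :
    ∀ x y, f x y = 0 := by
  intro x y
  obtain ⟨m, c, g, hg, hsum⟩ := pair_dRB n P F α hϖ hB hA s t hs ht hf hI
  have h1 := hsum ((x : MM κ) s.1) ((y : MM κ) t.1)
  rw [toVs_coe, toVs_coe] at h1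
  rw [h1]
  refine Finset.sum_eq_zero fun l _ => ?_
  rw [h0 _ (hg l), LinearMap.zero_apply, map_zero, LinearMap.zero_apply, mul_zero]

lemma FS_hros {κ : Type} [Fintype κ] [DecidableEq κ] {ϖ : ℂ} {P : PData κ ϖ} {K : Type}
    [Field K] [NumberField K] (F : FS P K) (hF : F.isLeft) (x : K) (u v : κ → ℂ) :
    P.ψ (F.ρ x u) v = P.ψ u (F.ρ x v) := by
  obtain ⟨F', rfl⟩ := Sum.isLeft_iff.mp hF
  exact F'.hros x u v

lemma rho_of_proj {κ : Type} {K : Type} [Field K] [NumberField K]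
    (ρ : K →+* Module.End ℂ (κ → ℂ)) (σ : K →+* ℂ) (x : K) (v : κ → ℂ)
    (hv : proj ρ σ v = v) : ρ x v = σ x • v := by
  conv_lhs => rw [← hv]
  rw [← Module.End.mul_apply, rho_mul_proj, LinearMap.smul_apply, hv]

/-- different places of a factor are orthogonal -/
lemma psi_zero (i : I) (hi : (F i).isLeft) (σ τ : K i →+* ℂ) (hne : σ ≠ τ) (u v : κ i → ℂ)
    (hu : proj (F i).ρ σ u = u) (hv : proj (F i).ρ τ v = v) : (P i).ψ u v = 0 := by
  by_contra h0
  apply hne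
  ext x
  have h1 := FS_hros (F i) hi x u v
  rw [rho_of_proj _ σ x u hu, rho_of_proj _ τ x v hv, map_smul, map_smul, LinearMap.smul_apply,
    smul_eq_mul, smul_eq_mul] at h1
  exact mul_right_cancel₀ h0 h1

include hϖ hB hA in
/-- all endomorphisms are in the field: no pairings between different places -/
theorem nopair_end (i : I) (hi : (F i).isLeft) (σ τ : K i →+* ℂ) (hne : σ ≠ τ)
    (hE : ∀ g, IsDRB (P i) (P i) g → ∃ x : K i, ∀ v, g v = (F i).ρ x v)
    (f : Vs n P F α ⟨i, σ⟩ → Vs n P F α ⟨i, τ⟩ → ℂ) (hf : ML2 f)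
    (hI : Inv2 (LL n P F α) f) : ∀ x y, f x y = 0 := by
  intro x y
  obtain ⟨m, c, g, hg, hsum⟩ := pair_dRB n P F α hϖ hB hA ⟨i, σ⟩ ⟨i, τ⟩ hi hi hf hI
  have h1 := hsum ((x : MM κ) i) ((y : MM κ) i)
  have hx : toVs n P F α ⟨i, σ⟩ ((x : MM κ) i) = x := toVs_coe n P F α ⟨i, σ⟩ x
  have hy : toVs n P F α ⟨i, τ⟩ ((y : MM κ) i) = y := toVs_coe n P F α ⟨i, τ⟩ y
  rw [hx, hy] at h1
  rw [h1]
  refine Finset.sum_eq_zero fun l _ => ?_
  obtain ⟨a, ha⟩ := hE _ (hg l)
  have hxp : proj (F i).ρ σ ((x : MM κ) i) = (x : MM κ) i := Vs_proj n P F α ⟨i, σ⟩ x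
  have hyp : proj (F i).ρ τ ((y : MM κ) i) = (y : MM κ) i := Vs_proj n P F α ⟨i, τ⟩ y
  rw [ha, rho_of_proj _ σ a _ hxp, map_smul, LinearMap.smul_apply,
    psi_zero P F i hi σ τ hne _ _ hxp hyp, smul_zero, mul_zero]

include hϖ hB hA in
/-- endomorphisms in a quaternion algebra over the field: among three places at least one has no
pairing with a fixed place -/
theorem nopair_quat (i : I) (hi : (F i).isLeft) (g0 : Module.End ℂ (κ i → ℂ))
    (hE : ∀ g, IsDRB (P i) (P i) g →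
      ∃ x y : K i, ∀ v, g v = (F i).ρ x v + g0 ((F i).ρ y v))
    (τ : K i →+* ℂ) (σ : Fin 3 → (K i →+* ℂ)) (hσ : Function.Injective σ) :
    ∃ j, ∀ f : Vs n P F α ⟨i, σ j⟩ → Vs n P F α ⟨i, τ⟩ → ℂ, ML2 f → Inv2 (LL n P F α) f →
      ∀ x y, f x y = 0 := by
  classical
  by_contra hcon
  push Not at hcon
  choose f hf hI x0 y0 hne using hcon
  -- the transposed pairings
  have key : ∀ j, ∃ a b : ℂ, ∀ u v : κ i → ℂ,
      f j (toVs n P F α ⟨i, σ j⟩ u) (toVs n P F α ⟨i, τ⟩ v) =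
        (P i).ψ (a • proj (F i).ρ τ v + b • g0 (proj (F i).ρ τ v)) u := by
    intro j
    obtain ⟨m, c, g, hg, hsum⟩ := pair_dRB n P F α hϖ hB hA ⟨i, τ⟩ ⟨i, σ j⟩ hi hi
      (f := fun y x => f j x y) ⟨fun x => (hf j).l2 x, fun y => (hf j).l1 y⟩
      (fun a y x => by
        have h1 := hI j a x y
        show f j x ⁅a, y⁆ + f j ⁅a, x⁆ y = 0
        rw [add_comm]; exact h1)
    have h2 : ∀ l, ∃ x y : K i, ∀ v, g l v = (F i).ρ x v + g0 ((F i).ρ y v) :=
      fun l => hE _ (hg l)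
    choose a b hab using h2
    refine ⟨∑ l, c l * τ (a l), ∑ l, c l * τ (b l), fun u v => ?_⟩
    have h3 := hsum (proj (F i).ρ τ v) u
    have hpp : proj (F i).ρ τ (proj (F i).ρ τ v) = proj (F i).ρ τ v := by
      classical
      rw [← Module.End.mul_apply, proj_mul_proj, if_pos rfl]
    have h4 : toVs n P F α ⟨i, τ⟩ (proj (F i).ρ τ v) = toVs n P F α ⟨i, τ⟩ v := by
      apply Vs_ext n P F α ⟨i, τ⟩
      rw [toVs_apply, toVs_apply]
      exact hpp
    rw [h4] at h3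
    rw [h3]
    have h5 : ∀ l, g l (proj (F i).ρ τ v) =
        τ (a l) • proj (F i).ρ τ v + τ (b l) • g0 (proj (F i).ρ τ v) := by
      intro l
      rw [hab, rho_of_proj _ τ (a l) _ hpp, rho_of_proj _ τ (b l) _ hpp, map_smul]
    have h6 : (P i).ψ ((∑ l, c l * τ (a l)) • proj (F i).ρ τ v +
        (∑ l, c l * τ (b l)) • g0 (proj (F i).ρ τ v)) u =
        ∑ l, c l * (P i).ψ (g l (proj (F i).ρ τ v)) u := by
      simp only [h5, map_add, map_smul, LinearMap.add_apply, LinearMap.smul_apply, smul_eq_mul,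
        Finset.sum_mul, ← Finset.sum_add_distrib]
      refine Finset.sum_congr rfl fun l _ => ?_
      ring
    exact h6.symm
  choose a b hab using key
  -- a linear relation
  obtain ⟨w, hw, hw0⟩ : ∃ w : Fin 3 → ℂ, (∑ j, w j * a j = 0 ∧ ∑ j, w j * b j = 0) ∧
      ∃ j, w j ≠ 0 := by
    let L : (Fin 3 → ℂ) →ₗ[ℂ] (Fin 2 → ℂ) :=
      LinearMap.pi ![∑ j, a j • LinearMap.proj j, ∑ j, b j • LinearMap.proj j]
    have hni : ¬ Function.Injective L := by
      intro h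
      have h1 := LinearMap.finrank_le_finrank_of_injective h
      simp at h1
    rw [← LinearMap.ker_eq_bot, Submodule.eq_bot_iff] at hni
    push Not at hni
    obtain ⟨w, hw, hw0⟩ := hni
    have h1 : L w = 0 := hw
    have h2 := congrFun h1 0
    have h3 := congrFun h1 1
    refine ⟨w, ⟨?_, ?_⟩, Function.ne_iff.mp hw0⟩
    · simpa [L, mul_comm] using h2
    · simpa [L, mul_comm] using h3
  obtain ⟨j, hj⟩ := hw0
  -- apply it to a vector of the place
  have h1 : ∀ l, w l * (P i).ψ (a l • proj (F i).ρ τ ((y0 j : MM κ) i) +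
      b l • g0 (proj (F i).ρ τ ((y0 j : MM κ) i))) ((x0 j : MM κ) i) =
      if l = j then w j * f j (x0 j) (y0 j) else 0 := by
    intro l
    rw [← hab l]
    have hy : toVs n P F α ⟨i, τ⟩ ((y0 j : MM κ) i) = y0 j := toVs_coe n P F α ⟨i, τ⟩ (y0 j)
    rw [hy]
    split_ifs with h
    · subst h
      have hx : toVs n P F α ⟨i, σ l⟩ ((x0 l : MM κ) i) = x0 l :=
        toVs_coe n P F α ⟨i, σ l⟩ (x0 l)
      rw [hx]
    · have hx : toVs n P F α ⟨i, σ l⟩ ((x0 j : MM κ) i) = 0 := by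
        apply Vs_ext n P F α ⟨i, σ l⟩
        rw [toVs_apply]
        have hxp : proj (F i).ρ (σ j) ((x0 j : MM κ) i) = (x0 j : MM κ) i :=
          Vs_proj n P F α ⟨i, σ j⟩ (x0 j)
        show proj (F i).ρ (σ l) ((x0 j : MM κ) i) = 0
        rw [← hxp, ← Module.End.mul_apply, proj_mul_proj, if_neg (fun h2 => h (hσ h2))]
        rfl
      rw [hx, ((hf l).l1 _).map_zero, mul_zero]
  have h2 : ∑ l, w l * (P i).ψ (a l • proj (F i).ρ τ ((y0 j : MM κ) i) +
      b l • g0 (proj (F i).ρ τ ((y0 j : MM κ) i))) ((x0 j : MM κ) i) =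
      w j * f j (x0 j) (y0 j) := by
    rw [Finset.sum_congr rfl fun l _ => h1 l]
    simp
  have h3 : ∑ l, w l * (P i).ψ (a l • proj (F i).ρ τ ((y0 j : MM κ) i) +
      b l • g0 (proj (F i).ρ τ ((y0 j : MM κ) i))) ((x0 j : MM κ) i) = 0 := by
    have h4 : ∀ l, w l * (P i).ψ (a l • proj (F i).ρ τ ((y0 j : MM κ) i) +
      b l • g0 (proj (F i).ρ τ ((y0 j : MM κ) i))) ((x0 j : MM κ) i) =
      (w l * a l) * (P i).ψ (proj (F i).ρ τ ((y0 j : MM κ) i)) ((x0 j : MM κ) i) +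
      (w l * b l) * (P i).ψ (g0 (proj (F i).ρ τ ((y0 j : MM κ) i))) ((x0 j : MM κ) i) := by
      intro l
      simp only [map_add, map_smul, LinearMap.add_apply, LinearMap.smul_apply, smul_eq_mul]
      ring
    rw [Finset.sum_congr rfl fun l _ => h4 l, Finset.sum_add_distrib, ← Finset.sum_mul,
      ← Finset.sum_mul, hw.1, hw.2, zero_mul, zero_mul, add_zero]
  rw [h3] at h2
  exact mul_ne_zero hj (hne j) h2.symm

end family

end Pool.Agent.Helper84
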